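import Mathlib

set_option autoImplicit false

open MeasureTheory Filter Topology Set
open scoped ENNReal NNReal ContDiff Convolution

namespace Pool.Agent.H7R3.Mag

abbrev E3 := EuclideanSpace ℝ (Fin 3)

/-- A `1`-Lipschitz function can be approximated uniformly by smooth `1`-Lipschitz functions. -/
theorem exists_smooth_lip (g : E3 → ℝ) (hg : LipschitzWith 1 g) {ε : ℝ} (hε : 0 < ε) :
    ∃ h : E3 → ℝ, ContDiff ℝ ∞ h ∧ LipschitzWith 1 h ∧ ∀ x, |h x - g x| ≤ ε := by
  let φ : ContDiffBump (0 : E3) := ⟨ε / 2, ε, by positivity, by linarith⟩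
  let μ : Measure E3 := volume
  have hgc : Continuous g := hg.continuous
  have hgl : LocallyIntegrable g μ := hgc.locallyIntegrable
  let h : E3 → ℝ := (φ.normed μ ⋆[ContinuousLinearMap.lsmul ℝ ℝ, μ] g)
  have hdef : ∀ x, h x = ∫ t, φ.normed μ t * g (x - t) ∂μ := by
    intro x
    show (φ.normed μ ⋆[ContinuousLinearMap.lsmul ℝ ℝ, μ] g) x = _
    rw [convolution_lsmul]
    simp [smul_eq_mul]
  have hφc : Continuous (φ.normed μ) := φ.continuous_normed
  have hφs : HasCompactSupport (φ.normed μ) := φ.hasCompactSupport_normed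
  have hint : ∀ x, Integrable (fun t => φ.normed μ t * g (x - t)) μ := by
    intro x
    exact (hφc.mul (hgc.comp (continuous_const.sub continuous_id))).integrable_of_hasCompactSupport
      hφs.mul_right
  have hφint : Integrable (φ.normed μ) μ := hφc.integrable_of_hasCompactSupport hφs
  refine ⟨h, ?_, ?_, ?_⟩
  · exact hφs.contDiff_convolution_left _ φ.contDiff_normed hgl
  · refine LipschitzWith.of_dist_le_mul fun x y => ?_
    rw [NNReal.coe_one, one_mul, Real.dist_eq, hdef, hdef, ← integral_sub (hint x) (hint y)]
    calc |∫ t, (φ.normed μ t * g (x - t) - φ.normed μ t * g (y - t)) ∂μ|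
        ≤ ∫ t, |φ.normed μ t * g (x - t) - φ.normed μ t * g (y - t)| ∂μ :=
          abs_integral_le_integral_abs
      _ ≤ ∫ t, φ.normed μ t * dist x y ∂μ := by
          refine integral_mono ((hint x).sub (hint y)).abs (hφint.mul_const _) fun t => ?_
          show |φ.normed μ t * g (x - t) - φ.normed μ t * g (y - t)| ≤ φ.normed μ t * dist x y
          rw [← mul_sub, abs_mul, abs_of_nonneg (φ.nonneg_normed t)]
          refine mul_le_mul_of_nonneg_left ?_ (φ.nonneg_normed t)
          have := hg.dist_le_mul (x - t) (y - t)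
          rw [NNReal.coe_one, one_mul, Real.dist_eq, dist_sub_right] at this
          exact this
      _ = dist x y := by
          rw [integral_mul_const, φ.integral_normed, one_mul]
  · intro x
    have := φ.dist_normed_convolution_le (μ := μ) (g := g) (x₀ := x) (ε := ε)
      hgc.aestronglyMeasurable ?_
    · rwa [Real.dist_eq] at this
    · intro y hy
      have h1 := hg.dist_le_mul y x
      rw [NNReal.coe_one, one_mul] at h1
      exact h1.trans (le_of_lt hy)

end Pool.Agent.H7R3.Mag
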