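import Mathlib
import Pool.Agent.H7R3.Mag.MA

set_option autoImplicit false

open MeasureTheory Filter Topology Set Metric
open scoped ENNReal NNReal ContDiff

namespace Pool.Agent.H7R3.Mag

/-- volume of the unit ball -/
noncomputable def v1 : ℝ := (volume : Measure E3).real (ball 0 1)

lemma v1_pos : 0 < v1 := by
  unfold v1
  rw [measureReal_def]
  exact ENNReal.toReal_pos (measure_ball_pos _ _ one_pos).ne' measure_ball_lt_top.ne

lemma vol_ball (x : E3) {r : ℝ} (hr : 0 ≤ r) : (volume : Measure E3).real (ball x r) = r ^ 3 * v1 := by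
  unfold v1
  rw [measureReal_def, measureReal_def, Measure.addHaar_ball _ _ hr, ENNReal.toReal_mul,
    ENNReal.toReal_ofReal (by positivity), finrank_euclideanSpace_fin]

/-- `∫ (1+|x|)^{-4} dx` -/
noncomputable def I4 : ℝ := ∫ x : E3, ((1 + ‖x‖) ^ 4)⁻¹

lemma integrable_I4 : Integrable (fun x : E3 => ((1 + ‖x‖) ^ 4)⁻¹) := by
  have h := integrable_one_add_norm (E := E3) (μ := volume) (r := 4)
    (by rw [finrank_euclideanSpace_fin]; norm_num)
  refine h.congr (ae_of_all _ fun x => ?_)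
  show (1 + ‖x‖) ^ (-(4:ℝ)) = _
  rw [Real.rpow_neg (by positivity)]
  norm_cast

lemma I4_nonneg : 0 ≤ I4 := integral_nonneg fun x => by positivity

lemma ker_eq {t : ℝ} (ht : 0 < t) (y x : E3) :
    16 * ((‖x - y‖ / 4 + t) ^ 4)⁻¹
      = 16 * (t ^ 4)⁻¹ * ((1 + ‖(4 * t)⁻¹ • (x - y)‖) ^ 4)⁻¹ := by
  rw [norm_smul, Real.norm_of_nonneg (by positivity)]
  have : ‖x - y‖ / 4 + t = t * (1 + (4 * t)⁻¹ * ‖x - y‖) := by field_simp; ring
  rw [this, mul_pow, mul_inv]
  ring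

lemma ker_int {t : ℝ} (ht : 0 < t) (y : E3) :
    ∫⁻ x : E3, ENNReal.ofReal (16 * ((‖x - y‖ / 4 + t) ^ 4)⁻¹)
      = ENNReal.ofReal (1024 * I4 / t) := by
  have h1 : Integrable (fun x : E3 => 16 * (t ^ 4)⁻¹ * ((1 + ‖(4 * t)⁻¹ • (x - y)‖) ^ 4)⁻¹) := by
    have h2 := (integrable_I4.comp_smul (R := (4 * t)⁻¹) (by positivity)).comp_sub_right y
    exact h2.const_mul _
  simp only [ker_eq ht]
  rw [← ofReal_integral_eq_lintegral_ofReal h1 (ae_of_all _ fun x => by positivity)]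
  congr 1
  rw [integral_const_mul]
  have h3 := integral_sub_right_eq_self (μ := (volume : Measure E3))
    (fun x : E3 => ((1 + ‖(4 * t)⁻¹ • x‖) ^ 4)⁻¹) y
  rw [h3]
  have h4 := Measure.integral_comp_smul (volume : Measure E3)
    (fun x : E3 => ((1 + ‖x‖) ^ 4)⁻¹) ((4 * t)⁻¹)
  rw [h4, finrank_euclideanSpace_fin, abs_of_pos (by positivity), smul_eq_mul]
  show 16 * (t ^ 4)⁻¹ * ((((4 * t)⁻¹) ^ 3)⁻¹ * I4) = _
  field_simp
  ring

/-! ### The good radius -/

section scale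

variable (b : E3 → ℝ) (δ L : ℝ)

/-- local `L^{3/2}` mass -/
noncomputable def mm (x : E3) (r : ℝ) : ℝ := ∫ y in ball x r, b y ^ ((3:ℝ)/2)

/-- admissible radii -/
def RS (x : E3) : Set ℝ := {r | 0 ≤ r ∧ r ≤ L ∧ mm b x r ≤ δ}

/-- the good radius -/
noncomputable def RR (x : E3) : ℝ := sSup (RS b δ L x)

variable {b} {δ} {L}

lemma beta_cont (hb : Continuous b) : Continuous fun y => b y ^ ((3:ℝ)/2) :=
  hb.rpow_const fun _ => Or.inr (by norm_num)

lemma beta_supp (hs : HasCompactSupport b) : HasCompactSupport fun y => b y ^ ((3:ℝ)/2) :=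
  hs.comp_left (g := fun t : ℝ => t ^ ((3:ℝ)/2)) (Real.zero_rpow (by norm_num))

lemma beta_int (hb : Continuous b) (hs : HasCompactSupport b) :
    Integrable fun y => b y ^ ((3:ℝ)/2) :=
  (beta_cont hb).integrable_of_hasCompactSupport (beta_supp hs)

lemma mm_mono (hb : Continuous b) (hs : HasCompactSupport b) (h0 : ∀ x, 0 ≤ b x) {x y : E3}
    {r s : ℝ} (h : ball x r ⊆ ball y s) : mm b x r ≤ mm b y s := by
  unfold mm
  refine setIntegral_mono_set (beta_int hb hs).integrableOn ?_ h.eventuallyLE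
  exact ae_of_all _ fun z => Real.rpow_nonneg (h0 z) _

lemma mm_nonneg (h0 : ∀ x, 0 ≤ b x) (x : E3) (r : ℝ) : 0 ≤ mm b x r :=
  integral_nonneg fun z => Real.rpow_nonneg (h0 z) _

lemma RS_bdd (x : E3) : BddAbove (RS b δ L x) := ⟨L, fun _ hr => hr.2.1⟩

lemma zero_mem (hδ : 0 < δ) (hL : 0 < L) (x : E3) : (0:ℝ) ∈ RS b δ L x := by
  refine ⟨le_rfl, hL.le, ?_⟩
  unfold mm
  simp [hδ.le]

lemma RR_nonneg (hδ : 0 < δ) (hL : 0 < L) (x : E3) : 0 ≤ RR b δ L x :=
  le_csSup (RS_bdd x) (zero_mem hδ hL x)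

lemma RR_le (hδ : 0 < δ) (hL : 0 < L) (x : E3) : RR b δ L x ≤ L :=
  csSup_le ⟨0, zero_mem hδ hL x⟩ fun _ hr => hr.2.1

lemma mm_le_of_lt (hb : Continuous b) (hs : HasCompactSupport b) (h0 : ∀ x, 0 ≤ b x)
    (hδ : 0 < δ) (hL : 0 < L) {x : E3} {r : ℝ} (hr : r < RR b δ L x) : mm b x r ≤ δ := by
  obtain ⟨s, hs1, hs2⟩ := exists_lt_of_lt_csSup ⟨0, zero_mem hδ hL x⟩ hr
  exact (mm_mono hb hs h0 (ball_subset_ball hs2.le)).trans hs1.2.2

lemma lt_mm_of_lt {x : E3} {r : ℝ} (hr0 : 0 ≤ r) (hrL : r ≤ L) (hr : RR b δ L x < r) :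
    δ < mm b x r := by
  by_contra hcon
  have : r ≤ RR b δ L x := le_csSup (RS_bdd x) ⟨hr0, hrL, not_lt.mp hcon⟩
  linarith

lemma RR_sub_le (hb : Continuous b) (hs : HasCompactSupport b) (h0 : ∀ x, 0 ≤ b x)
    (hδ : 0 < δ) (hL : 0 < L) (x y : E3) : RR b δ L y - dist x y ≤ RR b δ L x := by
  rw [sub_le_iff_le_add]
  refine csSup_le ⟨0, zero_mem hδ hL y⟩ fun r hr => ?_
  by_cases h : r ≤ dist x y
  · have := RR_nonneg (b := b) hδ hL x
    linarith
  · have h1 : r - dist x y ≤ RR b δ L x := by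
      refine le_csSup (RS_bdd x) ⟨by linarith, by linarith [hr.2.1, dist_nonneg (x := x) (y := y)],
        ?_⟩
      refine (mm_mono hb hs h0 ?_).trans hr.2.2
      refine ball_subset_ball' ?_
      linarith
    linarith

lemma RR_lip (hb : Continuous b) (hs : HasCompactSupport b) (h0 : ∀ x, 0 ≤ b x)
    (hδ : 0 < δ) (hL : 0 < L) : LipschitzWith 1 (RR b δ L) := by
  refine LipschitzWith.of_dist_le_mul fun x y => ?_
  rw [NNReal.coe_one, one_mul, Real.dist_eq, abs_le]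
  have h1 := RR_sub_le hb hs h0 hδ hL x y
  have h2 := RR_sub_le hb hs h0 hδ hL y x
  rw [dist_comm] at h2
  constructor <;> linarith

lemma RR_lower (hb : Continuous b) (hs : HasCompactSupport b) (h0 : ∀ x, 0 ≤ b x)
    (hδ : 0 < δ) (hL : 0 < L) : ∃ r0 : ℝ, 0 < r0 ∧ ∀ x, r0 ≤ RR b δ L x := by
  obtain ⟨M, hM⟩ := (beta_cont hb).bounded_above_of_compact_support (beta_supp hs)
  have hM' : ∀ y, b y ^ ((3:ℝ)/2) ≤ |M| + 1 := fun y => by
    have h1 := hM y
    rw [Real.norm_of_nonneg (Real.rpow_nonneg (h0 y) _)] at h1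
    linarith [le_abs_self M]
  have hv := v1_pos
  have hMp : 0 < |M| + 1 := by positivity
  let r0 : ℝ := min (min L 1) (δ / ((|M| + 1) * v1))
  have hr0 : 0 < r0 := lt_min (lt_min hL one_pos) (by positivity)
  have hr1 : r0 ≤ 1 := (min_le_left _ _).trans (min_le_right _ _)
  have hrL : r0 ≤ L := (min_le_left _ _).trans (min_le_left _ _)
  refine ⟨r0, hr0, fun x => le_csSup (RS_bdd x) ⟨hr0.le, hrL, ?_⟩⟩
  calc mm b x r0 ≤ ∫ y in ball x r0, (|M| + 1) := by
        unfold mm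
        refine setIntegral_mono (beta_int hb hs).integrableOn
          (integrableOn_const (by exact measure_ball_lt_top.ne)) fun y => hM' y
    _ = (r0 ^ 3 * v1) * (|M| + 1) := by
        rw [setIntegral_const, vol_ball x hr0.le, smul_eq_mul]
    _ ≤ (r0 * v1) * (|M| + 1) := by
        have : r0 ^ 3 ≤ r0 := by
          have h1 : r0 ^ 2 ≤ 1 := by nlinarith
          nlinarith
        gcongr
    _ ≤ (δ / ((|M| + 1) * v1) * v1) * (|M| + 1) := by
        have : r0 ≤ δ / ((|M| + 1) * v1) := min_le_right _ _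
        gcongr
    _ = δ := by field_simp

end scale

end Pool.Agent.H7R3.Mag
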