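import Mathlib
import Pool.Agent.H7R3.Mag.MB

set_option autoImplicit false

open MeasureTheory Filter Topology Set Metric
open scoped ENNReal NNReal ContDiff

namespace Pool.Agent.H7R3.Mag

/-- the threshold constant: `c^{3/2} = δ / (128 v1)` -/
noncomputable def cth (δ : ℝ) : ℝ := (δ / (128 * v1)) ^ ((2:ℝ)/3)

lemma cth_pos {δ : ℝ} (hδ : 0 < δ) : 0 < cth δ := by
  have := v1_pos
  exact Real.rpow_pos_of_pos (by positivity) _

lemma cth_pow {δ : ℝ} (hδ : 0 < δ) : cth δ ^ ((3:ℝ)/2) = δ / (128 * v1) := by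
  have := v1_pos
  unfold cth
  rw [← Real.rpow_mul (by positivity)]
  norm_num

/-- the constant in the cost bound -/
noncomputable def Ccost (δ : ℝ) : ℝ := 2048 * I4 / (δ * √(cth δ))

lemma Ccost_nonneg {δ : ℝ} (hδ : 0 < δ) : 0 ≤ Ccost δ := by
  have := I4_nonneg
  unfold Ccost
  positivity

/-- pointwise lower bound of the local mass -/
lemma local_mass {b : E3 → ℝ} (hb : Continuous b) (hs : HasCompactSupport b) (h0 : ∀ x, 0 ≤ b x)
    {δ : ℝ} (hδ : 0 < δ) {x : E3} {ρ : ℝ} (hρ : 0 < ρ) (hm : δ < mm b x (4 * ρ)) :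
    ENNReal.ofReal ((ρ ^ 4)⁻¹ * (δ / 2)) ≤
      ∫⁻ y : E3, ENNReal.ofReal (b y ^ ((3:ℝ)/2)) *
        ENNReal.ofReal (16 * ((‖x - y‖ / 4 + √(cth δ / b y)) ^ 4)⁻¹) := by
  have hv := v1_pos
  have hc := cth_pos hδ
  set c := cth δ with hcdef
  let T : Set E3 := {y | c / ρ ^ 2 < b y}
  have hTm : MeasurableSet T := measurableSet_lt measurable_const hb.measurable
  have hβ := beta_int hb hs
  have hBfin : (volume : Measure E3) (ball x (4 * ρ)) ≠ ⊤ := measure_ball_lt_top.ne
  -- split the mass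
  have h1 : ∫ y in ball x (4 * ρ), b y ^ ((3:ℝ)/2)
      ≤ (∫ y in ball x (4 * ρ), T.indicator (fun y => b y ^ ((3:ℝ)/2)) y)
        + ∫ y in ball x (4 * ρ), c ^ ((3:ℝ)/2) / ρ ^ 3 := by
    rw [← integral_add (hβ.indicator hTm).integrableOn (integrableOn_const hBfin)]
    refine setIntegral_mono hβ.integrableOn
      ((hβ.indicator hTm).integrableOn.add (integrableOn_const hBfin)) fun y => ?_
    show b y ^ ((3:ℝ)/2) ≤ T.indicator (fun y => b y ^ ((3:ℝ)/2)) y + c ^ ((3:ℝ)/2) / ρ ^ 3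
    by_cases hy : y ∈ T
    · rw [indicator_of_mem hy]
      have : 0 ≤ c ^ ((3:ℝ)/2) / ρ ^ 3 := by positivity
      linarith
    · rw [indicator_of_notMem hy, zero_add]
      have h2 : b y ≤ c / ρ ^ 2 := not_lt.mp hy
      have h3 := Real.rpow_le_rpow (h0 y) h2 (by norm_num : (0:ℝ) ≤ 3 / 2)
      refine h3.trans (le_of_eq ?_)
      rw [Real.div_rpow hc.le (by positivity)]
      congr 1
      rw [← Real.rpow_natCast, ← Real.rpow_mul hρ.le, ← Real.rpow_natCast]
      norm_num
  have h2 : ∫ y in ball x (4 * ρ), c ^ ((3:ℝ)/2) / ρ ^ 3 = δ / 2 := by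
    rw [setIntegral_const, vol_ball x (by positivity), smul_eq_mul, hcdef, cth_pow hδ]
    field_simp
    norm_num
  have h3 : δ / 2 ≤ ∫ y in ball x (4 * ρ), T.indicator (fun y => b y ^ ((3:ℝ)/2)) y := by
    unfold mm at hm
    linarith
  have h4 : ENNReal.ofReal (δ / 2) ≤
      ∫⁻ y in ball x (4 * ρ), ENNReal.ofReal (T.indicator (fun y => b y ^ ((3:ℝ)/2)) y) := by
    rw [← ofReal_integral_eq_lintegral_ofReal (hβ.indicator hTm).integrableOn]
    · exact ENNReal.ofReal_le_ofReal h3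
    · refine ae_of_all _ fun y => ?_
      exact indicator_nonneg (fun z _ => Real.rpow_nonneg (h0 z) _) y
  have hρ4 : 0 ≤ (ρ ^ 4)⁻¹ := by positivity
  rw [ENNReal.ofReal_mul hρ4]
  calc ENNReal.ofReal (ρ ^ 4)⁻¹ * ENNReal.ofReal (δ / 2)
      ≤ ENNReal.ofReal (ρ ^ 4)⁻¹ *
        ∫⁻ y in ball x (4 * ρ), ENNReal.ofReal (T.indicator (fun y => b y ^ ((3:ℝ)/2)) y) := by
        gcongr
    _ = ∫⁻ y in ball x (4 * ρ), ENNReal.ofReal (ρ ^ 4)⁻¹ *
          ENNReal.ofReal (T.indicator (fun y => b y ^ ((3:ℝ)/2)) y) := by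
        rw [lintegral_const_mul' _ _ ENNReal.ofReal_ne_top]
    _ ≤ ∫⁻ y in ball x (4 * ρ), ENNReal.ofReal (b y ^ ((3:ℝ)/2)) *
        ENNReal.ofReal (16 * ((‖x - y‖ / 4 + √(c / b y)) ^ 4)⁻¹) := by
        refine setLIntegral_mono' measurableSet_ball fun y hy => ?_
        by_cases hyT : y ∈ T
        · rw [indicator_of_mem hyT, mul_comm]
          gcongr
          have hyT' : c / ρ ^ 2 < b y := hyT
          have hby : 0 < b y := lt_trans (by positivity) hyT'
          have h5 : √(c / b y) ≤ ρ := by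
            rw [Real.sqrt_le_left hρ.le, div_le_iff₀ hby]
            rw [div_lt_iff₀ (by positivity)] at hyT'
            linarith
          have h6 : ‖x - y‖ / 4 ≤ ρ := by
            have : dist y x < 4 * ρ := hy
            rw [dist_comm, dist_eq_norm] at this
            linarith
          have h7 : 0 < √(c / b y) := Real.sqrt_pos.mpr (by positivity)
          have h8 : ‖x - y‖ / 4 + √(c / b y) ≤ 2 * ρ := by linarith
          have h9 : (‖x - y‖ / 4 + √(c / b y)) ^ 4 ≤ (2 * ρ) ^ 4 := by gcongr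
          have h10 : ((2 * ρ) ^ 4)⁻¹ ≤ ((‖x - y‖ / 4 + √(c / b y)) ^ 4)⁻¹ := by gcongr
          calc (ρ ^ 4)⁻¹ = 16 * ((2 * ρ) ^ 4)⁻¹ := by rw [mul_pow, mul_inv]; norm_num; ring
            _ ≤ _ := by gcongr
        · rw [indicator_of_notMem hyT]
          simp
    _ ≤ _ := setLIntegral_le_lintegral _ _

/-- The cost bound. -/
lemma cost {b : E3 → ℝ} (hb : Continuous b) (hs : HasCompactSupport b) (h0 : ∀ x, 0 ≤ b x)
    {δ : ℝ} (hδ : 0 < δ) (ρ s : E3 → ℝ) (hρc : Continuous ρ) (hρ : ∀ x, 0 < ρ x)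
    (hsc : Continuous s) (hss : HasCompactSupport s) (hs0 : ∀ x, 0 ≤ s x) (hs1 : ∀ x, s x ≤ 1)
    (hm : ∀ x, s x ≠ 0 → δ < mm b x (4 * ρ x)) :
    ∫ x, s x * (ρ x ^ 4)⁻¹ ≤ Ccost δ * ∫ x, b x ^ 2 := by
  have hv := v1_pos
  have hc := cth_pos hδ
  set c := cth δ with hcdef
  have hcont : Continuous fun x => s x * (ρ x ^ 4)⁻¹ :=
    hsc.mul ((hρc.pow 4).inv₀ fun x => (pow_pos (hρ x) 4).ne')
  have hint : Integrable fun x => s x * (ρ x ^ 4)⁻¹ :=
    hcont.integrable_of_hasCompactSupport hss.mul_right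
  have hb2 : HasCompactSupport fun x => b x ^ 2 := by
    have h1 : HasCompactSupport (fun x => b x * b x) := hs.mul_left
    simpa only [pow_two] using h1
  have hbint : Integrable fun x => b x ^ 2 :=
    (hb.pow 2).integrable_of_hasCompactSupport hb2
  have hbm : Measurable b := hb.measurable
  let G : E3 → E3 → ℝ≥0∞ := fun x y => ENNReal.ofReal (b y ^ ((3:ℝ)/2)) *
        ENNReal.ofReal (16 * ((‖x - y‖ / 4 + √(c / b y)) ^ 4)⁻¹)
  have hGm : Measurable (Function.uncurry G) := by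
    have h1 : Measurable (fun p : E3 × E3 => b p.2) := hbm.comp measurable_snd
    show Measurable (fun p : E3 × E3 => ENNReal.ofReal (b p.2 ^ ((3:ℝ)/2)) *
        ENNReal.ofReal (16 * ((‖p.1 - p.2‖ / 4 + √(c / b p.2)) ^ 4)⁻¹))
    fun_prop
  have key : ∫⁻ x, ENNReal.ofReal (s x * (ρ x ^ 4)⁻¹ * (δ / 2)) ≤
      ∫⁻ y, ENNReal.ofReal (1024 * I4 / √c * b y ^ 2) := by
    calc ∫⁻ x, ENNReal.ofReal (s x * (ρ x ^ 4)⁻¹ * (δ / 2)) ≤ ∫⁻ x, ∫⁻ y, G x y := by
          refine lintegral_mono fun x => ?_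
          by_cases hx : s x = 0
          · simp [hx]
          · refine le_trans ?_ (local_mass hb hs h0 hδ (hρ x) (hm x hx))
            refine ENNReal.ofReal_le_ofReal ?_
            have h1 : 0 ≤ (ρ x ^ 4)⁻¹ * (δ / 2) := by have := hρ x; positivity
            calc s x * (ρ x ^ 4)⁻¹ * (δ / 2) = s x * ((ρ x ^ 4)⁻¹ * (δ / 2)) := by ring
              _ ≤ 1 * ((ρ x ^ 4)⁻¹ * (δ / 2)) := by gcongr; exact hs1 x
              _ = _ := one_mul _
      _ = ∫⁻ y, ∫⁻ x, G x y := lintegral_lintegral_swap hGm.aemeasurable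
      _ = ∫⁻ y, ENNReal.ofReal (1024 * I4 / √c * b y ^ 2) := by
          refine lintegral_congr fun y => ?_
          rcases (h0 y).eq_or_lt with hy | hy
          · simp only [G, ← hy]
            simp
          · have ht : 0 < √(c / b y) := Real.sqrt_pos.mpr (by positivity)
            simp only [G]
            rw [lintegral_const_mul' _ _ ENNReal.ofReal_ne_top, ker_int ht,
              ← ENNReal.ofReal_mul (Real.rpow_nonneg hy.le _)]
            congr 1
            have h3 : b y ^ ((3:ℝ)/2) = b y * √(b y) := by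
              rw [Real.sqrt_eq_rpow, ← Real.rpow_one_add' hy.le (by norm_num)]
              norm_num
            have hsb : 0 < √(b y) := Real.sqrt_pos.mpr hy
            have hsc' : 0 < √c := Real.sqrt_pos.mpr hc
            rw [Real.sqrt_div hc.le, h3]
            field_simp
            rw [Real.sq_sqrt hy.le]
  rw [← ofReal_integral_eq_lintegral_ofReal (hint.mul_const _) (ae_of_all _ fun x => by
      have := hρ x; have := hs0 x; positivity),
    ← ofReal_integral_eq_lintegral_ofReal (hbint.const_mul _) (ae_of_all _ fun x => by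
      have := I4_nonneg; positivity),
    integral_mul_const, integral_const_mul] at key
  have hnn : 0 ≤ 1024 * I4 / √c * ∫ x, b x ^ 2 := by
    have := I4_nonneg
    have : 0 ≤ ∫ x, b x ^ 2 := integral_nonneg fun x => by positivity
    positivity
  rw [ENNReal.ofReal_le_ofReal_iff hnn] at key
  have h5 : Ccost δ * ∫ x, b x ^ 2 = (1024 * I4 / √c * ∫ x, b x ^ 2) / (δ / 2) := by
    unfold Ccost
    rw [← hcdef]
    have hsc' : 0 < √c := Real.sqrt_pos.mpr hc
    field_simp
    ring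
  rw [h5, le_div_iff₀ (by positivity)]
  exact key

/-- **The scale function.** -/
theorem exists_scale {b : E3 → ℝ} (hb : Continuous b) (hs : HasCompactSupport b)
    (h0 : ∀ x, 0 ≤ b x) {δ : ℝ} (hδ : 0 < δ) {L : ℝ} (hL : 0 < L) :
    ∃ ρ s : E3 → ℝ, ContDiff ℝ ∞ ρ ∧ LipschitzWith 1 ρ ∧ (∀ x, 0 < ρ x) ∧ (∀ x, ρ x ≤ 2 * L) ∧
      Continuous s ∧ HasCompactSupport s ∧ (∀ x, 0 ≤ s x) ∧ (∀ x, s x ≤ 1) ∧
      (∀ x, (1 - s x) * (ρ x)⁻¹ ≤ 4 / L) ∧
      (∀ x, mm b x (ρ x / 4) ≤ δ) ∧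
      ∫ x, s x * (ρ x ^ 4)⁻¹ ≤ Ccost δ * ∫ x, b x ^ 2 := by
  obtain ⟨r0, hr0, hR0⟩ := RR_lower hb hs h0 hδ hL
  have hlip := RR_lip hb hs h0 hδ hL
  obtain ⟨ρ, hρd, hρl, hρR⟩ := exists_smooth_lip (RR b δ L) hlip (half_pos hr0)
  set R := RR b δ L with hR
  have hRL : ∀ x, R x ≤ L := RR_le hδ hL
  have hRp : ∀ x, 0 < R x := fun x => hr0.trans_le (hR0 x)
  have hlow : ∀ x, R x / 2 ≤ ρ x := fun x => by
    have := abs_le.mp (hρR x); linarith [hR0 x, this.1]
  have hup : ∀ x, ρ x ≤ 3 / 2 * R x := fun x => by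
    have := abs_le.mp (hρR x); linarith [hR0 x, this.2]
  have hρp : ∀ x, 0 < ρ x := fun x => by linarith [hlow x, hRp x]
  let s : E3 → ℝ := fun x => min 1 (max 0 (2 - 2 * R x / L))
  have hsc : Continuous s := by
    have := hlip.continuous
    fun_prop
  have hs0 : ∀ x, 0 ≤ s x := fun x => le_min zero_le_one (le_max_left _ _)
  have hs1 : ∀ x, s x ≤ 1 := fun x => min_le_left _ _
  have hsne : ∀ x, s x ≠ 0 → R x < L := by
    intro x hx
    by_contra hcon
    apply hx
    have h1 : R x = L := le_antisymm (hRL x) (not_lt.mp hcon)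
    show min 1 (max 0 (2 - 2 * R x / L)) = 0
    rw [h1, mul_div_assoc, div_self hL.ne']
    norm_num
  have hss : HasCompactSupport s := by
    obtain ⟨K, hK⟩ := hs.isCompact.isBounded.subset_closedBall (0:E3)
    refine HasCompactSupport.of_support_subset_isCompact (isCompact_closedBall (0:E3) (K + L)) ?_
    intro x hx
    have hx' := hsne x hx
    by_contra hcon
    have hfar : K + L < dist x 0 := by simpa using hcon
    have h2 : δ < mm b x L := lt_mm_of_lt hL.le le_rfl hx'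
    have h3 : mm b x L = 0 := by
      unfold mm
      refine setIntegral_eq_zero_of_forall_eq_zero fun y hy => ?_
      have hy' : y ∉ tsupport b := by
        intro hyb
        have h4 := hK hyb
        have h5 : dist x 0 ≤ dist x y + dist y 0 := dist_triangle _ _ _
        have h6 : dist y x < L := hy
        rw [dist_comm] at h6
        have h7 : dist y 0 ≤ K := h4
        linarith
      have h8 : b y = 0 := image_eq_zero_of_notMem_tsupport hy'
      rw [h8, Real.zero_rpow (by norm_num)]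
    linarith
  refine ⟨ρ, s, hρd, hρl, hρp, fun x => by linarith [hup x, hRL x], hsc, hss, hs0, hs1, ?_, ?_, ?_⟩
  · intro x
    have hρx := hρp x
    by_cases h1 : s x = 1
    · rw [h1]; simp; positivity
    · have h2 : L / 2 ≤ R x := by
        by_contra hcon
        apply h1
        have h3 : R x < L / 2 := not_le.mp hcon
        show min 1 (max 0 (2 - 2 * R x / L)) = 1
        have h4 : 2 * R x / L ≤ 1 := by rw [div_le_one hL]; linarith
        rw [min_eq_left]
        exact le_max_of_le_right (by linarith)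
      have h3 : L / 4 ≤ ρ x := by linarith [hlow x]
      have h4 : (ρ x)⁻¹ ≤ 4 / L := by
        rw [inv_le_comm₀ hρx (by positivity)]
        rw [inv_div]
        exact h3
      have h5 := hs0 x
      calc (1 - s x) * (ρ x)⁻¹ ≤ 1 * (ρ x)⁻¹ := by gcongr; linarith
        _ ≤ _ := by rw [one_mul]; exact h4
  · intro x
    refine mm_le_of_lt hb hs h0 hδ hL ?_
    have := hup x
    have := hRp x
    show ρ x / 4 < R x
    linarith
  · refine cost hb hs h0 hδ ρ s hρd.continuous hρp hsc hss hs0 hs1 ?_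
    intro x hx
    have h1 := hsne x hx
    have hRx := hRp x
    have h2 : R x < min L (2 * R x) := lt_min h1 (by linarith)
    have h3 : δ < mm b x (min L (2 * R x)) :=
      lt_mm_of_lt (le_min hL.le (by linarith)) (min_le_left _ _) h2
    refine h3.trans_le (mm_mono hb hs h0 (ball_subset_ball ?_))
    have := hlow x
    exact (min_le_right _ _).trans (by linarith)

end Pool.Agent.H7R3.Mag
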