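import Mathlib
import Pool.Agent.Helper149.Hardy
import Pool.Agent.Helper149.Sobolev
import Pool.Agent.Helper149.Fatou
import Pool.Agent.H7R3.Mag.MA

set_option autoImplicit false

open MeasureTheory Filter Topology Set Metric
open scoped ENNReal NNReal ContDiff

namespace Pool.Agent.H7R3.Mag

/-- unit vectors -/
noncomputable abbrev ee (k : Fin 3) : E3 := EuclideanSpace.single k (1 : ℝ)

/-- the covariant derivative `π_k f = -i ∂_k f + A_k f` -/
noncomputable def cov (A : E3 → E3) (k : Fin 3) (f : E3 → ℂ) (x : E3) : ℂ :=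
  (-Complex.I) * fderiv ℝ f x (ee k) + ((A x k : ℝ) : ℂ) * f x

/-- `∑_k |π_k f|²` -/
noncomputable def dsq (A : E3 → E3) (f : E3 → ℂ) (x : E3) : ℝ := ∑ k, ‖cov A k f x‖ ^ 2

lemma dsq_nonneg (A : E3 → E3) (f : E3 → ℂ) (x : E3) : 0 ≤ dsq A f x :=
  Finset.sum_nonneg fun _ _ => by positivity

lemma vec_eq_sum (v : E3) : v = ∑ k, v k • ee k := by
  ext i
  simp [ee, Finset.sum_apply, Pi.single_apply]

lemma norm_sq_eq (v : E3) : ‖v‖ ^ 2 = ∑ k, v k ^ 2 := by
  rw [EuclideanSpace.norm_sq_eq]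
  simp

lemma sum_sq_le (l : E3 →L[ℝ] ℝ) : ∑ k, (l (ee k)) ^ 2 ≤ ‖l‖ ^ 2 := by
  let v : E3 := ∑ k, l (ee k) • ee k
  have hv : ∀ k, v k = l (ee k) := by
    intro k
    simp [v, ee, Finset.sum_apply, Pi.single_apply]
  have h1 : l v = ∑ k, (l (ee k)) ^ 2 := by
    simp only [v, map_sum, map_smul, smul_eq_mul]
    exact Finset.sum_congr rfl fun k _ => by ring
  have h2 : ‖v‖ ^ 2 = ∑ k, (l (ee k)) ^ 2 := by
    rw [norm_sq_eq]; simp only [hv]
  have h3 : l v ≤ ‖l‖ * ‖v‖ := (le_abs_self _).trans (l.le_opNorm v)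
  rw [← h2] at h1 ⊢
  rw [h1] at h3
  by_cases h0 : ‖v‖ = 0
  · rw [h0]; simp
  · have hpos : 0 < ‖v‖ := lt_of_le_of_ne (norm_nonneg _) (Ne.symm h0)
    have : ‖v‖ ≤ ‖l‖ := by
      have : ‖v‖ * ‖v‖ ≤ ‖l‖ * ‖v‖ := by nlinarith
      exact le_of_mul_le_mul_right this hpos
    gcongr

lemma cov_eq (A : E3 → E3) (k : Fin 3) (f : E3 → ℂ) (x : E3) :
    fderiv ℝ f x (ee k) = Complex.I * cov A k f x - Complex.I * ((A x k : ℝ) : ℂ) * f x := by
  unfold cov
  ring_nf
  simp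

/-- derivative of `|f|²` -/
lemma fderiv_normSq {A : E3 → E3} {f : E3 → ℂ} {x : E3} (hf : DifferentiableAt ℝ f x) :
    HasFDerivAt (fun y => ‖f y‖ ^ 2) (fderiv ℝ (fun y => ‖f y‖ ^ 2) x) x ∧
    ‖fderiv ℝ (fun y => ‖f y‖ ^ 2) x‖ ≤ 2 * (‖f x‖ * √(dsq A f x)) := by
  have h1 := hf.hasFDerivAt.norm_sq
  refine ⟨h1.differentiableAt.hasFDerivAt, ?_⟩
  refine ContinuousLinearMap.opNorm_le_bound _ (by positivity) fun v => ?_
  have h2 : fderiv ℝ (fun y => ‖f y‖ ^ 2) x v
      = 2 * ∑ k, v k * (Complex.I * ((starRingEnd ℂ) (f x) * cov A k f x)).re := by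
    have h3 : fderiv ℝ (fun y => ‖f y‖ ^ 2) x v = 2 * ((starRingEnd ℂ) (f x) * fderiv ℝ f x v).re := by
      rw [h1.fderiv]
      simp [Complex.inner, two_mul]
      ring
    rw [h3]
    congr 1
    have h4 : fderiv ℝ f x v = ∑ k, (v k : ℂ) * fderiv ℝ f x (ee k) := by
      conv_lhs => rw [vec_eq_sum v]
      rw [map_sum]
      refine Finset.sum_congr rfl fun k _ => ?_
      rw [map_smul, Complex.real_smul]
    rw [h4, Finset.mul_sum, Complex.re_sum]
    refine Finset.sum_congr rfl fun k _ => ?_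
    rw [cov_eq A]
    have h5 : (starRingEnd ℂ) (f x) * ((v k : ℂ) * (Complex.I * cov A k f x
        - Complex.I * ((A x k : ℝ) : ℂ) * f x))
        = ((v k : ℝ) : ℂ) * (Complex.I * ((starRingEnd ℂ) (f x) * cov A k f x))
          - ((v k * A x k : ℝ) : ℂ) * (Complex.I * ((starRingEnd ℂ) (f x) * f x)) := by
      push_cast; ring
    rw [h5, Complex.sub_re, Complex.re_ofReal_mul, Complex.re_ofReal_mul]
    have h6 : (Complex.I * ((starRingEnd ℂ) (f x) * f x)).re = 0 := by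
      rw [← Complex.normSq_eq_conj_mul_self]
      simp
    rw [h6]; ring
  rw [h2, Real.norm_eq_abs, abs_mul, abs_two]
  have h7 : |∑ k, v k * (Complex.I * ((starRingEnd ℂ) (f x) * cov A k f x)).re|
      ≤ ∑ k, |v k| * (‖f x‖ * ‖cov A k f x‖) := by
    refine (Finset.abs_sum_le_sum_abs _ _).trans (Finset.sum_le_sum fun k _ => ?_)
    rw [abs_mul]
    refine mul_le_mul_of_nonneg_left ?_ (abs_nonneg _)
    refine (Complex.abs_re_le_norm _).trans ?_
    simp
  have h8 : ∑ k, |v k| * (‖f x‖ * ‖cov A k f x‖) ≤ ‖f x‖ * √(dsq A f x) * ‖v‖ := by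
    have h9 := Finset.sum_mul_sq_le_sq_mul_sq Finset.univ (fun k => |v k|)
      (fun k => ‖cov A k f x‖)
    have h10 : ∑ k, |v k| * ‖cov A k f x‖ ≤ √(dsq A f x) * ‖v‖ := by
      refine abs_le_of_sq_le_sq' ?_ (by positivity) |>.2
      rw [mul_pow, Real.sq_sqrt (dsq_nonneg A f x), norm_sq_eq]
      simp only [sq_abs] at h9
      unfold dsq
      linarith
    calc ∑ k, |v k| * (‖f x‖ * ‖cov A k f x‖) = ‖f x‖ * ∑ k, |v k| * ‖cov A k f x‖ := by
          rw [Finset.mul_sum]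
          exact Finset.sum_congr rfl fun k _ => by ring
      _ ≤ ‖f x‖ * (√(dsq A f x) * ‖v‖) := mul_le_mul_of_nonneg_left h10 (norm_nonneg _)
      _ = _ := by ring
  calc 2 * |∑ k, v k * (Complex.I * ((starRingEnd ℂ) (f x) * cov A k f x)).re|
      ≤ 2 * (‖f x‖ * √(dsq A f x) * ‖v‖) := by linarith
    _ = _ := by ring

lemma continuous_cov {A : E3 → E3} (hA : Continuous A) {f : E3 → ℂ} (hf : ContDiff ℝ 1 f)
    (k : Fin 3) : Continuous (cov A k f) := by
  unfold cov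
  have h1 : Continuous fun x => fderiv ℝ f x (ee k) :=
    (hf.continuous_fderiv (by simp)).clm_apply continuous_const
  have h2 : Continuous fun x => ((A x k : ℝ) : ℂ) := by
    have : Continuous fun x => A x k := (EuclideanSpace.proj k).continuous.comp hA
    exact Complex.continuous_ofReal.comp this
  exact (continuous_const.mul h1).add (h2.mul hf.continuous)

lemma cov_support {A : E3 → E3} {f : E3 → ℂ} (k : Fin 3) {x : E3} (hx : x ∉ tsupport f) :
    cov A k f x = 0 := by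
  unfold cov
  rw [image_eq_zero_of_notMem_tsupport hx]
  have : fderiv ℝ f x = 0 := by
    have h2 : x ∉ tsupport (fderiv ℝ f) := fun h => hx (tsupport_fderiv_subset ℝ h)
    exact image_eq_zero_of_notMem_tsupport h2
  simp [this]

lemma compact_cov {A : E3 → E3} {f : E3 → ℂ} (hs : HasCompactSupport f) (k : Fin 3) :
    HasCompactSupport (cov A k f) := by
  refine HasCompactSupport.of_support_subset_isCompact hs.isCompact fun x hx => ?_
  by_contra h
  exact hx (cov_support k h)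

lemma continuous_dsq {A : E3 → E3} (hA : Continuous A) {f : E3 → ℂ} (hf : ContDiff ℝ 1 f) :
    Continuous (dsq A f) := by
  unfold dsq
  exact continuous_finsetSum _ fun k _ => (continuous_cov hA hf k).norm.pow 2

lemma compact_dsq {A : E3 → E3} {f : E3 → ℂ} (hs : HasCompactSupport f) :
    HasCompactSupport (dsq A f) := by
  refine HasCompactSupport.of_support_subset_isCompact hs.isCompact fun x hx => ?_
  by_contra h
  apply hx
  unfold dsq
  simp [cov_support _ h]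

/-- Hardy-type inequality. -/
theorem hardy {A : E3 → E3} (hA : Continuous A) {f : E3 → ℂ} (hf : ContDiff ℝ 1 f)
    (hs : HasCompactSupport f) :
    Integrable (fun x => ‖f x‖ ^ 2 / ‖x‖) ∧
    ∫ x, ‖f x‖ ^ 2 / ‖x‖ ≤ ∫ x, ‖f x‖ * √(dsq A f x) := by
  have hF : ContDiff ℝ 1 (fun x => ‖f x‖ ^ 2) := hf.norm_sq ℝ
  have hFs : HasCompactSupport (fun x => ‖f x‖ ^ 2) := by
    have := hs.norm
    have h1 : HasCompactSupport (fun x => ‖f x‖ * ‖f x‖) := this.mul_left
    simpa only [pow_two] using h1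
  have hint : Integrable (fun x => ‖f x‖ ^ 2) :=
    hF.continuous.integrable_of_hasCompactSupport hFs
  have hint' : Integrable fun x => ‖fderiv ℝ (fun x => ‖f x‖ ^ 2) x‖ :=
    ((hF.continuous_fderiv (by simp)).integrable_of_hasCompactSupport (hFs.fderiv ℝ)).norm
  have hRc : Continuous fun x => ‖f x‖ * √(dsq A f x) :=
    hf.continuous.norm.mul (continuous_dsq hA hf).sqrt
  have hRi : Integrable fun x => ‖f x‖ * √(dsq A f x) :=
    hRc.integrable_of_hasCompactSupport hs.norm.mul_right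
  have hle : ∫ x, ‖fderiv ℝ (fun x => ‖f x‖ ^ 2) x‖ ≤ 2 * ∫ x, ‖f x‖ * √(dsq A f x) := by
    rw [← integral_const_mul]
    refine integral_mono hint' (hRi.const_mul 2) fun x => ?_
    exact (fderiv_normSq ((hf.differentiable (by simp)) x)).2
  let δ : ℕ → ℝ := fun n => 1 / ((n:ℝ) + 1)
  have hδ : ∀ n, 0 < δ n := fun n => by positivity
  have hδlim : Tendsto δ atTop (𝓝 0) := tendsto_one_div_add_atTop_nhds_zero_nat
  have hn := fun n => Helper149.Hardy.hardyL1 (fun x => ‖f x‖ ^ 2) hF (fun x => by positivity)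
    hint hint' 0 (δ n) (hδ n)
  have hi := fun n => Helper149.Hardy.integrable_div_sqrt (hint.const_mul 2) 0 (δ n) (hδ n)
  have hfat := Helper149.Fatou.fatou_real (μ := (volume : Measure E3))
    (fun n x => 2 * ‖f x‖ ^ 2 / √(‖x - 0‖ ^ 2 + δ n ^ 2)) (fun x => 2 * ‖f x‖ ^ 2 / ‖x‖)
    (2 * ∫ x, ‖f x‖ * √(dsq A f x)) (fun n x => by positivity) hi
    (fun n => (hn n).trans hle) ?_
  · obtain ⟨h1, h2⟩ := hfat
    have h3 : Integrable fun x => ‖f x‖ ^ 2 / ‖x‖ := by
      refine (h1.const_mul (1/2)).congr (ae_of_all _ fun x => ?_)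
      show 1 / 2 * (2 * ‖f x‖ ^ 2 / ‖x‖) = _
      ring
    refine ⟨h3, ?_⟩
    have h4 : ∫ x, 2 * ‖f x‖ ^ 2 / ‖x‖ = 2 * ∫ x, ‖f x‖ ^ 2 / ‖x‖ := by
      rw [← integral_const_mul]
      exact integral_congr_ae (ae_of_all _ fun x => by ring)
    rw [h4] at h2
    linarith
  · have hne : ∀ᵐ x : E3, x ≠ 0 := by
      rw [ae_iff]
      simp
    filter_upwards [hne] with x hx
    have hx' : 0 < ‖x‖ := norm_pos_iff.mpr hx
    have h3 : Tendsto (fun n => ‖x - 0‖ ^ 2 + δ n ^ 2) atTop (𝓝 (‖x‖ ^ 2)) := by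
      simpa using (hδlim.pow 2).const_add (‖x‖ ^ 2)
    have h4 := (Real.continuous_sqrt.tendsto _).comp h3
    rw [Real.sqrt_sq hx'.le] at h4
    exact tendsto_const_nhds.div h4 hx'.ne'

end Pool.Agent.H7R3.Mag
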