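import Mathlib
import Pool.Agent.H7R3.Mag.MC
import Pool.Agent.H7R3.Mag.MD

set_option autoImplicit false

open MeasureTheory Filter Topology Set Metric
open scoped ENNReal NNReal ContDiff

namespace Pool.Agent.H7R3.Mag

/-- Magnetic Sobolev inequality. -/
theorem sobolev : ∃ S : ℝ, 0 ≤ S ∧ ∀ (A : E3 → E3) (f : E3 → ℂ), Continuous A → ContDiff ℝ 1 f →
    HasCompactSupport f → ∫ x, ‖f x‖ ^ 6 ≤ (S * ∫ x, dsq A f x) ^ 3 := by
  obtain ⟨K, hK0, hK⟩ := Helper149.Sobolev.sobolevL1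
  refine ⟨(4096 * K ^ 4) ^ ((1:ℝ)/3), by positivity, ?_⟩
  intro A f hA hf hs
  set Y := ∫ x, ‖f x‖ ^ 6 with hY
  set W := ∫ x, dsq A f x with hW
  have hW0 : 0 ≤ W := integral_nonneg fun x => dsq_nonneg A f x
  have hY0 : 0 ≤ Y := integral_nonneg fun x => by positivity
  have hF2 : ContDiff ℝ 1 (fun x => ‖f x‖ ^ 2) := hf.norm_sq ℝ
  have hF : ContDiff ℝ 1 (fun x => (‖f x‖ ^ 2) ^ 2) := hF2.pow 2
  have hpow : ∀ n : ℕ, n ≠ 0 → HasCompactSupport (fun x => ‖f x‖ ^ n) := by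
    intro n hn
    exact hs.comp_left (g := fun z : ℂ => ‖z‖ ^ n) (by simp [hn])
  have hFs : HasCompactSupport (fun x => (‖f x‖ ^ 2) ^ 2) := by
    have h := hpow 4 (by norm_num)
    have e : (fun x => (‖f x‖ ^ 2) ^ 2) = fun x => ‖f x‖ ^ 4 := by ext x; ring
    rw [e]; exact h
  have hint : Integrable (fun x => (‖f x‖ ^ 2) ^ 2) :=
    hF.continuous.integrable_of_hasCompactSupport hFs
  have hint' : Integrable fun x => ‖fderiv ℝ (fun x => (‖f x‖ ^ 2) ^ 2) x‖ :=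
    ((hF.continuous_fderiv (by simp)).integrable_of_hasCompactSupport (hFs.fderiv ℝ)).norm
  obtain ⟨-, h1⟩ := hK _ hF (fun x => by positivity) hint hint'
  have e1 : ∫ x, ((‖f x‖ ^ 2) ^ 2) ^ ((3:ℝ)/2) = Y := by
    rw [hY]
    refine integral_congr_ae (ae_of_all _ fun x => ?_)
    show ((‖f x‖ ^ 2) ^ 2) ^ ((3:ℝ)/2) = ‖f x‖ ^ 6
    rw [← pow_mul, ← Real.rpow_natCast, ← Real.rpow_mul (norm_nonneg _), ← Real.rpow_natCast]
    norm_num
  rw [e1] at h1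
  have hRc : Continuous fun x => ‖f x‖ ^ 3 * √(dsq A f x) :=
    (hf.continuous.norm.pow 3).mul (continuous_dsq hA hf).sqrt
  have hRi : Integrable fun x => ‖f x‖ ^ 3 * √(dsq A f x) :=
    hRc.integrable_of_hasCompactSupport (hpow 3 (by norm_num)).mul_right
  have h2 : ∫ x, ‖fderiv ℝ (fun x => (‖f x‖ ^ 2) ^ 2) x‖ ≤ 4 * ∫ x, ‖f x‖ ^ 3 * √(dsq A f x) := by
    rw [← integral_const_mul]
    refine integral_mono hint' (hRi.const_mul 4) fun x => ?_
    have h3 := fderiv_normSq (A := A) ((hf.differentiable (by simp)) x)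
    have h4 := (h3.1.pow 2).fderiv
    rw [h4, norm_smul]
    have h5 : ‖(2 • (‖f x‖ ^ 2) ^ (2 - 1) : ℝ)‖ = 2 * ‖f x‖ ^ 2 := by
      rw [Real.norm_of_nonneg (by positivity)]
      simp
    rw [h5]
    calc 2 * ‖f x‖ ^ 2 * ‖fderiv ℝ (fun y => ‖f y‖ ^ 2) x‖
        ≤ 2 * ‖f x‖ ^ 2 * (2 * (‖f x‖ * √(dsq A f x))) :=
          mul_le_mul_of_nonneg_left h3.2 (by positivity)
      _ = 4 * (‖f x‖ ^ 3 * √(dsq A f x)) := by ring
  have h3 : ∫ x, ‖f x‖ ^ 3 * √(dsq A f x) ≤ √Y * √W := by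
    have hc1 : Continuous fun x => ‖f x‖ ^ 3 := hf.continuous.norm.pow 3
    have hc2 : Continuous fun x => √(dsq A f x) := (continuous_dsq hA hf).sqrt
    have hs2 : HasCompactSupport fun x => √(dsq A f x) :=
      (compact_dsq (A := A) hs).comp_left (g := fun t : ℝ => √t) Real.sqrt_zero
    have h4 := integral_mul_le_Lp_mul_Lq_of_nonneg (μ := (volume : Measure E3))
      (p := 2) (q := 2) Real.HolderConjugate.two_two
      (f := fun x => ‖f x‖ ^ 3) (g := fun x => √(dsq A f x))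
      (ae_of_all _ fun x => by positivity) (ae_of_all _ fun x => Real.sqrt_nonneg _)
      (hc1.memLp_of_hasCompactSupport (hpow 3 (by norm_num)))
      (hc2.memLp_of_hasCompactSupport hs2)
    refine h4.trans (le_of_eq ?_)
    rw [Real.sqrt_eq_rpow, Real.sqrt_eq_rpow]
    congr 2
    · rw [hY]
      refine integral_congr_ae (ae_of_all _ fun x => ?_)
      show (‖f x‖ ^ 3) ^ (2:ℝ) = ‖f x‖ ^ 6
      rw [Real.rpow_two]; ring
    · rw [hW]
      refine integral_congr_ae (ae_of_all _ fun x => ?_)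
      show (√(dsq A f x)) ^ (2:ℝ) = dsq A f x
      rw [Real.rpow_two, Real.sq_sqrt (dsq_nonneg A f x)]
  have h4 : Y ≤ K * (4 * (√Y * √W)) ^ ((3:ℝ)/2) := by
    refine h1.trans (mul_le_mul_of_nonneg_left ?_ hK0)
    refine Real.rpow_le_rpow (integral_nonneg fun x => norm_nonneg _) ?_ (by norm_num)
    linarith
  have h5 : Y ^ 4 ≤ (4096 * K ^ 4 * W ^ 3) * Y ^ 3 := by
    calc Y ^ 4 ≤ (K * (4 * (√Y * √W)) ^ ((3:ℝ)/2)) ^ 4 := by gcongr
      _ = K ^ 4 * (((4 * (√Y * √W)) ^ ((3:ℝ)/2)) ^ 4) := by rw [mul_pow]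
      _ = K ^ 4 * (4 * (√Y * √W)) ^ 6 := by
          congr 1
          rw [← Real.rpow_natCast, ← Real.rpow_mul (by positivity), ← Real.rpow_natCast]
          norm_num
      _ = K ^ 4 * (4096 * ((√Y ^ 2) ^ 3 * (√W ^ 2) ^ 3)) := by ring
      _ = _ := by rw [Real.sq_sqrt hY0, Real.sq_sqrt hW0]; ring
  have h6 : Y ≤ 4096 * K ^ 4 * W ^ 3 := by
    rcases hY0.eq_or_lt with h0 | hpos
    · rw [← h0]; positivity
    · have : Y * Y ^ 3 ≤ (4096 * K ^ 4 * W ^ 3) * Y ^ 3 := by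
        calc Y * Y ^ 3 = Y ^ 4 := by ring
          _ ≤ _ := h5
      exact le_of_mul_le_mul_right this (by positivity)
  have e9 : ∀ t : ℝ, 0 ≤ t → (t ^ ((1:ℝ)/3)) ^ 3 = t := by
    intro t ht
    rw [← Real.rpow_natCast, ← Real.rpow_mul ht]
    norm_num
  refine h6.trans (le_of_eq ?_)
  rw [mul_pow, e9 _ (by positivity)]

/-- cutoff of a covariant derivative -/
lemma cov_mul (A : E3 → E3) (k : Fin 3) {w : E3 → ℝ} {f : E3 → ℂ} {x : E3}
    (hw : DifferentiableAt ℝ w x) (hf : DifferentiableAt ℝ f x) :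
    cov A k (fun y => (w y : ℂ) * f y) x
      = (w x : ℂ) * cov A k f x - Complex.I * ((fderiv ℝ w x (ee k) : ℝ) : ℂ) * f x := by
  have h1 : HasFDerivAt (fun y => (w y : ℂ)) (Complex.ofRealCLM.comp (fderiv ℝ w x)) x :=
    Complex.ofRealCLM.hasFDerivAt.comp x hw.hasFDerivAt
  have h2 : HasFDerivAt (fun y => (w y : ℂ) * f y) _ x := h1.mul hf.hasFDerivAt
  unfold cov
  rw [h2.fderiv]
  simp only [add_apply, smul_apply,
    ContinuousLinearMap.comp_apply, Complex.ofRealCLM_apply, smul_eq_mul]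
  ring

lemma dsq_mul_le (A : E3 → E3) {w : E3 → ℝ} {f : E3 → ℂ} {x : E3}
    (hw : DifferentiableAt ℝ w x) (hf : DifferentiableAt ℝ f x) :
    dsq A (fun y => (w y : ℂ) * f y) x
      ≤ 2 * (w x ^ 2 * dsq A f x) + 2 * (‖fderiv ℝ w x‖ ^ 2 * ‖f x‖ ^ 2) := by
  have h1 : ∀ k, ‖cov A k (fun y => (w y : ℂ) * f y) x‖ ^ 2
      ≤ 2 * (w x ^ 2 * ‖cov A k f x‖ ^ 2) + 2 * ((fderiv ℝ w x (ee k)) ^ 2 * ‖f x‖ ^ 2) := by
    intro k
    rw [cov_mul A k hw hf]
    have h2 := norm_sub_le ((w x : ℂ) * cov A k f x)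
      (Complex.I * ((fderiv ℝ w x (ee k) : ℝ) : ℂ) * f x)
    have h3 : ‖(w x : ℂ) * cov A k f x‖ = |w x| * ‖cov A k f x‖ := by simp
    have h4 : ‖Complex.I * ((fderiv ℝ w x (ee k) : ℝ) : ℂ) * f x‖
        = |fderiv ℝ w x (ee k)| * ‖f x‖ := by simp
    rw [h3, h4] at h2
    calc ‖(w x : ℂ) * cov A k f x - Complex.I * ((fderiv ℝ w x (ee k) : ℝ) : ℂ) * f x‖ ^ 2
        ≤ (|w x| * ‖cov A k f x‖ + |fderiv ℝ w x (ee k)| * ‖f x‖) ^ 2 := by gcongr
      _ ≤ 2 * (|w x| * ‖cov A k f x‖) ^ 2 + 2 * (|fderiv ℝ w x (ee k)| * ‖f x‖) ^ 2 := by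
          nlinarith [sq_nonneg (|w x| * ‖cov A k f x‖ - |fderiv ℝ w x (ee k)| * ‖f x‖)]
      _ = _ := by rw [mul_pow, mul_pow, sq_abs, sq_abs]
  calc dsq A (fun y => (w y : ℂ) * f y) x
      ≤ ∑ k, (2 * (w x ^ 2 * ‖cov A k f x‖ ^ 2)
          + 2 * ((fderiv ℝ w x (ee k)) ^ 2 * ‖f x‖ ^ 2)) :=
        Finset.sum_le_sum fun k _ => h1 k
    _ = 2 * (w x ^ 2 * dsq A f x) + 2 * ((∑ k, (fderiv ℝ w x (ee k)) ^ 2) * ‖f x‖ ^ 2) := by
        rw [Finset.sum_add_distrib, ← Finset.mul_sum, ← Finset.mul_sum, ← Finset.mul_sum,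
          ← Finset.sum_mul]
        rfl
    _ ≤ _ := by
        have := sum_sq_le (fderiv ℝ w x)
        gcongr

/-- Local estimate of the magnetic term. -/
lemma local_B {S : ℝ} (hS0 : 0 ≤ S) (hS : ∀ (A : E3 → E3) (f : E3 → ℂ), Continuous A →
    ContDiff ℝ 1 f → HasCompactSupport f → ∫ x, ‖f x‖ ^ 6 ≤ (S * ∫ x, dsq A f x) ^ 3)
    {A : E3 → E3} (hA : Continuous A) {f : E3 → ℂ} (hf : ContDiff ℝ 1 f)
    (hs : HasCompactSupport f) {b : E3 → ℝ} (hb : Continuous b) (hbs : HasCompactSupport b)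
    (hb0 : ∀ x, 0 ≤ b x) {δ : ℝ} (_hδ : 0 ≤ δ) {a : E3} {r : ℝ} (hm : mm b a r ≤ δ)
    {w : E3 → ℝ} (hw : ContDiff ℝ 1 w) (hws : ∀ x, x ∉ ball a r → w x = 0) :
    ∫ x, b x * (w x ^ 2 * ‖f x‖ ^ 2) ≤ δ ^ ((2:ℝ)/3) * S *
      ∫ x, (2 * (w x ^ 2 * dsq A f x) + 2 * (‖fderiv ℝ w x‖ ^ 2 * ‖f x‖ ^ 2)) := by
  let g : E3 → ℂ := fun y => (w y : ℂ) * f y
  have hwC : ContDiff ℝ 1 (fun y => (w y : ℂ)) := Complex.ofRealCLM.contDiff.comp hw
  have hg : ContDiff ℝ 1 g := hwC.mul hf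
  have hgs : HasCompactSupport g := hs.mul_left
  have hgn : ∀ x, ‖g x‖ ^ 2 = w x ^ 2 * ‖f x‖ ^ 2 := by
    intro x
    simp only [g, norm_mul, Complex.norm_real, Real.norm_eq_abs, mul_pow, sq_abs]
  have hSg := hS A g hA hg hgs
  set W := ∫ x, dsq A g x with hWdef
  have hW0 : 0 ≤ W := integral_nonneg fun x => dsq_nonneg A g x
  have hW : W ≤ ∫ x, (2 * (w x ^ 2 * dsq A f x) + 2 * (‖fderiv ℝ w x‖ ^ 2 * ‖f x‖ ^ 2)) := by
    have hfc := hf.continuous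
    have hdc := continuous_dsq hA hf
    have hwc := hw.continuous
    have hwd := (hw.continuous_fderiv (by simp)).norm
    refine integral_mono ((continuous_dsq hA hg).integrable_of_hasCompactSupport
      (compact_dsq hgs)) ?_ fun x => ?_
    · refine Continuous.integrable_of_hasCompactSupport (by fun_prop) ?_
      refine HasCompactSupport.of_support_subset_isCompact hs.isCompact fun x hx => ?_
      by_contra h
      apply hx
      have h1 : f x = 0 := image_eq_zero_of_notMem_tsupport h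
      have h2 : dsq A f x = 0 := by unfold dsq; simp [cov_support _ h]
      simp [h1, h2]
    · exact dsq_mul_le A ((hw.differentiable (by simp)) x) ((hf.differentiable (by simp)) x)
  have hgns : HasCompactSupport fun x => ‖g x‖ ^ 2 :=
    hgs.comp_left (g := fun z : ℂ => ‖z‖ ^ 2) (by simp)
  have hH := integral_mul_le_Lp_mul_Lq_of_nonneg (μ := (volume : Measure E3))
      (p := 3 / 2) (q := 3) (by constructor <;> norm_num)
      (f := (ball a r).indicator b) (g := fun x => ‖g x‖ ^ 2)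
      (ae_of_all _ fun x => indicator_nonneg (fun z _ => hb0 z) x)
      (ae_of_all _ fun x => by positivity)
      ((hb.memLp_of_hasCompactSupport hbs).indicator measurableSet_ball)
      ((hg.continuous.norm.pow 2).memLp_of_hasCompactSupport hgns)
  have e1 : ∫ x, b x * (w x ^ 2 * ‖f x‖ ^ 2) = ∫ x, (ball a r).indicator b x * ‖g x‖ ^ 2 := by
    refine integral_congr_ae (ae_of_all _ fun x => ?_)
    show b x * (w x ^ 2 * ‖f x‖ ^ 2) = (ball a r).indicator b x * ‖g x‖ ^ 2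
    rw [hgn]
    by_cases hx : x ∈ ball a r
    · rw [indicator_of_mem hx]
    · rw [hws x hx]; simp
  have e2 : ∫ x, (ball a r).indicator b x ^ ((3:ℝ)/2) = mm b a r := by
    unfold mm
    rw [← integral_indicator measurableSet_ball]
    refine integral_congr_ae (ae_of_all _ fun x => ?_)
    show (ball a r).indicator b x ^ ((3:ℝ)/2) = (ball a r).indicator (fun y => b y ^ ((3:ℝ)/2)) x
    by_cases hx : x ∈ ball a r
    · rw [indicator_of_mem hx, indicator_of_mem hx]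
    · rw [indicator_of_notMem hx, indicator_of_notMem hx, Real.zero_rpow (by norm_num)]
  have e3 : ∫ x, (‖g x‖ ^ 2) ^ (3:ℝ) = ∫ x, ‖g x‖ ^ 6 := by
    refine integral_congr_ae (ae_of_all _ fun x => ?_)
    show (‖g x‖ ^ 2) ^ (3:ℝ) = ‖g x‖ ^ 6
    rw [show (3:ℝ) = ((3:ℕ):ℝ) by norm_num, Real.rpow_natCast]; ring
  rw [e1]
  refine hH.trans ?_
  rw [e2, e3]
  have h5 : (mm b a r) ^ (1 / (3 / 2 : ℝ)) ≤ δ ^ ((2:ℝ)/3) := by
    have : (1 / (3 / 2 : ℝ)) = 2 / 3 := by norm_num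
    rw [this]
    exact Real.rpow_le_rpow (mm_nonneg hb0 a r) hm (by norm_num)
  have h6 : (∫ x, ‖g x‖ ^ 6) ^ (1 / (3 : ℝ)) ≤ S * W := by
    calc (∫ x, ‖g x‖ ^ 6) ^ (1 / (3 : ℝ)) ≤ ((S * W) ^ 3) ^ (1 / (3 : ℝ)) := by
          refine Real.rpow_le_rpow (integral_nonneg fun x => by positivity) hSg (by norm_num)
      _ = S * W := by
          rw [← Real.rpow_natCast, ← Real.rpow_mul (by positivity)]
          norm_num
  calc (mm b a r) ^ (1 / (3 / 2 : ℝ)) * (∫ x, ‖g x‖ ^ 6) ^ (1 / (3 : ℝ))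
      ≤ δ ^ ((2:ℝ)/3) * (S * W) := by
        refine mul_le_mul h5 h6 ?_ (by positivity)
        exact Real.rpow_nonneg (integral_nonneg fun x => by positivity) _
    _ = δ ^ ((2:ℝ)/3) * S * W := by ring
    _ ≤ _ := by gcongr

end Pool.Agent.H7R3.Mag
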