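import Mathlib
import Pool.Agent.H7R3.Mag.ME

set_option autoImplicit false

open MeasureTheory Filter Topology Set Metric
open scoped ENNReal NNReal ContDiff

namespace Pool.Agent.H7R3.Mag

/-- fixed bump -/
noncomputable def Bp : ContDiffBump (0 : E3) := ⟨1 / 8, 1 / 4, by norm_num, by norm_num⟩

/-- rescaled bump centred at `a` -/
noncomputable def bw (ρ : E3 → ℝ) (a x : E3) : ℝ := Bp ((ρ a)⁻¹ • (x - a))

/-- squared gradient of the bump -/
noncomputable def Psi (y : E3) : ℝ := ‖fderiv ℝ (Bp : E3 → ℝ) y‖ ^ 2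

lemma Bp_smooth : ContDiff ℝ 1 (Bp : E3 → ℝ) := Bp.contDiff

lemma Psi_cont : Continuous Psi := by
  unfold Psi
  exact ((Bp_smooth.continuous_fderiv (by simp)).norm).pow 2

lemma Psi_bdd : ∃ K : ℝ, 0 ≤ K ∧ ∀ y, Psi y ≤ K := by
  obtain ⟨C, hC⟩ := (Bp_smooth.continuous_fderiv (by simp)).bounded_above_of_compact_support
    (Bp.hasCompactSupport.fderiv ℝ)
  refine ⟨C ^ 2, by positivity, fun y => ?_⟩
  unfold Psi
  have := hC y
  gcongr

lemma Bp_zero {y : E3} (hy : 1 / 4 < ‖y‖) : Bp y = 0 := by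
  apply Bp.zero_of_le_dist
  rw [dist_zero_right]
  exact hy.le

lemma Psi_zero {y : E3} (hy : 1 / 4 < ‖y‖) : Psi y = 0 := by
  unfold Psi
  have : fderiv ℝ (Bp : E3 → ℝ) y = 0 := by
    have h2 : y ∉ tsupport (Bp : E3 → ℝ) := by
      rw [Bp.tsupport_eq]
      intro h
      rw [mem_closedBall_zero_iff] at h
      exact absurd hy (not_lt.mpr h)
    have h3 : y ∉ tsupport (fderiv ℝ (Bp : E3 → ℝ)) := fun h => h2 (tsupport_fderiv_subset ℝ h)
    exact image_eq_zero_of_notMem_tsupport h3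
  rw [this]; simp

section
variable {ρ : E3 → ℝ}

lemma bw_smooth (ρ : E3 → ℝ) (a : E3) : ContDiff ℝ 1 (bw ρ a) := by
  unfold bw
  have : ContDiff ℝ 1 (fun x : E3 => (ρ a)⁻¹ • (x - a)) :=
    (contDiff_id.sub contDiff_const).const_smul _
  exact Bp_smooth.comp this

lemma bw_supp (hρ : ∀ x, 0 < ρ x) (a : E3) : ∀ x, x ∉ ball a (ρ a / 4) → bw ρ a x = 0 := by
  intro x hx
  apply Bp.zero_of_le_dist
  have h1 : ρ a / 4 ≤ dist x a := not_lt.mp hx
  rw [dist_zero_right, norm_smul, Real.norm_of_nonneg (inv_nonneg.mpr (hρ a).le), ← dist_eq_norm]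
  show (1:ℝ) / 4 ≤ _
  have := hρ a
  rw [le_inv_mul_iff₀ this]
  linarith

lemma bw_fderiv (hρ : ∀ x, 0 < ρ x) (a x : E3) :
    ‖fderiv ℝ (bw ρ a) x‖ ^ 2 ≤ ((ρ a)⁻¹) ^ 2 * Psi ((ρ a)⁻¹ • (x - a)) := by
  have h1 : HasFDerivAt (fun x : E3 => (ρ a)⁻¹ • (x - a))
      ((ρ a)⁻¹ • ContinuousLinearMap.id ℝ E3) x := by
    have := ((hasFDerivAt_id (𝕜 := ℝ) x).sub_const a).const_smul ((ρ a)⁻¹)
    exact this
  have h2 : HasFDerivAt (bw ρ a) ((fderiv ℝ (Bp : E3 → ℝ) ((ρ a)⁻¹ • (x - a))).comp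
      ((ρ a)⁻¹ • ContinuousLinearMap.id ℝ E3)) x :=
    ((Bp_smooth.differentiable (by simp)) _).hasFDerivAt.comp x h1
  rw [h2.fderiv]
  unfold Psi
  rw [← mul_pow]
  have h3 := ContinuousLinearMap.opNorm_comp_le (fderiv ℝ (Bp : E3 → ℝ) ((ρ a)⁻¹ • (x - a)))
    ((ρ a)⁻¹ • ContinuousLinearMap.id ℝ E3)
  have h4 : ‖(ρ a)⁻¹ • ContinuousLinearMap.id ℝ E3‖ ≤ (ρ a)⁻¹ := by
    rw [norm_smul, Real.norm_of_nonneg (inv_nonneg.mpr (hρ a).le)]
    exact mul_le_of_le_one_right (inv_nonneg.mpr (hρ a).le) ContinuousLinearMap.norm_id_le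
  have h5 : ‖fderiv ℝ (Bp : E3 → ℝ) ((ρ a)⁻¹ • (x - a))‖ * ‖(ρ a)⁻¹ • ContinuousLinearMap.id ℝ E3‖
      ≤ (ρ a)⁻¹ * ‖fderiv ℝ (Bp : E3 → ℝ) ((ρ a)⁻¹ • (x - a))‖ := by
    rw [mul_comm]
    gcongr
  have h6 := h3.trans h5
  gcongr

lemma lip_le (hl : LipschitzWith 1 ρ) (x a : E3) : ρ x ≤ ρ a + ‖x - a‖ := by
  have := hl.dist_le_mul x a
  rw [NNReal.coe_one, one_mul, Real.dist_eq, dist_eq_norm] at this
  linarith [(abs_le.mp this).2]

/-- Upper bound for the averages. -/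
lemma avg_upper (hl : LipschitzWith 1 ρ) (hρ : ∀ x, 0 < ρ x) (g : E3 → ℝ) {G : ℝ} (hG : 0 ≤ G)
    (hg : ∀ y, g y ≤ G) (hgz : ∀ y, 1 / 4 < ‖y‖ → g y = 0) (p : ℕ) (x : E3) :
    ∫⁻ a, ENNReal.ofReal (((ρ a)⁻¹) ^ p * g ((ρ a)⁻¹ • (x - a)))
      ≤ ENNReal.ofReal ((5 / 4 * (ρ x)⁻¹) ^ p * G * ((ρ x / 2) ^ 3 * v1)) := by
  have hx := hρ x
  have hv := v1_pos
  have h1 : ∀ a, ENNReal.ofReal (((ρ a)⁻¹) ^ p * g ((ρ a)⁻¹ • (x - a)))
      ≤ (ball x (ρ x / 2)).indicator (fun _ => ENNReal.ofReal ((5 / 4 * (ρ x)⁻¹) ^ p * G)) a := by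
    intro a
    have ha := hρ a
    by_cases hy : 1 / 4 < ‖(ρ a)⁻¹ • (x - a)‖
    · rw [hgz _ hy]; simp
    · have hy' : ‖x - a‖ ≤ ρ a / 4 := by
        have h2 := not_lt.mp hy
        rw [norm_smul, Real.norm_of_nonneg (inv_nonneg.mpr ha.le), inv_mul_le_iff₀ ha] at h2
        linarith
      have h3 := lip_le hl x a
      have h4 := lip_le hl a x
      rw [norm_sub_rev] at h4
      have hmem : a ∈ ball x (ρ x / 2) := by
        rw [mem_ball, dist_comm, dist_eq_norm]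
        linarith
      rw [indicator_of_mem hmem]
      refine ENNReal.ofReal_le_ofReal ?_
      have h5 : (ρ a)⁻¹ ≤ 5 / 4 * (ρ x)⁻¹ := by
        rw [inv_le_iff_one_le_mul₀ ha]
        have : 1 ≤ 5 / 4 * (ρ x)⁻¹ * ρ a := by
          rw [mul_assoc, ← div_eq_inv_mul]
          have : 4 / 5 ≤ ρ a / ρ x := by rw [le_div_iff₀ hx]; linarith
          linarith
        linarith
      have h6 : ((ρ a)⁻¹) ^ p ≤ (5 / 4 * (ρ x)⁻¹) ^ p := by
        have : 0 ≤ (ρ a)⁻¹ := by positivity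
        gcongr
      calc ((ρ a)⁻¹) ^ p * g ((ρ a)⁻¹ • (x - a)) ≤ ((ρ a)⁻¹) ^ p * G :=
            mul_le_mul_of_nonneg_left (hg _) (by positivity)
        _ ≤ _ := by gcongr
  refine (lintegral_mono h1).trans ?_
  rw [lintegral_indicator measurableSet_ball, lintegral_const, Measure.restrict_apply_univ,
    ← ofReal_measureReal (by exact measure_ball_lt_top.ne), vol_ball x (by positivity),
    ← ENNReal.ofReal_mul (by positivity)]

lemma Bp_sq_le (y : E3) : (Bp y) ^ 2 ≤ 1 := by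
  have h1 : 0 ≤ Bp y := Bp.nonneg
  have h2 : Bp y ≤ 1 := Bp.le_one
  nlinarith

lemma avg_upper_bw (hl : LipschitzWith 1 ρ) (hρ : ∀ x, 0 < ρ x) (x : E3) :
    ∫⁻ a, ENNReal.ofReal (((ρ a)⁻¹) ^ 2 * (bw ρ a x) ^ 2)
      ≤ ENNReal.ofReal ((5 / 4 * (ρ x)⁻¹) ^ 2 * 1 * ((ρ x / 2) ^ 3 * v1)) :=
  avg_upper hl hρ (fun y => (Bp y) ^ 2) zero_le_one Bp_sq_le
    (fun y hy => by simp [Bp_zero hy]) 2 x

/-- Lower bound for the averages. -/
lemma avg_lower (hl : LipschitzWith 1 ρ) (hρ : ∀ x, 0 < ρ x) (x : E3) :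
    ENNReal.ofReal (v1 / 1000 * ρ x)
      ≤ ∫⁻ a, ENNReal.ofReal (((ρ a)⁻¹) ^ 2 * (bw ρ a x) ^ 2) := by
  have hx := hρ x
  have hv := v1_pos
  have h1 : ∀ a, (ball x (ρ x / 9)).indicator
      (fun _ => ENNReal.ofReal (81 / 100 * ((ρ x)⁻¹) ^ 2)) a
      ≤ ENNReal.ofReal (((ρ a)⁻¹) ^ 2 * (bw ρ a x) ^ 2) := by
    intro a
    have ha := hρ a
    by_cases hmem : a ∈ ball x (ρ x / 9)
    · rw [indicator_of_mem hmem]
      have hd : ‖x - a‖ < ρ x / 9 := by
        rw [mem_ball, dist_comm, dist_eq_norm] at hmem; exact hmem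
      have h3 := lip_le hl x a
      have h4 := lip_le hl a x
      rw [norm_sub_rev] at h4
      have h5 : bw ρ a x = 1 := by
        apply Bp.one_of_mem_closedBall
        rw [mem_closedBall_zero_iff, norm_smul, Real.norm_of_nonneg (inv_nonneg.mpr ha.le),
          inv_mul_le_iff₀ ha]
        show ‖x - a‖ ≤ ρ a * (1 / 8)
        linarith
      rw [h5]
      refine ENNReal.ofReal_le_ofReal ?_
      have h6 : 9 / 10 * (ρ x)⁻¹ ≤ (ρ a)⁻¹ := by
        rw [← div_eq_mul_inv, div_le_iff₀ hx, ← div_eq_inv_mul, le_div_iff₀ ha]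
        linarith
      have h7 : (9 / 10 * (ρ x)⁻¹) ^ 2 ≤ ((ρ a)⁻¹) ^ 2 := by gcongr
      calc 81 / 100 * ((ρ x)⁻¹) ^ 2 = (9 / 10 * (ρ x)⁻¹) ^ 2 := by ring
        _ ≤ _ := by rw [one_pow, mul_one]; exact h7
    · rw [indicator_of_notMem hmem]
      exact zero_le
  refine le_trans ?_ (lintegral_mono h1)
  rw [lintegral_indicator measurableSet_ball, lintegral_const, Measure.restrict_apply_univ,
    ← ofReal_measureReal (by exact measure_ball_lt_top.ne), vol_ball x (by positivity),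
    ← ENNReal.ofReal_mul (by positivity)]
  refine ENNReal.ofReal_le_ofReal ?_
  have : 81 / 100 * (ρ x)⁻¹ ^ 2 * ((ρ x / 9) ^ 3 * v1) = (81 / 72900) * v1 * ρ x := by
    field_simp
    norm_num
  rw [this]
  have : 0 < v1 * ρ x := by positivity
  nlinarith

end

/-- **The magnetic term.** -/
theorem magnetic_term : ∃ CB : ℝ, 0 ≤ CB ∧ ∀ (A : E3 → E3) (f : E3 → ℂ) (b ρ : E3 → ℝ) (δ : ℝ),
    Continuous A → ContDiff ℝ 1 f → HasCompactSupport f → Continuous b → HasCompactSupport b →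
    (∀ x, 0 ≤ b x) → LipschitzWith 1 ρ → (∀ x, 0 < ρ x) → 0 ≤ δ →
    (∀ a, mm b a (ρ a / 4) ≤ δ) →
    ∫ x, b x * (ρ x * ‖f x‖ ^ 2) ≤ CB * δ ^ ((2:ℝ)/3) *
      ((∫ x, ρ x * dsq A f x) + ∫ x, (ρ x)⁻¹ * ‖f x‖ ^ 2) := by
  obtain ⟨S, hS0, hS⟩ := sobolev
  obtain ⟨K, hK0, hK⟩ := Psi_bdd
  have hv := v1_pos
  refine ⟨1000 * S * (1 + K), by positivity, ?_⟩
  intro A f b ρ δ hA hf hs hb hbs hb0 hl hρ hδ hm
  have hρc := hl.continuous
  have hfc := hf.continuous
  have hdc := continuous_dsq hA hf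
  have hds := compact_dsq (A := A) hs
  have hf2s : HasCompactSupport fun x => ‖f x‖ ^ 2 :=
    hs.comp_left (g := fun z : ℂ => ‖z‖ ^ 2) (by simp)
  have hρinv : Continuous fun x => (ρ x)⁻¹ := hρc.inv₀ fun x => (hρ x).ne'
  set D : ℝ := δ ^ ((2:ℝ)/3) * S with hD
  have hD0 : 0 ≤ D := by positivity
  have hbwc : Continuous fun q : E3 × E3 => bw ρ q.1 q.2 := by
    unfold bw
    have h1 : Continuous fun q : E3 × E3 => (ρ q.1)⁻¹ • (q.2 - q.1) :=
      (hρinv.comp continuous_fst).smul (continuous_snd.sub continuous_fst)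
    exact Bp_smooth.continuous.comp h1
  have hPc : Continuous fun q : E3 × E3 => Psi ((ρ q.1)⁻¹ • (q.2 - q.1)) := by
    have h1 : Continuous fun q : E3 × E3 => (ρ q.1)⁻¹ • (q.2 - q.1) :=
      (hρinv.comp continuous_fst).smul (continuous_snd.sub continuous_fst)
    exact Psi_cont.comp h1
  -- the local inequality
  have hloc : ∀ a, ∫⁻ x, ENNReal.ofReal (((ρ a)⁻¹) ^ 2 * (bw ρ a x) ^ 2 * (b x * ‖f x‖ ^ 2))
      ≤ ∫⁻ x, ENNReal.ofReal (D * (2 * (((ρ a)⁻¹) ^ 2 * (bw ρ a x) ^ 2 * dsq A f x)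
        + 2 * (((ρ a)⁻¹) ^ 4 * Psi ((ρ a)⁻¹ • (x - a)) * ‖f x‖ ^ 2))) := by
    intro a
    have ha := hρ a
    have h1 := local_B hS0 hS hA hf hs hb hbs hb0 hδ (hm a) (bw_smooth ρ a) (bw_supp hρ a)
    have hbc : Continuous (bw ρ a) := (bw_smooth ρ a).continuous
    have hPa : Continuous fun x => Psi ((ρ a)⁻¹ • (x - a)) := by
      have := Psi_cont
      fun_prop
    have hi1 : Integrable fun x => ((ρ a)⁻¹) ^ 2 * (bw ρ a x) ^ 2 * (b x * ‖f x‖ ^ 2) := by
      refine Continuous.integrable_of_hasCompactSupport (by fun_prop) ?_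
      exact (hf2s.mul_left (f := b)).mul_left
    have hi2 : Integrable fun x => D * (2 * (((ρ a)⁻¹) ^ 2 * (bw ρ a x) ^ 2 * dsq A f x)
        + 2 * (((ρ a)⁻¹) ^ 4 * Psi ((ρ a)⁻¹ • (x - a)) * ‖f x‖ ^ 2)) := by
      refine Continuous.integrable_of_hasCompactSupport (by fun_prop) ?_
      refine HasCompactSupport.of_support_subset_isCompact hs.isCompact fun x hx => ?_
      by_contra h
      apply hx
      have h1 : f x = 0 := image_eq_zero_of_notMem_tsupport h
      have h2 : dsq A f x = 0 := by unfold dsq; simp [cov_support _ h]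
      simp [h1, h2]
    have hPn : ∀ y, 0 ≤ Psi y := fun y => by unfold Psi; positivity
    rw [← ofReal_integral_eq_lintegral_ofReal hi1 (ae_of_all _ fun x => by
        have := hb0 x; positivity),
      ← ofReal_integral_eq_lintegral_ofReal hi2 (ae_of_all _ fun x => by
        have := hPn ((ρ a)⁻¹ • (x - a)); have := dsq_nonneg A f x; positivity)]
    refine ENNReal.ofReal_le_ofReal ?_
    calc ∫ x, ((ρ a)⁻¹) ^ 2 * (bw ρ a x) ^ 2 * (b x * ‖f x‖ ^ 2)
        = ((ρ a)⁻¹) ^ 2 * ∫ x, b x * ((bw ρ a x) ^ 2 * ‖f x‖ ^ 2) := by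
          rw [← integral_const_mul]
          exact integral_congr_ae (ae_of_all _ fun x => by ring)
      _ ≤ ((ρ a)⁻¹) ^ 2 * (D * ∫ x, (2 * ((bw ρ a x) ^ 2 * dsq A f x)
            + 2 * (‖fderiv ℝ (bw ρ a) x‖ ^ 2 * ‖f x‖ ^ 2))) :=
          mul_le_mul_of_nonneg_left h1 (by positivity)
      _ = ∫ x, ((ρ a)⁻¹) ^ 2 * (D * (2 * ((bw ρ a x) ^ 2 * dsq A f x)
            + 2 * (‖fderiv ℝ (bw ρ a) x‖ ^ 2 * ‖f x‖ ^ 2))) := by
          rw [integral_const_mul, integral_const_mul]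
      _ ≤ _ := by
          refine integral_mono ?_ hi2 fun x => ?_
          · have hwd := ((bw_smooth ρ a).continuous_fderiv (by simp)).norm
            refine Continuous.integrable_of_hasCompactSupport (by fun_prop) ?_
            refine HasCompactSupport.of_support_subset_isCompact hs.isCompact fun x hx => ?_
            by_contra h
            apply hx
            have h1 : f x = 0 := image_eq_zero_of_notMem_tsupport h
            have h2 : dsq A f x = 0 := by unfold dsq; simp [cov_support _ h]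
            simp [h1, h2]
          · have h2 := bw_fderiv hρ a x
            have h3 : ‖fderiv ℝ (bw ρ a) x‖ ^ 2 * ‖f x‖ ^ 2
                ≤ ((ρ a)⁻¹) ^ 2 * Psi ((ρ a)⁻¹ • (x - a)) * ‖f x‖ ^ 2 := by gcongr
            calc ((ρ a)⁻¹) ^ 2 * (D * (2 * ((bw ρ a x) ^ 2 * dsq A f x)
                + 2 * (‖fderiv ℝ (bw ρ a) x‖ ^ 2 * ‖f x‖ ^ 2)))
                ≤ ((ρ a)⁻¹) ^ 2 * (D * (2 * ((bw ρ a x) ^ 2 * dsq A f x)
                + 2 * (((ρ a)⁻¹) ^ 2 * Psi ((ρ a)⁻¹ • (x - a)) * ‖f x‖ ^ 2))) := by gcongr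
              _ = _ := by ring
  have hmain : ∫⁻ x, ENNReal.ofReal (v1 / 1000 * ρ x * (b x * ‖f x‖ ^ 2)) ≤
      ∫⁻ x, ENNReal.ofReal (D * (v1 * (ρ x * dsq A f x) + v1 * K * ((ρ x)⁻¹ * ‖f x‖ ^ 2))) := by
    calc ∫⁻ x, ENNReal.ofReal (v1 / 1000 * ρ x * (b x * ‖f x‖ ^ 2))
        ≤ ∫⁻ x, ∫⁻ a, ENNReal.ofReal (((ρ a)⁻¹) ^ 2 * (bw ρ a x) ^ 2 * (b x * ‖f x‖ ^ 2)) := by
          refine lintegral_mono fun x => ?_
          have hbx := hb0 x
          have hx := hρ x
          have h1 := avg_lower hl hρ x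
          rw [ENNReal.ofReal_mul (by positivity)]
          refine (mul_le_mul_left h1 _).trans (le_of_eq ?_)
          rw [← lintegral_mul_const' _ _ ENNReal.ofReal_ne_top]
          refine lintegral_congr fun a => ?_
          have ha := hρ a
          rw [← ENNReal.ofReal_mul (by positivity)]
      _ = ∫⁻ a, ∫⁻ x, ENNReal.ofReal (((ρ a)⁻¹) ^ 2 * (bw ρ a x) ^ 2 * (b x * ‖f x‖ ^ 2)) := by
          rw [lintegral_lintegral_swap]
          refine Measurable.aemeasurable ?_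
          refine Measurable.ennreal_ofReal ?_
          refine Continuous.measurable ?_
          have h1 : Continuous fun q : E3 × E3 => bw ρ q.2 q.1 := hbwc.comp continuous_swap
          have h2 : Continuous fun q : E3 × E3 => (ρ q.2)⁻¹ := hρinv.comp continuous_snd
          have h3 : Continuous fun q : E3 × E3 => b q.1 * ‖f q.1‖ ^ 2 := by fun_prop
          exact ((h2.pow 2).mul (h1.pow 2)).mul h3
      _ ≤ ∫⁻ a, ∫⁻ x, ENNReal.ofReal (D * (2 * (((ρ a)⁻¹) ^ 2 * (bw ρ a x) ^ 2 * dsq A f x)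
            + 2 * (((ρ a)⁻¹) ^ 4 * Psi ((ρ a)⁻¹ • (x - a)) * ‖f x‖ ^ 2))) :=
          lintegral_mono hloc
      _ = ∫⁻ x, ∫⁻ a, ENNReal.ofReal (D * (2 * (((ρ a)⁻¹) ^ 2 * (bw ρ a x) ^ 2 * dsq A f x)
            + 2 * (((ρ a)⁻¹) ^ 4 * Psi ((ρ a)⁻¹ • (x - a)) * ‖f x‖ ^ 2))) := by
          rw [lintegral_lintegral_swap]
          refine Measurable.aemeasurable ?_
          refine Measurable.ennreal_ofReal ?_
          refine Continuous.measurable ?_
          have h2 : Continuous fun q : E3 × E3 => (ρ q.1)⁻¹ := hρinv.comp continuous_fst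
          have h3 : Continuous fun q : E3 × E3 => dsq A f q.2 := hdc.comp continuous_snd
          have h4 : Continuous fun q : E3 × E3 => ‖f q.2‖ ^ 2 := by fun_prop
          exact continuous_const.mul ((continuous_const.mul (((h2.pow 2).mul (hbwc.pow 2)).mul h3)).add
            (continuous_const.mul (((h2.pow 4).mul hPc).mul h4)))
      _ ≤ _ := by
          refine lintegral_mono fun x => ?_
          have hx := hρ x
          have hPn : ∀ y, 0 ≤ Psi y := fun y => by unfold Psi; positivity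
          have hdx := dsq_nonneg A f x
          have u1 := avg_upper_bw hl hρ x
          have u2 := avg_upper hl hρ Psi hK0 hK (fun y hy => Psi_zero hy) 4 x
          have m1 : Measurable fun a => ENNReal.ofReal (((ρ a)⁻¹) ^ 2 * (bw ρ a x) ^ 2) := by
            refine Measurable.ennreal_ofReal (Continuous.measurable ?_)
            have : Continuous fun a => bw ρ a x := hbwc.comp (continuous_id.prodMk continuous_const)
            fun_prop
          calc ∫⁻ a, ENNReal.ofReal (D * (2 * (((ρ a)⁻¹) ^ 2 * (bw ρ a x) ^ 2 * dsq A f x)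
                + 2 * (((ρ a)⁻¹) ^ 4 * Psi ((ρ a)⁻¹ • (x - a)) * ‖f x‖ ^ 2)))
              = ∫⁻ a, (ENNReal.ofReal (D * (2 * dsq A f x)) *
                  ENNReal.ofReal (((ρ a)⁻¹) ^ 2 * (bw ρ a x) ^ 2)
                + ENNReal.ofReal (D * (2 * ‖f x‖ ^ 2)) *
                  ENNReal.ofReal (((ρ a)⁻¹) ^ 4 * Psi ((ρ a)⁻¹ • (x - a)))) := by
                refine lintegral_congr fun a => ?_
                have ha := hρ a
                have hPa := hPn ((ρ a)⁻¹ • (x - a))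
                rw [← ENNReal.ofReal_mul (by positivity), ← ENNReal.ofReal_mul (by positivity),
                  ← ENNReal.ofReal_add (by positivity) (by positivity)]
                congr 1
                ring
            _ = ENNReal.ofReal (D * (2 * dsq A f x)) *
                  (∫⁻ a, ENNReal.ofReal (((ρ a)⁻¹) ^ 2 * (bw ρ a x) ^ 2))
                + ENNReal.ofReal (D * (2 * ‖f x‖ ^ 2)) *
                  ∫⁻ a, ENNReal.ofReal (((ρ a)⁻¹) ^ 4 * Psi ((ρ a)⁻¹ • (x - a))) := by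
                rw [lintegral_add_left (m1.const_mul _),
                  lintegral_const_mul' _ _ ENNReal.ofReal_ne_top,
                  lintegral_const_mul' _ _ ENNReal.ofReal_ne_top]
            _ ≤ ENNReal.ofReal (D * (2 * dsq A f x)) *
                  ENNReal.ofReal ((5 / 4 * (ρ x)⁻¹) ^ 2 * 1 * ((ρ x / 2) ^ 3 * v1))
                + ENNReal.ofReal (D * (2 * ‖f x‖ ^ 2)) *
                  ENNReal.ofReal ((5 / 4 * (ρ x)⁻¹) ^ 4 * K * ((ρ x / 2) ^ 3 * v1)) := by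
                exact add_le_add (mul_le_mul_right u1 _) (mul_le_mul_right u2 _)
            _ ≤ _ := by
                rw [← ENNReal.ofReal_mul (by positivity), ← ENNReal.ofReal_mul (by positivity),
                  ← ENNReal.ofReal_add (by positivity) (by positivity)]
                refine ENNReal.ofReal_le_ofReal ?_
                have e1 : D * (2 * dsq A f x) * ((5 / 4 * (ρ x)⁻¹) ^ 2 * 1 * ((ρ x / 2) ^ 3 * v1))
                    = 25 / 64 * (D * (v1 * (ρ x * dsq A f x))) := by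
                  field_simp
                  ring
                have e2 : D * (2 * ‖f x‖ ^ 2) * ((5 / 4 * (ρ x)⁻¹) ^ 4 * K * ((ρ x / 2) ^ 3 * v1))
                    = 625 / 1024 * (D * (v1 * K * ((ρ x)⁻¹ * ‖f x‖ ^ 2))) := by
                  field_simp
                  ring
                rw [e1, e2, mul_add]
                have n1 : 0 ≤ D * (v1 * (ρ x * dsq A f x)) := by positivity
                have n2 : 0 ≤ D * (v1 * K * ((ρ x)⁻¹ * ‖f x‖ ^ 2)) := by positivity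
                linarith
  -- back to real integrals
  have hi1 : Integrable fun x => b x * (ρ x * ‖f x‖ ^ 2) := by
    refine Continuous.integrable_of_hasCompactSupport (by fun_prop) ?_
    exact (hf2s.mul_left (f := ρ)).mul_left
  have hi2 : Integrable fun x => ρ x * dsq A f x :=
    Continuous.integrable_of_hasCompactSupport (by fun_prop) hds.mul_left
  have hi3 : Integrable fun x => (ρ x)⁻¹ * ‖f x‖ ^ 2 :=
    Continuous.integrable_of_hasCompactSupport (by fun_prop) hf2s.mul_left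
  have e3 : ∀ x, v1 / 1000 * ρ x * (b x * ‖f x‖ ^ 2) = v1 / 1000 * (b x * (ρ x * ‖f x‖ ^ 2)) :=
    fun x => by ring
  simp only [e3] at hmain
  have hi4 : Integrable fun x =>
      D * (v1 * (ρ x * dsq A f x) + v1 * K * ((ρ x)⁻¹ * ‖f x‖ ^ 2)) :=
    ((hi2.const_mul _).add (hi3.const_mul _)).const_mul _
  rw [← ofReal_integral_eq_lintegral_ofReal (hi1.const_mul _) (ae_of_all _ fun x => by
      have := hb0 x; have := hρ x; positivity),
    ← ofReal_integral_eq_lintegral_ofReal hi4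
      (ae_of_all _ fun x => by
        have := hρ x; have := dsq_nonneg A f x; positivity)] at hmain
  have hnn2 : 0 ≤ ∫ x, ρ x * dsq A f x := integral_nonneg fun x => by
    have := hρ x; have := dsq_nonneg A f x; positivity
  have hnn3 : 0 ≤ ∫ x, (ρ x)⁻¹ * ‖f x‖ ^ 2 := integral_nonneg fun x => by
    have := hρ x; positivity
  rw [integral_const_mul, integral_const_mul, integral_add (hi2.const_mul _) (hi3.const_mul _),
    integral_const_mul, integral_const_mul] at hmain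
  rw [ENNReal.ofReal_le_ofReal_iff (by positivity)] at hmain
  set I1 := ∫ x, b x * (ρ x * ‖f x‖ ^ 2)
  set I2 := ∫ x, ρ x * dsq A f x
  set I3 := ∫ x, (ρ x)⁻¹ * ‖f x‖ ^ 2
  have h9 : v1 / 1000 * I1 ≤ v1 / 1000 * (1000 * D * (I2 + K * I3)) := by
    calc v1 / 1000 * I1 ≤ D * (v1 * I2 + v1 * K * I3) := hmain
      _ = _ := by ring
  have h10 := le_of_mul_le_mul_left h9 (by positivity)
  calc I1 ≤ 1000 * D * (I2 + K * I3) := h10
    _ ≤ 1000 * D * ((1 + K) * (I2 + I3)) := by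
        have : I2 + K * I3 ≤ (1 + K) * (I2 + I3) := by nlinarith [mul_nonneg hK0 hnn2]
        gcongr
    _ = _ := by rw [hD]; ring

end Pool.Agent.H7R3.Mag
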