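import Mathlib
import Pool.Agent.H7R3.Mag.ME

set_option autoImplicit false

open MeasureTheory Filter Topology Set Metric
open scoped ENNReal NNReal ContDiff ComplexConjugate

namespace Pool.Agent.H7R3.Mag

/-- field components -/
noncomputable def Bf (A : E3 → E3) (j k : Fin 3) (x : E3) : ℝ :=
  (fderiv ℝ A x (ee j)) k - (fderiv ℝ A x (ee k)) j

/-- `ℓ¹` norm of the field -/
noncomputable def Bn (A : E3 → E3) (x : E3) : ℝ := |Bf A 0 1 x| + |Bf A 0 2 x| + |Bf A 1 2 x|

lemma Bn_nonneg (A : E3 → E3) (x : E3) : 0 ≤ Bn A x := by unfold Bn; positivity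

lemma int_add4 {f g h k : E3 → ℂ} (hf : Integrable f) (hg : Integrable g) (hh : Integrable h)
    (hk : Integrable k) : ∫ x, (f x + g x + h x + k x)
      = (∫ x, f x) + (∫ x, g x) + (∫ x, h x) + ∫ x, k x := by
  have h1 : Integrable fun x => f x + g x := hf.add hg
  have h2 : Integrable fun x => f x + g x + h x := h1.add hh
  rw [integral_add h2 hk, integral_add h1 hh, integral_add hf hg]

lemma int_subsub {f g h k : E3 → ℂ} (hf : Integrable f) (hg : Integrable g) (hh : Integrable h)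
    (hk : Integrable k) : ∫ x, ((f x - g x) + (h x - k x))
      = ((∫ x, f x) - (∫ x, g x)) + ((∫ x, h x) - ∫ x, k x) := by
  have h1 : Integrable fun x => f x - g x := hf.sub hg
  have h2 : Integrable fun x => h x - k x := hh.sub hk
  rw [integral_add h1 h2, integral_sub hf hg, integral_sub hh hk]

/-- mixed derivatives under the integral -/
lemma int_mixed {p q : E3 → ℂ} (hp : ContDiff ℝ 2 p) (hq : ContDiff ℝ 1 q)
    (hps : HasCompactSupport p) (hqs : HasCompactSupport q) (v w : E3) :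
    ∫ x, fderiv ℝ p x v * fderiv ℝ q x w = ∫ x, fderiv ℝ p x w * fderiv ℝ q x v := by
  have hdp : ContDiff ℝ 1 (fderiv ℝ p) := hp.fderiv_right (by norm_num)
  have hdv : ∀ v, ContDiff ℝ 1 (fun x => fderiv ℝ p x v) := fun v => hdp.clm_apply contDiff_const
  have hcq : ∀ v, Continuous (fun x => fderiv ℝ q x v) := fun v =>
    (hq.continuous_fderiv (by simp)).clm_apply continuous_const
  have hcd : ∀ v w, Continuous (fun x => fderiv ℝ (fun x => fderiv ℝ p x v) x w) := fun v w =>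
    ((hdv v).continuous_fderiv (by simp)).clm_apply continuous_const
  have hpsv : ∀ v, HasCompactSupport (fun x => fderiv ℝ p x v) := fun v =>
    (hps.fderiv ℝ).comp_left (g := fun L : E3 →L[ℝ] ℂ => L v) (by simp)
  have key : ∀ v w, ∫ x, fderiv ℝ p x v * fderiv ℝ q x w
      = - ∫ x, fderiv ℝ (fun x => fderiv ℝ p x v) x w * q x := by
    intro v w
    refine integral_mul_fderiv_eq_neg_fderiv_mul_of_integrable ?_ ?_ ?_ ?_ ?_
    · exact ((hcd v w).mul hq.continuous).integrable_of_hasCompactSupport hqs.mul_left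
    · exact ((hdv v).continuous.mul (hcq w)).integrable_of_hasCompactSupport (hpsv v).mul_right
    · exact ((hdv v).continuous.mul hq.continuous).integrable_of_hasCompactSupport hqs.mul_left
    · intro x _; exact (hdv v).differentiable (by simp) x
    · intro x _; exact hq.differentiable (by simp) x
  rw [key v w, key w v]
  congr 1
  refine integral_congr_ae (ae_of_all _ fun x => ?_)
  have hsymm : IsSymmSndFDerivAt ℝ p x :=
    (hp.contDiffAt (x := x)).isSymmSndFDerivAt (by simp)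
  have hd : DifferentiableAt ℝ (fderiv ℝ p) x := hdp.differentiable (by simp) x
  have e : ∀ v w, fderiv ℝ (fun x => fderiv ℝ p x v) x w = fderiv ℝ (fderiv ℝ p) x w v := by
    intro v w
    rw [fderiv_clm_apply hd (differentiableAt_const v)]
    simp
  show fderiv ℝ (fun x => fderiv ℝ p x v) x w * q x = fderiv ℝ (fun x => fderiv ℝ p x w) x v * q x
  rw [e, e, hsymm.eq]

lemma fderiv_conj {a : E3 → ℂ} {x : E3} (ha : DifferentiableAt ℝ a x) (v : E3) :
    fderiv ℝ (fun y => conj (a y)) x v = conj (fderiv ℝ a x v) := by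
  have h1 : HasFDerivAt (fun y => conj (a y))
      ((Complex.conjCLE : ℂ →L[ℝ] ℂ).comp (fderiv ℝ a x)) x :=
    (Complex.conjCLE : ℂ →L[ℝ] ℂ).hasFDerivAt.comp x ha.hasFDerivAt
  rw [h1.fderiv]
  simp

/-- antisymmetric combination -/
noncomputable def JJ (A : E3 → E3) (j k : Fin 3) (a b : E3 → ℂ) (x : E3) : ℂ :=
  conj (cov A j a x) * cov A k b x - conj (cov A k a x) * cov A j b x

/-- The commutator identity. -/
lemma int_JJ {A : E3 → E3} (hA : ContDiff ℝ 1 A) {a b : E3 → ℂ} (ha : ContDiff ℝ 2 a)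
    (hb : ContDiff ℝ 2 b) (has : HasCompactSupport a) (hbs : HasCompactSupport b) (j k : Fin 3) :
    ∫ x, JJ A j k a b x = ∫ x, (-Complex.I) * (((Bf A j k x : ℝ) : ℂ) * (conj (a x) * b x)) := by
  have hac : ContDiff ℝ 2 (fun y => conj (a y)) := (Complex.conjCLE : ℂ →L[ℝ] ℂ).contDiff.comp ha
  have hacs : HasCompactSupport (fun y => conj (a y)) :=
    has.comp_left (g := fun z : ℂ => conj z) (by simp)
  have hg : ContDiff ℝ 2 (fun y => conj (a y) * b y) := hac.mul hb
  have hgs : HasCompactSupport (fun y => conj (a y) * b y) := hbs.mul_left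
  have hAk : ∀ k : Fin 3, ContDiff ℝ 1 (fun x => ((A x k : ℝ) : ℂ)) := fun k =>
    Complex.ofRealCLM.contDiff.comp ((EuclideanSpace.proj (𝕜 := ℝ) k).contDiff.comp hA)
  have hAkd : ∀ (k : Fin 3) (x v : E3), fderiv ℝ (fun x => ((A x k : ℝ) : ℂ)) x v
      = (((fderiv ℝ A x v) k : ℝ) : ℂ) := by
    intro k x v
    have h1 : HasFDerivAt (fun x => ((A x k : ℝ) : ℂ))
        (Complex.ofRealCLM.comp ((EuclideanSpace.proj (𝕜 := ℝ) k).comp (fderiv ℝ A x))) x :=
      Complex.ofRealCLM.hasFDerivAt.comp x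
        ((EuclideanSpace.proj (𝕜 := ℝ) k).hasFDerivAt.comp x
          ((hA.differentiable (by simp)) x).hasFDerivAt)
    rw [h1.fderiv]
    simp
  -- pointwise identity
  have hpt : ∀ x, JJ A j k a b x =
      (fderiv ℝ (fun y => conj (a y)) x (ee j) * fderiv ℝ b x (ee k)
        - fderiv ℝ (fun y => conj (a y)) x (ee k) * fderiv ℝ b x (ee j))
      + (Complex.I * (((A x k : ℝ) : ℂ) * fderiv ℝ (fun y => conj (a y) * b y) x (ee j))
        - Complex.I * (((A x j : ℝ) : ℂ) * fderiv ℝ (fun y => conj (a y) * b y) x (ee k))) := by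
    intro x
    have hda : DifferentiableAt ℝ a x := ha.differentiable (by simp) x
    have hdb : DifferentiableAt ℝ b x := hb.differentiable (by simp) x
    have hdac : DifferentiableAt ℝ (fun y => conj (a y)) x := hac.differentiable (by simp) x
    have hm : ∀ v, fderiv ℝ (fun y => conj (a y) * b y) x v
        = conj (a x) * fderiv ℝ b x v + conj (fderiv ℝ a x v) * b x := by
      intro v
      have h2 : HasFDerivAt (fun y => conj (a y) * b y) _ x :=
        hdac.hasFDerivAt.mul hdb.hasFDerivAt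
      rw [h2.fderiv]
      simp only [add_apply, smul_apply, smul_eq_mul, fderiv_conj hda]
      ring
    rw [hm, hm, fderiv_conj hda, fderiv_conj hda]
    unfold JJ cov
    simp only [map_add, map_mul, map_neg, Complex.conj_I, Complex.conj_ofReal]
    ring_nf
    simp only [Complex.I_sq]
    ring
  have c1 : ∀ v, Continuous (fun x => fderiv ℝ (fun y => conj (a y)) x v) := fun v =>
    (hac.continuous_fderiv (by norm_num)).clm_apply continuous_const
  have c2 : ∀ v, Continuous (fun x => fderiv ℝ b x v) := fun v =>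
    (hb.continuous_fderiv (by norm_num)).clm_apply continuous_const
  have c3 : ∀ v, Continuous (fun x => fderiv ℝ (fun y => conj (a y) * b y) x v) := fun v =>
    (hg.continuous_fderiv (by norm_num)).clm_apply continuous_const
  have c4 : ∀ v, Continuous (fun x => fderiv ℝ A x v) := fun v =>
    (hA.continuous_fderiv (by norm_num)).clm_apply continuous_const
  have s2 : ∀ v, HasCompactSupport (fun x => fderiv ℝ b x v) := fun v =>
    (hbs.fderiv ℝ).comp_left (g := fun L : E3 →L[ℝ] ℂ => L v) (by simp)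
  have s3 : ∀ v, HasCompactSupport (fun x => fderiv ℝ (fun y => conj (a y) * b y) x v) := fun v =>
    (hgs.fderiv ℝ).comp_left (g := fun L : E3 →L[ℝ] ℂ => L v) (by simp)
  have i1 : ∀ v w, Integrable fun x => fderiv ℝ (fun y => conj (a y)) x v * fderiv ℝ b x w :=
    fun v w => ((c1 v).mul (c2 w)).integrable_of_hasCompactSupport (s2 w).mul_left
  have i2 : ∀ (m : Fin 3) v, Integrable fun x =>
      Complex.I * (((A x m : ℝ) : ℂ) * fderiv ℝ (fun y => conj (a y) * b y) x v) :=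
    fun m v => (continuous_const.mul ((hAk m).continuous.mul (c3 v))).integrable_of_hasCompactSupport
      ((s3 v).mul_left.mul_left)
  have hibp : ∀ (m : Fin 3) (v : E3),
      ∫ x, ((A x m : ℝ) : ℂ) * fderiv ℝ (fun y => conj (a y) * b y) x v
      = - ∫ x, (((fderiv ℝ A x v) m : ℝ) : ℂ) * (conj (a x) * b x) := by
    intro m v
    have h := integral_mul_fderiv_eq_neg_fderiv_mul_of_integrable (μ := (volume : Measure E3))
      (f := fun x => ((A x m : ℝ) : ℂ)) (g := fun y => conj (a y) * b y) (v := v) ?_ ?_ ?_ ?_ ?_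
    · rw [h]
      simp only [hAkd]
    · simp only [hAkd]
      have : Continuous fun x => (((fderiv ℝ A x v) m : ℝ) : ℂ) :=
        Complex.continuous_ofReal.comp ((EuclideanSpace.proj (𝕜 := ℝ) m).continuous.comp (c4 v))
      exact (this.mul hg.continuous).integrable_of_hasCompactSupport hgs.mul_left
    · exact ((hAk m).continuous.mul (c3 v)).integrable_of_hasCompactSupport (s3 v).mul_left
    · exact ((hAk m).continuous.mul hg.continuous).integrable_of_hasCompactSupport hgs.mul_left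
    · intro x _; exact (hAk m).differentiable (by simp) x
    · intro x _; exact hg.differentiable (by simp) x
  simp only [hpt]
  rw [int_subsub (i1 _ _) (i1 _ _) (i2 _ _) (i2 _ _),
    int_mixed hac (hb.of_le (by norm_num)) hacs hbs (ee j) (ee k), sub_self, zero_add,
    integral_const_mul, integral_const_mul, integral_const_mul, hibp, hibp]
  have c5 : ∀ (m : Fin 3) (v : E3), Integrable fun x =>
      (((fderiv ℝ A x v) m : ℝ) : ℂ) * (conj (a x) * b x) := by
    intro m v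
    have : Continuous fun x => (((fderiv ℝ A x v) m : ℝ) : ℂ) :=
      Complex.continuous_ofReal.comp ((EuclideanSpace.proj (𝕜 := ℝ) m).continuous.comp (c4 v))
    exact (this.mul hg.continuous).integrable_of_hasCompactSupport hgs.mul_left
  have e5 : ∫ x, ((Bf A j k x : ℝ) : ℂ) * (conj (a x) * b x)
      = (∫ x, (((fderiv ℝ A x (ee j)) k : ℝ) : ℂ) * (conj (a x) * b x))
        - ∫ x, (((fderiv ℝ A x (ee k)) j : ℝ) : ℂ) * (conj (a x) * b x) := by
    rw [← integral_sub (c5 _ _) (c5 _ _)]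
    refine integral_congr_ae (ae_of_all _ fun x => ?_)
    show ((Bf A j k x : ℝ) : ℂ) * (conj (a x) * b x)
      = (((fderiv ℝ A x (ee j)) k : ℝ) : ℂ) * (conj (a x) * b x)
        - (((fderiv ℝ A x (ee k)) j : ℝ) : ℂ) * (conj (a x) * b x)
    unfold Bf
    push_cast
    ring
  rw [e5]
  ring

/-- spinor Dirac-Pauli operator, upper component -/
noncomputable def DU (A : E3 → E3) (f0 f1 : E3 → ℂ) (x : E3) : ℂ :=
  cov A 0 f1 x - Complex.I * cov A 1 f1 x + cov A 2 f0 x

/-- spinor Dirac-Pauli operator, lower component -/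
noncomputable def DL (A : E3 → E3) (f0 f1 : E3 → ℂ) (x : E3) : ℂ :=
  cov A 0 f0 x + Complex.I * cov A 1 f0 x - cov A 2 f1 x

lemma algebra_id (p0 p1 p2 q0 q1 q2 : ℂ) :
    ‖q0 - Complex.I * q1 + p2‖ ^ 2 + ‖p0 + Complex.I * p1 - q2‖ ^ 2
      - ((‖p0‖ ^ 2 + ‖p1‖ ^ 2 + ‖p2‖ ^ 2) + (‖q0‖ ^ 2 + ‖q1‖ ^ 2 + ‖q2‖ ^ 2))
    = ((-Complex.I) * (conj q0 * q1 - conj q1 * q0) + Complex.I * (conj p0 * p1 - conj p1 * p0)
      + 2 * (conj q0 * p2 - conj q2 * p0) + 2 * Complex.I * (conj q1 * p2 - conj q2 * p1)).re := by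
  simp only [Complex.sq_norm, Complex.normSq_apply]
  simp
  ring

/-- Lichnerowicz-type inequality. -/
lemma lichnerowicz {A : E3 → E3} (hA : ContDiff ℝ 1 A) {f0 f1 : E3 → ℂ} (h0 : ContDiff ℝ 2 f0)
    (h1 : ContDiff ℝ 2 f1) (s0 : HasCompactSupport f0) (s1 : HasCompactSupport f1) :
    ∫ x, (dsq A f0 x + dsq A f1 x) ≤ (∫ x, (‖DU A f0 f1 x‖ ^ 2 + ‖DL A f0 f1 x‖ ^ 2))
      + ∫ x, Bn A x * (‖f0 x‖ ^ 2 + ‖f1 x‖ ^ 2) := by
  have hAc := hA.continuous
  have c0 : ∀ k, Continuous (cov A k f0) := continuous_cov hAc (h0.of_le (by norm_num))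
  have c1 : ∀ k, Continuous (cov A k f1) := continuous_cov hAc (h1.of_le (by norm_num))
  have t0 : ∀ k, HasCompactSupport (cov A k f0) := compact_cov s0
  have t1 : ∀ k, HasCompactSupport (cov A k f1) := compact_cov s1
  -- supports
  have hsup : ∀ {E : Type} [NormedAddCommGroup E] (F : E3 → E),
      (∀ x, x ∉ tsupport f0 → x ∉ tsupport f1 → F x = 0) → HasCompactSupport F := by
    intro E _ F hF
    refine HasCompactSupport.of_support_subset_isCompact (s0.isCompact.union s1.isCompact)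
      fun x hx => ?_
    by_contra h
    rw [Set.mem_union, not_or] at h
    exact hx (hF x h.1 h.2)
  have z0 : ∀ x, x ∉ tsupport f0 → f0 x = 0 := fun x hx => image_eq_zero_of_notMem_tsupport hx
  have z1 : ∀ x, x ∉ tsupport f1 → f1 x = 0 := fun x hx => image_eq_zero_of_notMem_tsupport hx
  have hBfc : ∀ j k, Continuous (Bf A j k) := by
    intro j k
    have c4 : ∀ v, Continuous (fun x => fderiv ℝ A x v) := fun v =>
      (hA.continuous_fderiv (by norm_num)).clm_apply continuous_const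
    unfold Bf
    exact ((EuclideanSpace.proj (𝕜 := ℝ) k).continuous.comp (c4 _)).sub
      ((EuclideanSpace.proj (𝕜 := ℝ) j).continuous.comp (c4 _))
  have hBnc : Continuous (Bn A) := by
    unfold Bn
    exact (((hBfc 0 1).abs.add (hBfc 0 2).abs)).add (hBfc 1 2).abs
  have hf0c := h0.continuous
  have hf1c := h1.continuous
  let G : E3 → ℂ := fun x => (-Complex.I) * JJ A 0 1 f1 f1 x + Complex.I * JJ A 0 1 f0 f0 x
      + 2 * JJ A 0 2 f1 f0 x + 2 * Complex.I * JJ A 1 2 f1 f0 x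
  let H : E3 → ℂ := fun x =>
      (-Complex.I) * ((-Complex.I) * (((Bf A 0 1 x : ℝ) : ℂ) * (conj (f1 x) * f1 x)))
      + Complex.I * ((-Complex.I) * (((Bf A 0 1 x : ℝ) : ℂ) * (conj (f0 x) * f0 x)))
      + 2 * ((-Complex.I) * (((Bf A 0 2 x : ℝ) : ℂ) * (conj (f1 x) * f0 x)))
      + 2 * Complex.I * ((-Complex.I) * (((Bf A 1 2 x : ℝ) : ℂ) * (conj (f1 x) * f0 x)))
  have jc : ∀ (j k : Fin 3) (a b : E3 → ℂ), (∀ k, Continuous (cov A k a)) →
      (∀ k, Continuous (cov A k b)) → Continuous (JJ A j k a b) := by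
    intro j k a b ha hb
    unfold JJ
    exact ((Complex.continuous_conj.comp (ha j)).mul (hb k)).sub
      ((Complex.continuous_conj.comp (ha k)).mul (hb j))
  have js : ∀ (j k : Fin 3) (a b : E3 → ℂ), (∀ k, HasCompactSupport (cov A k b)) →
      HasCompactSupport (JJ A j k a b) := by
    intro j k a b hb
    unfold JJ
    exact ((hb k).mul_left (f := fun x => conj (cov A j a x))).sub
      ((hb j).mul_left (f := fun x => conj (cov A k a x)))
  have ji11 : Integrable (JJ A 0 1 f1 f1) :=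
    (jc 0 1 f1 f1 c1 c1).integrable_of_hasCompactSupport (js 0 1 f1 f1 t1)
  have ji00 : Integrable (JJ A 0 1 f0 f0) :=
    (jc 0 1 f0 f0 c0 c0).integrable_of_hasCompactSupport (js 0 1 f0 f0 t0)
  have ji02 : Integrable (JJ A 0 2 f1 f0) :=
    (jc 0 2 f1 f0 c1 c0).integrable_of_hasCompactSupport (js 0 2 f1 f0 t0)
  have ji12 : Integrable (JJ A 1 2 f1 f0) :=
    (jc 1 2 f1 f0 c1 c0).integrable_of_hasCompactSupport (js 1 2 f1 f0 t0)
  have bi : ∀ (j k : Fin 3) (a b : E3 → ℂ), Continuous a → Continuous b → HasCompactSupport b →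
      Integrable fun x => (-Complex.I) * (((Bf A j k x : ℝ) : ℂ) * (conj (a x) * b x)) := by
    intro j k a b ha hb hbs
    have := hBfc j k
    refine Continuous.integrable_of_hasCompactSupport ?_ (hbs.mul_left.mul_left.mul_left)
    exact continuous_const.mul ((Complex.continuous_ofReal.comp this).mul
      ((Complex.continuous_conj.comp ha).mul hb))
  have hGH : ∫ x, G x = ∫ x, H x := by
    have e1 : ∫ x, G x = (-Complex.I) * (∫ x, JJ A 0 1 f1 f1 x) + Complex.I * (∫ x, JJ A 0 1 f0 f0 x)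
        + 2 * (∫ x, JJ A 0 2 f1 f0 x) + 2 * Complex.I * (∫ x, JJ A 1 2 f1 f0 x) := by
      simp only [G]
      rw [int_add4 (ji11.const_mul _) (ji00.const_mul _) (ji02.const_mul _) (ji12.const_mul _)]
      simp only [integral_const_mul]
    have b11 := bi 0 1 f1 f1 hf1c hf1c s1
    have b00 := bi 0 1 f0 f0 hf0c hf0c s0
    have b02 := bi 0 2 f1 f0 hf1c hf0c s0
    have b12 := bi 1 2 f1 f0 hf1c hf0c s0
    have e2 : ∫ x, H x =
        (-Complex.I) * (∫ x, (-Complex.I) * (((Bf A 0 1 x : ℝ) : ℂ) * (conj (f1 x) * f1 x)))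
      + Complex.I * (∫ x, (-Complex.I) * (((Bf A 0 1 x : ℝ) : ℂ) * (conj (f0 x) * f0 x)))
      + 2 * (∫ x, (-Complex.I) * (((Bf A 0 2 x : ℝ) : ℂ) * (conj (f1 x) * f0 x)))
      + 2 * Complex.I * (∫ x, (-Complex.I) * (((Bf A 1 2 x : ℝ) : ℂ) * (conj (f1 x) * f0 x))) := by
      simp only [H]
      rw [int_add4 (b11.const_mul _) (b00.const_mul _) (b02.const_mul _) (b12.const_mul _)]
      rw [integral_const_mul (-Complex.I) (fun x => (-Complex.I) * (((Bf A 0 1 x : ℝ) : ℂ) * (conj (f1 x) * f1 x))),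
        integral_const_mul Complex.I (fun x => (-Complex.I) * (((Bf A 0 1 x : ℝ) : ℂ) * (conj (f0 x) * f0 x))),
        integral_const_mul 2 (fun x => (-Complex.I) * (((Bf A 0 2 x : ℝ) : ℂ) * (conj (f1 x) * f0 x))),
        integral_const_mul (2 * Complex.I) (fun x => (-Complex.I) * (((Bf A 1 2 x : ℝ) : ℂ) * (conj (f1 x) * f0 x)))]
    rw [e1, e2, int_JJ hA h1 h1 s1 s1, int_JJ hA h0 h0 s0 s0, int_JJ hA h1 h0 s1 s0,
      int_JJ hA h1 h0 s1 s0]
  have hGc : Continuous G := by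
    have := jc 0 1 f1 f1 c1 c1
    have := jc 0 1 f0 f0 c0 c0
    have := jc 0 2 f1 f0 c1 c0
    have := jc 1 2 f1 f0 c1 c0
    fun_prop
  have hGi : Integrable G := ((((ji11.const_mul _).add (ji00.const_mul _)).add
    (ji02.const_mul _))).add (ji12.const_mul _)
  have hHi : Integrable H := ((((bi 0 1 f1 f1 hf1c hf1c s1).const_mul _).add
    ((bi 0 1 f0 f0 hf0c hf0c s0).const_mul _)).add ((bi 0 2 f1 f0 hf1c hf0c s0).const_mul _)).add
    ((bi 1 2 f1 f0 hf1c hf0c s0).const_mul _)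
  have hre : ∫ x, (G x).re = ∫ x, (H x).re := by
    have e1 : ∫ x, (G x).re = (∫ x, G x).re := integral_re hGi
    have e2 : ∫ x, (H x).re = (∫ x, H x).re := integral_re hHi
    rw [e1, e2, hGH]
  have hQ : ∀ x, (‖DU A f0 f1 x‖ ^ 2 + ‖DL A f0 f1 x‖ ^ 2) - (dsq A f0 x + dsq A f1 x)
      = (G x).re := by
    intro x
    have := algebra_id (cov A 0 f0 x) (cov A 1 f0 x) (cov A 2 f0 x) (cov A 0 f1 x) (cov A 1 f1 x)
      (cov A 2 f1 x)
    simp only [G, JJ, DU, DL, dsq, Fin.sum_univ_three]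
    rw [← this]
  have hHb : ∀ x, -(Bn A x * (‖f0 x‖ ^ 2 + ‖f1 x‖ ^ 2)) ≤ (H x).re := by
    intro x
    have e1 : (H x).re = -(Bf A 0 1 x * ‖f1 x‖ ^ 2) + Bf A 0 1 x * ‖f0 x‖ ^ 2
        + Bf A 0 2 x * (2 * (conj (f1 x) * f0 x).im) + Bf A 1 2 x * (2 * (conj (f1 x) * f0 x).re) := by
      simp only [H, Complex.sq_norm, Complex.normSq_apply]
      simp
      ring
    rw [e1]
    have n1 : |(conj (f1 x) * f0 x).im| ≤ ‖f1 x‖ * ‖f0 x‖ := by
      refine (Complex.abs_im_le_norm _).trans ?_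
      simp
    have n2 : |(conj (f1 x) * f0 x).re| ≤ ‖f1 x‖ * ‖f0 x‖ := by
      refine (Complex.abs_re_le_norm _).trans ?_
      simp
    have m1 : 2 * (‖f1 x‖ * ‖f0 x‖) ≤ ‖f0 x‖ ^ 2 + ‖f1 x‖ ^ 2 := by
      nlinarith [sq_nonneg (‖f1 x‖ - ‖f0 x‖)]
    have k1 : -(|Bf A 0 2 x| * (‖f0 x‖ ^ 2 + ‖f1 x‖ ^ 2))
        ≤ Bf A 0 2 x * (2 * (conj (f1 x) * f0 x).im) := by
      have h1 : |Bf A 0 2 x * (2 * (conj (f1 x) * f0 x).im)|
          ≤ |Bf A 0 2 x| * (‖f0 x‖ ^ 2 + ‖f1 x‖ ^ 2) := by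
        rw [abs_mul]
        refine mul_le_mul_of_nonneg_left ?_ (abs_nonneg _)
        rw [abs_mul, abs_two]
        linarith
      linarith [(abs_le.mp h1).1]
    have k2 : -(|Bf A 1 2 x| * (‖f0 x‖ ^ 2 + ‖f1 x‖ ^ 2))
        ≤ Bf A 1 2 x * (2 * (conj (f1 x) * f0 x).re) := by
      have h1 : |Bf A 1 2 x * (2 * (conj (f1 x) * f0 x).re)|
          ≤ |Bf A 1 2 x| * (‖f0 x‖ ^ 2 + ‖f1 x‖ ^ 2) := by
        rw [abs_mul]
        refine mul_le_mul_of_nonneg_left ?_ (abs_nonneg _)
        rw [abs_mul, abs_two]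
        linarith
      linarith [(abs_le.mp h1).1]
    have k3 : -(|Bf A 0 1 x| * (‖f0 x‖ ^ 2 + ‖f1 x‖ ^ 2))
        ≤ -(Bf A 0 1 x * ‖f1 x‖ ^ 2) + Bf A 0 1 x * ‖f0 x‖ ^ 2 := by
      have h1 := le_abs_self (Bf A 0 1 x)
      have h2 := neg_abs_le (Bf A 0 1 x)
      nlinarith [sq_nonneg ‖f0 x‖, sq_nonneg ‖f1 x‖]
    unfold Bn
    linarith
  have hDi : Integrable fun x => dsq A f0 x + dsq A f1 x :=
    ((continuous_dsq hAc (h0.of_le (by norm_num))).integrable_of_hasCompactSupport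
      (compact_dsq s0)).add ((continuous_dsq hAc (h1.of_le (by norm_num))).integrable_of_hasCompactSupport
      (compact_dsq s1))
  have hDDi : Integrable fun x => ‖DU A f0 f1 x‖ ^ 2 + ‖DL A f0 f1 x‖ ^ 2 := by
    have h : Integrable fun x => (G x).re + (dsq A f0 x + dsq A f1 x) := hGi.re.add hDi
    refine h.congr (ae_of_all _ fun x => ?_)
    show (G x).re + (dsq A f0 x + dsq A f1 x) = _
    rw [← hQ x]; ring
  have hBi : Integrable fun x => Bn A x * (‖f0 x‖ ^ 2 + ‖f1 x‖ ^ 2) := by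
    refine Continuous.integrable_of_hasCompactSupport (by fun_prop) (hsup _ fun x a0 a1 => ?_)
    simp [z0 x a0, z1 x a1]
  have e3 : (∫ x, (‖DU A f0 f1 x‖ ^ 2 + ‖DL A f0 f1 x‖ ^ 2)) - ∫ x, (dsq A f0 x + dsq A f1 x)
      = ∫ x, (H x).re := by
    rw [← integral_sub hDDi hDi, ← hre]
    exact integral_congr_ae (ae_of_all _ fun x => hQ x)
  have e4 : -(∫ x, Bn A x * (‖f0 x‖ ^ 2 + ‖f1 x‖ ^ 2)) ≤ ∫ x, (H x).re := by
    rw [← integral_neg]
    exact integral_mono hBi.neg hHi.re hHb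
  linarith

end Pool.Agent.H7R3.Mag
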