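import Mathlib
import Pool.Agent.H7R3.Mag.MF
import Pool.Agent.H7R3.Mag.MG

set_option autoImplicit false

open MeasureTheory Filter Topology Set Metric
open scoped ENNReal NNReal ContDiff ComplexConjugate

namespace Pool.Agent.H7R3.Mag

/-- the square root weight -/
lemma sqrt_weight {ρ : E3 → ℝ} (hρs : ContDiff ℝ ∞ ρ) (hl : LipschitzWith 1 ρ)
    (hρ : ∀ x, 0 < ρ x) :
    ContDiff ℝ ∞ (fun x => √(ρ x)) ∧
    ∀ x, ‖fderiv ℝ (fun x => √(ρ x)) x‖ ^ 2 ≤ (ρ x)⁻¹ / 4 := by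
  refine ⟨hρs.sqrt fun x => (hρ x).ne', fun x => ?_⟩
  have h1 : HasFDerivAt ρ (fderiv ℝ ρ x) x := (hρs.differentiable (by simp) x).hasFDerivAt
  have h2 := h1.sqrt (hρ x).ne'
  rw [h2.fderiv, norm_smul, mul_pow, Real.norm_eq_abs, sq_abs, div_pow, mul_pow,
    Real.sq_sqrt (hρ x).le]
  have h3 : ‖fderiv ℝ ρ x‖ ≤ 1 := by
    have := norm_fderiv_le_of_lipschitz ℝ (x₀ := x) hl
    simpa using this
  have h4 : ‖fderiv ℝ ρ x‖ ^ 2 ≤ 1 := pow_le_one₀ (norm_nonneg _) h3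
  have h5 := hρ x
  calc 1 ^ 2 / (2 ^ 2 * ρ x) * ‖fderiv ℝ ρ x‖ ^ 2 ≤ 1 ^ 2 / (2 ^ 2 * ρ x) * 1 := by gcongr
    _ = (ρ x)⁻¹ / 4 := by field_simp; norm_num

lemma dsq_mul_ge (A : E3 → E3) {w : E3 → ℝ} {f : E3 → ℂ} {x : E3}
    (hw : DifferentiableAt ℝ w x) (hf : DifferentiableAt ℝ f x) :
    w x ^ 2 * dsq A f x ≤ 2 * dsq A (fun y => (w y : ℂ) * f y) x
      + 2 * (‖fderiv ℝ w x‖ ^ 2 * ‖f x‖ ^ 2) := by
  have h1 : ∀ k, w x ^ 2 * ‖cov A k f x‖ ^ 2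
      ≤ 2 * ‖cov A k (fun y => (w y : ℂ) * f y) x‖ ^ 2
        + 2 * ((fderiv ℝ w x (ee k)) ^ 2 * ‖f x‖ ^ 2) := by
    intro k
    have h0 : (w x : ℂ) * cov A k f x = cov A k (fun y => (w y : ℂ) * f y) x
        + Complex.I * ((fderiv ℝ w x (ee k) : ℝ) : ℂ) * f x := by
      rw [cov_mul A k hw hf]; ring
    have h3 : ‖(w x : ℂ) * cov A k f x‖ = |w x| * ‖cov A k f x‖ := by simp
    have h4 : ‖Complex.I * ((fderiv ℝ w x (ee k) : ℝ) : ℂ) * f x‖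
        = |fderiv ℝ w x (ee k)| * ‖f x‖ := by simp
    have h2 := norm_add_le (cov A k (fun y => (w y : ℂ) * f y) x)
      (Complex.I * ((fderiv ℝ w x (ee k) : ℝ) : ℂ) * f x)
    rw [← h0, h3, h4] at h2
    have h5 : w x ^ 2 * ‖cov A k f x‖ ^ 2 = (|w x| * ‖cov A k f x‖) ^ 2 := by
      rw [mul_pow, sq_abs]
    have h6 : (fderiv ℝ w x (ee k)) ^ 2 * ‖f x‖ ^ 2 = (|fderiv ℝ w x (ee k)| * ‖f x‖) ^ 2 := by
      rw [mul_pow, sq_abs]
    rw [h5, h6]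
    calc (|w x| * ‖cov A k f x‖) ^ 2
        ≤ (‖cov A k (fun y => (w y : ℂ) * f y) x‖ + |fderiv ℝ w x (ee k)| * ‖f x‖) ^ 2 := by
          gcongr
      _ ≤ _ := by
          nlinarith [sq_nonneg (‖cov A k (fun y => (w y : ℂ) * f y) x‖
            - |fderiv ℝ w x (ee k)| * ‖f x‖)]
  calc w x ^ 2 * dsq A f x = ∑ k, w x ^ 2 * ‖cov A k f x‖ ^ 2 := by
        unfold dsq; rw [Finset.mul_sum]
    _ ≤ ∑ k, (2 * ‖cov A k (fun y => (w y : ℂ) * f y) x‖ ^ 2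
        + 2 * ((fderiv ℝ w x (ee k)) ^ 2 * ‖f x‖ ^ 2)) := Finset.sum_le_sum fun k _ => h1 k
    _ = 2 * dsq A (fun y => (w y : ℂ) * f y) x
        + 2 * ((∑ k, (fderiv ℝ w x (ee k)) ^ 2) * ‖f x‖ ^ 2) := by
        rw [Finset.sum_add_distrib, ← Finset.mul_sum, ← Finset.mul_sum, ← Finset.sum_mul]
        rfl
    _ ≤ _ := by
        have := sum_sq_le (fderiv ℝ w x)
        gcongr

lemma pauli_norm (c0 c1 c2 : ℝ) (a b : ℂ) :
    ‖(c0 : ℂ) * b - Complex.I * ((c1 : ℂ) * b) + (c2 : ℂ) * a‖ ^ 2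
      + ‖(c0 : ℂ) * a + Complex.I * ((c1 : ℂ) * a) - (c2 : ℂ) * b‖ ^ 2
    = (c0 ^ 2 + c1 ^ 2 + c2 ^ 2) * (‖a‖ ^ 2 + ‖b‖ ^ 2) := by
  simp only [Complex.sq_norm, Complex.normSq_apply]
  simp
  ring

lemma dirac_mul_le (A : E3 → E3) {w : E3 → ℝ} {f0 f1 : E3 → ℂ} {x : E3}
    (hw : DifferentiableAt ℝ w x) (h0 : DifferentiableAt ℝ f0 x) (h1 : DifferentiableAt ℝ f1 x) :
    ‖DU A (fun y => (w y : ℂ) * f0 y) (fun y => (w y : ℂ) * f1 y) x‖ ^ 2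
      + ‖DL A (fun y => (w y : ℂ) * f0 y) (fun y => (w y : ℂ) * f1 y) x‖ ^ 2
    ≤ 2 * (w x ^ 2 * (‖DU A f0 f1 x‖ ^ 2 + ‖DL A f0 f1 x‖ ^ 2))
      + 2 * (‖fderiv ℝ w x‖ ^ 2 * (‖f0 x‖ ^ 2 + ‖f1 x‖ ^ 2)) := by
  set c0 := fderiv ℝ w x (ee 0)
  set c1 := fderiv ℝ w x (ee 1)
  set c2 := fderiv ℝ w x (ee 2)
  have eU : DU A (fun y => (w y : ℂ) * f0 y) (fun y => (w y : ℂ) * f1 y) x
      = (w x : ℂ) * DU A f0 f1 x - Complex.I * ((c0 : ℂ) * f1 x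
        - Complex.I * ((c1 : ℂ) * f1 x) + (c2 : ℂ) * f0 x) := by
    unfold DU
    rw [cov_mul A 0 hw h1, cov_mul A 1 hw h1, cov_mul A 2 hw h0]
    ring
  have eL : DL A (fun y => (w y : ℂ) * f0 y) (fun y => (w y : ℂ) * f1 y) x
      = (w x : ℂ) * DL A f0 f1 x - Complex.I * ((c0 : ℂ) * f0 x
        + Complex.I * ((c1 : ℂ) * f0 x) - (c2 : ℂ) * f1 x) := by
    unfold DL
    rw [cov_mul A 0 hw h0, cov_mul A 1 hw h0, cov_mul A 2 hw h1]
    ring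
  have hsub : ∀ a b : ℂ, ‖(w x : ℂ) * a - Complex.I * b‖ ^ 2
      ≤ 2 * (w x ^ 2 * ‖a‖ ^ 2) + 2 * ‖b‖ ^ 2 := by
    intro a b
    have h2 := norm_sub_le ((w x : ℂ) * a) (Complex.I * b)
    have h3 : ‖(w x : ℂ) * a‖ = |w x| * ‖a‖ := by simp
    have h4 : ‖Complex.I * b‖ = ‖b‖ := by simp
    rw [h3, h4] at h2
    have h5 : w x ^ 2 * ‖a‖ ^ 2 = (|w x| * ‖a‖) ^ 2 := by rw [mul_pow, sq_abs]
    rw [h5]
    calc ‖(w x : ℂ) * a - Complex.I * b‖ ^ 2 ≤ (|w x| * ‖a‖ + ‖b‖) ^ 2 := by gcongr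
      _ ≤ _ := by nlinarith [sq_nonneg (|w x| * ‖a‖ - ‖b‖)]
  have hP := pauli_norm c0 c1 c2 (f0 x) (f1 x)
  have hc : c0 ^ 2 + c1 ^ 2 + c2 ^ 2 ≤ ‖fderiv ℝ w x‖ ^ 2 := by
    have := sum_sq_le (fderiv ℝ w x)
    rwa [Fin.sum_univ_three] at this
  rw [eU, eL]
  have k1 := hsub (DU A f0 f1 x) ((c0 : ℂ) * f1 x - Complex.I * ((c1 : ℂ) * f1 x) + (c2 : ℂ) * f0 x)
  have k2 := hsub (DL A f0 f1 x) ((c0 : ℂ) * f0 x + Complex.I * ((c1 : ℂ) * f0 x) - (c2 : ℂ) * f1 x)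
  have k3 : (c0 ^ 2 + c1 ^ 2 + c2 ^ 2) * (‖f0 x‖ ^ 2 + ‖f1 x‖ ^ 2)
      ≤ ‖fderiv ℝ w x‖ ^ 2 * (‖f0 x‖ ^ 2 + ‖f1 x‖ ^ 2) := by gcongr
  linarith

lemma hsup2 {E : Type*} [NormedAddCommGroup E] {f0 f1 : E3 → ℂ} (s0 : HasCompactSupport f0)
    (s1 : HasCompactSupport f1) (F : E3 → E)
    (hF : ∀ x, x ∉ tsupport f0 → x ∉ tsupport f1 → F x = 0) : HasCompactSupport F := by
  refine HasCompactSupport.of_support_subset_isCompact (s0.isCompact.union s1.isCompact)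
    fun x hx => ?_
  by_contra h
  rw [Set.mem_union, not_or] at h
  exact hx (hF x h.1 h.2)

lemma continuous_DU {A : E3 → E3} (hA : Continuous A) {f0 f1 : E3 → ℂ} (h0 : ContDiff ℝ 1 f0)
    (h1 : ContDiff ℝ 1 f1) : Continuous (DU A f0 f1) := by
  unfold DU
  exact ((continuous_cov hA h1 0).sub (continuous_const.mul (continuous_cov hA h1 1))).add
    (continuous_cov hA h0 2)

lemma continuous_DL {A : E3 → E3} (hA : Continuous A) {f0 f1 : E3 → ℂ} (h0 : ContDiff ℝ 1 f0)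
    (h1 : ContDiff ℝ 1 f1) : Continuous (DL A f0 f1) := by
  unfold DL
  exact ((continuous_cov hA h0 0).add (continuous_const.mul (continuous_cov hA h0 1))).sub
    (continuous_cov hA h1 2)

lemma continuous_Bf {A : E3 → E3} (hA : ContDiff ℝ 1 A) (j k : Fin 3) : Continuous (Bf A j k) := by
  have c4 : ∀ v, Continuous (fun x => fderiv ℝ A x v) := fun v =>
    (hA.continuous_fderiv (by norm_num)).clm_apply continuous_const
  unfold Bf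
  exact ((EuclideanSpace.proj (𝕜 := ℝ) k).continuous.comp (c4 _)).sub
    ((EuclideanSpace.proj (𝕜 := ℝ) j).continuous.comp (c4 _))

lemma continuous_Bn {A : E3 → E3} (hA : ContDiff ℝ 1 A) : Continuous (Bn A) := by
  unfold Bn
  exact (((continuous_Bf hA 0 1).abs.add (continuous_Bf hA 0 2).abs)).add
    (continuous_Bf hA 1 2).abs

lemma compact_Bf {A : E3 → E3} (hs : HasCompactSupport A) (j k : Fin 3) :
    HasCompactSupport (Bf A j k) := by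
  refine HasCompactSupport.of_support_subset_isCompact hs.isCompact fun x hx => ?_
  by_contra h
  apply hx
  have h2 : x ∉ tsupport (fderiv ℝ A) := fun h' => h (tsupport_fderiv_subset ℝ h')
  have : fderiv ℝ A x = 0 := image_eq_zero_of_notMem_tsupport h2
  simp [Bf, this]

lemma compact_Bn {A : E3 → E3} (hs : HasCompactSupport A) : HasCompactSupport (Bn A) := by
  refine HasCompactSupport.of_support_subset_isCompact hs.isCompact fun x hx => ?_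
  by_contra h
  apply hx
  have h2 : x ∉ tsupport (fderiv ℝ A) := fun h' => h (tsupport_fderiv_subset ℝ h')
  have : fderiv ℝ A x = 0 := image_eq_zero_of_notMem_tsupport h2
  simp [Bn, Bf, this]

/-- Weighted Lichnerowicz inequality. -/
lemma weighted_lich {A : E3 → E3} (hA : ContDiff ℝ ∞ A) {f0 f1 : E3 → ℂ} (h0 : ContDiff ℝ ∞ f0)
    (h1 : ContDiff ℝ ∞ f1) (s0 : HasCompactSupport f0) (s1 : HasCompactSupport f1)
    {ρ : E3 → ℝ} (hρs : ContDiff ℝ ∞ ρ) (hl : LipschitzWith 1 ρ) (hρ : ∀ x, 0 < ρ x) :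
    ∫ x, ρ x * (dsq A f0 x + dsq A f1 x) ≤
      4 * (∫ x, ρ x * (‖DU A f0 f1 x‖ ^ 2 + ‖DL A f0 f1 x‖ ^ 2))
      + 3 / 2 * (∫ x, (ρ x)⁻¹ * (‖f0 x‖ ^ 2 + ‖f1 x‖ ^ 2))
      + 2 * ∫ x, Bn A x * (ρ x * (‖f0 x‖ ^ 2 + ‖f1 x‖ ^ 2)) := by
  obtain ⟨hw, hwd⟩ := sqrt_weight hρs hl hρ
  set w : E3 → ℝ := fun x => √(ρ x) with hwdef
  have hw2 : ∀ x, w x ^ 2 = ρ x := fun x => Real.sq_sqrt (hρ x).le
  let g0 : E3 → ℂ := fun y => (w y : ℂ) * f0 y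
  let g1 : E3 → ℂ := fun y => (w y : ℂ) * f1 y
  have hwC : ContDiff ℝ ∞ (fun y => (w y : ℂ)) := Complex.ofRealCLM.contDiff.comp hw
  have hg0 : ContDiff ℝ ∞ g0 := hwC.mul h0
  have hg1 : ContDiff ℝ ∞ g1 := hwC.mul h1
  have t0 : HasCompactSupport g0 := s0.mul_left
  have t1 : HasCompactSupport g1 := s1.mul_left
  have hAc := hA.continuous
  have two : ((2:ℕ∞) : WithTop ℕ∞) ≤ ((⊤ : ℕ∞) : WithTop ℕ∞) := by exact_mod_cast le_top
  have one : ((1:ℕ∞) : WithTop ℕ∞) ≤ ((⊤ : ℕ∞) : WithTop ℕ∞) := by exact_mod_cast le_top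
  have hL := lichnerowicz (hA.of_le one) (hg0.of_le two) (hg1.of_le two) t0 t1
  have z0 : ∀ x, x ∉ tsupport f0 → f0 x = 0 := fun x hx => image_eq_zero_of_notMem_tsupport hx
  have z1 : ∀ x, x ∉ tsupport f1 → f1 x = 0 := fun x hx => image_eq_zero_of_notMem_tsupport hx
  have d0 : ∀ x, x ∉ tsupport f0 → dsq A f0 x = 0 := fun x hx => by
    unfold dsq; simp [cov_support _ hx]
  have d1 : ∀ x, x ∉ tsupport f1 → dsq A f1 x = 0 := fun x hx => by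
    unfold dsq; simp [cov_support _ hx]
  have sg : ∀ (f : E3 → ℂ) x, x ∉ tsupport f → x ∉ tsupport (fun y => (w y : ℂ) * f y) := by
    intro f x hx h
    exact hx ((tsupport_mul_subset_right) h)
  have hρc := hρs.continuous
  have hinv : Continuous fun x => (ρ x)⁻¹ := hρc.inv₀ fun x => (hρ x).ne'
  have c0 := continuous_dsq hAc (h0.of_le one)
  have c1 := continuous_dsq hAc (h1.of_le one)
  have cg0 := continuous_dsq hAc (hg0.of_le one)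
  have cg1 := continuous_dsq hAc (hg1.of_le one)
  have cU := continuous_DU hAc (h0.of_le one) (h1.of_le one)
  have cL := continuous_DL hAc (h0.of_le one) (h1.of_le one)
  have cUg := continuous_DU hAc (hg0.of_le one) (hg1.of_le one)
  have cLg := continuous_DL hAc (hg0.of_le one) (hg1.of_le one)
  have cB := continuous_Bn (hA.of_le one)
  have hf0 := h0.continuous
  have hf1 := h1.continuous
  have zU : ∀ x, x ∉ tsupport f0 → x ∉ tsupport f1 → DU A f0 f1 x = 0 := fun x a b => by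
    unfold DU; simp [cov_support _ a, cov_support _ b]
  have zL : ∀ x, x ∉ tsupport f0 → x ∉ tsupport f1 → DL A f0 f1 x = 0 := fun x a b => by
    unfold DL; simp [cov_support _ a, cov_support _ b]
  have iT : Integrable fun x => ρ x * (dsq A f0 x + dsq A f1 x) :=
    Continuous.integrable_of_hasCompactSupport (by fun_prop)
      (hsup2 s0 s1 _ fun x a b => by simp [d0 x a, d1 x b])
  have iK : Integrable fun x => ρ x * (‖DU A f0 f1 x‖ ^ 2 + ‖DL A f0 f1 x‖ ^ 2) :=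
    Continuous.integrable_of_hasCompactSupport (by fun_prop)
      (hsup2 s0 s1 _ fun x a b => by simp [zU x a b, zL x a b])
  have iM : Integrable fun x => (ρ x)⁻¹ * (‖f0 x‖ ^ 2 + ‖f1 x‖ ^ 2) :=
    Continuous.integrable_of_hasCompactSupport (by fun_prop)
      (hsup2 s0 s1 _ fun x a b => by simp [z0 x a, z1 x b])
  have iB : Integrable fun x => Bn A x * (ρ x * (‖f0 x‖ ^ 2 + ‖f1 x‖ ^ 2)) :=
    Continuous.integrable_of_hasCompactSupport (by fun_prop)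
      (hsup2 s0 s1 _ fun x a b => by simp [z0 x a, z1 x b])
  have iG : Integrable fun x => dsq A g0 x + dsq A g1 x :=
    (cg0.integrable_of_hasCompactSupport (compact_dsq t0)).add
      (cg1.integrable_of_hasCompactSupport (compact_dsq t1))
  have iD : Integrable fun x => ‖DU A g0 g1 x‖ ^ 2 + ‖DL A g0 g1 x‖ ^ 2 :=
    Continuous.integrable_of_hasCompactSupport (by fun_prop)
      (hsup2 s0 s1 _ fun x a b => by
        have a' := sg f0 x a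
        have b' := sg f1 x b
        unfold DU DL
        simp [g0, g1, cov_support _ a', cov_support _ b'])
  -- first inequality
  have e1 : ∫ x, ρ x * (dsq A f0 x + dsq A f1 x) ≤
      2 * (∫ x, (dsq A g0 x + dsq A g1 x))
      + 1 / 2 * ∫ x, (ρ x)⁻¹ * (‖f0 x‖ ^ 2 + ‖f1 x‖ ^ 2) := by
    rw [← integral_const_mul, ← integral_const_mul, ← integral_add (iG.const_mul _)
      (iM.const_mul _)]
    refine integral_mono iT ((iG.const_mul _).add (iM.const_mul _)) fun x => ?_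
    have k0 := dsq_mul_ge A (w := w) (f := f0) (x := x) ((hw.differentiable (by simp)) x)
      ((h0.differentiable (by simp)) x)
    have k1 := dsq_mul_ge A (w := w) (f := f1) (x := x) ((hw.differentiable (by simp)) x)
      ((h1.differentiable (by simp)) x)
    rw [hw2] at k0 k1
    have k2 := mul_le_mul_of_nonneg_right (hwd x) (add_nonneg (sq_nonneg ‖f0 x‖) (sq_nonneg ‖f1 x‖))
    show ρ x * (dsq A f0 x + dsq A f1 x) ≤ 2 * (dsq A g0 x + dsq A g1 x)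
      + 1 / 2 * ((ρ x)⁻¹ * (‖f0 x‖ ^ 2 + ‖f1 x‖ ^ 2))
    simp only [g0, g1]
    nlinarith [k0, k1, k2]
  have e2 : ∫ x, (‖DU A g0 g1 x‖ ^ 2 + ‖DL A g0 g1 x‖ ^ 2) ≤
      2 * (∫ x, ρ x * (‖DU A f0 f1 x‖ ^ 2 + ‖DL A f0 f1 x‖ ^ 2))
      + 1 / 2 * ∫ x, (ρ x)⁻¹ * (‖f0 x‖ ^ 2 + ‖f1 x‖ ^ 2) := by
    rw [← integral_const_mul, ← integral_const_mul, ← integral_add (iK.const_mul _)
      (iM.const_mul _)]
    refine integral_mono iD ((iK.const_mul _).add (iM.const_mul _)) fun x => ?_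
    have k0 := dirac_mul_le A (w := w) (f0 := f0) (f1 := f1) (x := x)
      ((hw.differentiable (by simp)) x) ((h0.differentiable (by simp)) x)
      ((h1.differentiable (by simp)) x)
    rw [hw2] at k0
    have k2 := mul_le_mul_of_nonneg_right (hwd x) (add_nonneg (sq_nonneg ‖f0 x‖) (sq_nonneg ‖f1 x‖))
    show ‖DU A g0 g1 x‖ ^ 2 + ‖DL A g0 g1 x‖ ^ 2
      ≤ 2 * (ρ x * (‖DU A f0 f1 x‖ ^ 2 + ‖DL A f0 f1 x‖ ^ 2))
      + 1 / 2 * ((ρ x)⁻¹ * (‖f0 x‖ ^ 2 + ‖f1 x‖ ^ 2))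
    simp only [g0, g1]
    nlinarith [k0, k2]
  have e3 : ∫ x, Bn A x * (‖g0 x‖ ^ 2 + ‖g1 x‖ ^ 2)
      = ∫ x, Bn A x * (ρ x * (‖f0 x‖ ^ 2 + ‖f1 x‖ ^ 2)) := by
    refine integral_congr_ae (ae_of_all _ fun x => ?_)
    show Bn A x * (‖g0 x‖ ^ 2 + ‖g1 x‖ ^ 2) = Bn A x * (ρ x * (‖f0 x‖ ^ 2 + ‖f1 x‖ ^ 2))
    simp only [g0, g1, norm_mul, Complex.norm_real, Real.norm_eq_abs, mul_pow, sq_abs, hw2]
    ring
  rw [e3] at hL
  linarith

/-- The combined estimate. -/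
theorem TKM : ∃ δ0 : ℝ, 0 < δ0 ∧ ∀ (A : E3 → E3) (f0 f1 : E3 → ℂ) (ρ : E3 → ℝ),
    ContDiff ℝ ∞ A → HasCompactSupport A → ContDiff ℝ ∞ f0 → ContDiff ℝ ∞ f1 →
    HasCompactSupport f0 → HasCompactSupport f1 → ContDiff ℝ ∞ ρ → LipschitzWith 1 ρ →
    (∀ x, 0 < ρ x) → (∀ a, mm (Bn A) a (ρ a / 4) ≤ δ0) →
    ∫ x, ρ x * (dsq A f0 x + dsq A f1 x) ≤
      6 * (∫ x, ρ x * (‖DU A f0 f1 x‖ ^ 2 + ‖DL A f0 f1 x‖ ^ 2))
      + 3 * ∫ x, (ρ x)⁻¹ * (‖f0 x‖ ^ 2 + ‖f1 x‖ ^ 2) := by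
  obtain ⟨CB, hCB, hmag⟩ := magnetic_term
  refine ⟨(1 / (8 * (CB + 1))) ^ ((3:ℝ)/2), by positivity, ?_⟩
  intro A f0 f1 ρ hA hAs h0 h1 s0 s1 hρs hl hρ hm
  set δ : ℝ := (1 / (8 * (CB + 1))) ^ ((3:ℝ)/2) with hδ
  have hδp : 0 < δ := by positivity
  have hδ' : δ ^ ((2:ℝ)/3) = 1 / (8 * (CB + 1)) := by
    rw [hδ, ← Real.rpow_mul (by positivity)]
    norm_num
  have one : ((1:ℕ∞) : WithTop ℕ∞) ≤ ((⊤ : ℕ∞) : WithTop ℕ∞) := by exact_mod_cast le_top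
  have hAc := hA.continuous
  have hCBd : CB * δ ^ ((2:ℝ)/3) ≤ 1 / 8 := by
    rw [hδ', mul_one_div, div_le_div_iff₀ (by positivity) (by norm_num)]
    linarith
  have m0 := hmag A f0 (Bn A) ρ δ hAc (h0.of_le one) s0 (continuous_Bn (hA.of_le one))
    (compact_Bn hAs) (Bn_nonneg A) hl hρ hδp.le hm
  have m1 := hmag A f1 (Bn A) ρ δ hAc (h1.of_le one) s1 (continuous_Bn (hA.of_le one))
    (compact_Bn hAs) (Bn_nonneg A) hl hρ hδp.le hm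
  have hW := weighted_lich hA h0 h1 s0 s1 hρs hl hρ
  have hρc := hρs.continuous
  have hinv : Continuous fun x => (ρ x)⁻¹ := hρc.inv₀ fun x => (hρ x).ne'
  have c0 := continuous_dsq hAc (h0.of_le one)
  have c1 := continuous_dsq hAc (h1.of_le one)
  have cB := continuous_Bn (hA.of_le one)
  have hf0 := h0.continuous
  have hf1 := h1.continuous
  have iT : ∀ f : E3 → ℂ, Continuous (dsq A f) → HasCompactSupport f →
      Integrable fun x => ρ x * dsq A f x := fun f hf hs =>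
    Continuous.integrable_of_hasCompactSupport (by fun_prop) (compact_dsq hs).mul_left
  have n2 : ∀ f : E3 → ℂ, HasCompactSupport f → HasCompactSupport fun x => ‖f x‖ ^ 2 :=
    fun f hs => hs.comp_left (g := fun z : ℂ => ‖z‖ ^ 2) (by simp)
  have iM : ∀ f : E3 → ℂ, Continuous f → HasCompactSupport f →
      Integrable fun x => (ρ x)⁻¹ * ‖f x‖ ^ 2 := fun f hf hs =>
    Continuous.integrable_of_hasCompactSupport (by fun_prop) (n2 f hs).mul_left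
  have iB : ∀ f : E3 → ℂ, Continuous f → HasCompactSupport f →
      Integrable fun x => Bn A x * (ρ x * ‖f x‖ ^ 2) := fun f hf hs =>
    Continuous.integrable_of_hasCompactSupport (by fun_prop) (n2 f hs).mul_left.mul_left
  have eT : ∫ x, ρ x * (dsq A f0 x + dsq A f1 x)
      = (∫ x, ρ x * dsq A f0 x) + ∫ x, ρ x * dsq A f1 x := by
    rw [← integral_add (iT f0 c0 s0) (iT f1 c1 s1)]
    exact integral_congr_ae (ae_of_all _ fun x => by ring)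
  have eM : ∫ x, (ρ x)⁻¹ * (‖f0 x‖ ^ 2 + ‖f1 x‖ ^ 2)
      = (∫ x, (ρ x)⁻¹ * ‖f0 x‖ ^ 2) + ∫ x, (ρ x)⁻¹ * ‖f1 x‖ ^ 2 := by
    rw [← integral_add (iM f0 hf0 s0) (iM f1 hf1 s1)]
    exact integral_congr_ae (ae_of_all _ fun x => by ring)
  have eB : ∫ x, Bn A x * (ρ x * (‖f0 x‖ ^ 2 + ‖f1 x‖ ^ 2))
      = (∫ x, Bn A x * (ρ x * ‖f0 x‖ ^ 2)) + ∫ x, Bn A x * (ρ x * ‖f1 x‖ ^ 2) := by
    rw [← integral_add (iB f0 hf0 s0) (iB f1 hf1 s1)]
    exact integral_congr_ae (ae_of_all _ fun x => by ring)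
  have p0 : 0 ≤ ∫ x, ρ x * dsq A f0 x := integral_nonneg fun x =>
    mul_nonneg (hρ x).le (dsq_nonneg _ _ _)
  have p1 : 0 ≤ ∫ x, ρ x * dsq A f1 x := integral_nonneg fun x =>
    mul_nonneg (hρ x).le (dsq_nonneg _ _ _)
  have p2 : 0 ≤ ∫ x, (ρ x)⁻¹ * ‖f0 x‖ ^ 2 := integral_nonneg fun x =>
    mul_nonneg (inv_nonneg.mpr (hρ x).le) (sq_nonneg _)
  have p3 : 0 ≤ ∫ x, (ρ x)⁻¹ * ‖f1 x‖ ^ 2 := integral_nonneg fun x =>
    mul_nonneg (inv_nonneg.mpr (hρ x).le) (sq_nonneg _)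
  have p4 : 0 ≤ ∫ x, ρ x * (‖DU A f0 f1 x‖ ^ 2 + ‖DL A f0 f1 x‖ ^ 2) :=
    integral_nonneg fun x => mul_nonneg (hρ x).le (by positivity)
  have m0' := m0.trans (mul_le_mul_of_nonneg_right hCBd (add_nonneg p0 p2))
  have m1' := m1.trans (mul_le_mul_of_nonneg_right hCBd (add_nonneg p1 p3))
  rw [eT, eM, eB] at hW
  rw [eT, eM]
  linarith

end Pool.Agent.H7R3.Mag
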