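import Mathlib
import Pool.Agent.H7R3.Mag.MD

set_option autoImplicit false

open MeasureTheory Filter Topology Set Metric
open scoped ENNReal NNReal ContDiff ComplexConjugate

namespace Pool.Agent.H7R3.Mag

/-- the phase -/
noncomputable def th (A : E3 → E3) (x h : E3) : ℝ := ∫ s in (0:ℝ)..1, inner ℝ (A (x + s • h)) h

/-- the phase factor -/
noncomputable def ph (A : E3 → E3) (x h : E3) : ℂ := Complex.exp ((th A x h : ℂ) * Complex.I)

lemma norm_ph (A : E3 → E3) (x h : E3) : ‖ph A x h‖ = 1 := Complex.norm_exp_ofReal_mul_I _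

lemma continuous_ph {A : E3 → E3} (hA : Continuous A) :
    Continuous fun p : E3 × E3 => ph A p.1 p.2 := by
  unfold ph th
  have h1 : Continuous fun p : E3 × E3 => ∫ s in (0:ℝ)..1, inner ℝ (A (p.1 + s • p.2)) p.2 := by
    refine intervalIntegral.continuous_parametric_intervalIntegral_of_continuous' ?_ 0 1
    have : Continuous fun q : (E3 × E3) × ℝ => A (q.1.1 + q.2 • q.1.2) := by
      apply hA.comp
      fun_prop
    exact this.inner (by fun_prop)
  exact Complex.continuous_exp.comp ((Complex.continuous_ofReal.comp h1).mul continuous_const)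

lemma jensen01 {a : ℝ → ℝ} (ha : Continuous a) :
    (∫ t in (0:ℝ)..1, a t) ^ 2 ≤ ∫ t in (0:ℝ)..1, (a t) ^ 2 := by
  set m := ∫ t in (0:ℝ)..1, a t with hm
  have h1 : 0 ≤ ∫ t in (0:ℝ)..1, (a t - m) ^ 2 :=
    intervalIntegral.integral_nonneg (by norm_num) fun t _ => sq_nonneg _
  have h2 : ∫ t in (0:ℝ)..1, (a t - m) ^ 2 = (∫ t in (0:ℝ)..1, (a t) ^ 2) - m ^ 2 := by
    have e : ∀ t, (a t - m) ^ 2 = (a t) ^ 2 - (2 * m * a t - m ^ 2) := fun t => by ring
    simp only [e]
    have i1 : IntervalIntegrable (fun t => (a t) ^ 2) volume 0 1 :=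
      (ha.pow 2).intervalIntegrable _ _
    have i2 : IntervalIntegrable (fun t => 2 * m * a t) volume 0 1 :=
      (continuous_const.mul ha).intervalIntegrable _ _
    have i3 : IntervalIntegrable (fun _ : ℝ => m ^ 2) volume 0 1 :=
      continuous_const.intervalIntegrable _ _
    rw [intervalIntegral.integral_sub i1 (i2.sub i3), intervalIntegral.integral_sub i2 i3,
      intervalIntegral.integral_const_mul, ← hm]
    simp
    ring
  linarith

lemma fderiv_dir (A : E3 → E3) (f : E3 → ℂ) (y h : E3) :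
    fderiv ℝ f y h = Complex.I * (∑ k, ((h k : ℝ) : ℂ) * cov A k f y)
      - Complex.I * ((inner ℝ (A y) h : ℝ) : ℂ) * f y := by
  have h4 : fderiv ℝ f y h = ∑ k, (h k : ℂ) * fderiv ℝ f y (ee k) := by
    conv_lhs => rw [vec_eq_sum h]
    rw [map_sum]
    refine Finset.sum_congr rfl fun k _ => ?_
    rw [map_smul, Complex.real_smul]
  have h5 : (inner ℝ (A y) h : ℝ) = ∑ k, h k * A y k := by
    rw [PiLp.inner_apply]
    exact Finset.sum_congr rfl fun k _ => by simp
  rw [h4, h5]
  push_cast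
  rw [Finset.mul_sum, Finset.mul_sum, Finset.sum_mul, ← Finset.sum_sub_distrib]
  refine Finset.sum_congr rfl fun k _ => ?_
  rw [cov_eq A]
  ring

lemma sum_cov_le (A : E3 → E3) (f : E3 → ℂ) (y h : E3) :
    ‖∑ k, ((h k : ℝ) : ℂ) * cov A k f y‖ ^ 2 ≤ ‖h‖ ^ 2 * dsq A f y := by
  have h1 : ‖∑ k, ((h k : ℝ) : ℂ) * cov A k f y‖ ≤ ∑ k, |h k| * ‖cov A k f y‖ := by
    refine (norm_sum_le _ _).trans (Finset.sum_le_sum fun k _ => ?_)
    simp
  have h9 := Finset.sum_mul_sq_le_sq_mul_sq Finset.univ (fun k => |h k|)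
    (fun k => ‖cov A k f y‖)
  simp only [sq_abs] at h9
  rw [norm_sq_eq]
  unfold dsq
  refine le_trans ?_ h9
  gcongr

/-- the gauge-covariant increment estimate -/
lemma path_est {A : E3 → E3} (hA : Continuous A) {f : E3 → ℂ} (hf : ContDiff ℝ 1 f) (x h : E3) :
    ‖f x - ph A x h * f (x + h)‖ ^ 2 ≤ ‖h‖ ^ 2 * ∫ t in (0:ℝ)..1, dsq A f (x + t • h) := by
  let a : ℝ → ℝ := fun t => inner ℝ (A (x + t • h)) h
  have hline : Continuous fun t : ℝ => x + t • h := by fun_prop
  have hac : Continuous a := (hA.comp hline).inner continuous_const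
  let θ : ℝ → ℝ := fun t => ∫ s in (0:ℝ)..t, a s
  have hθ : ∀ t, HasDerivAt θ (a t) t := fun t =>
    intervalIntegral.integral_hasDerivAt_right (hac.intervalIntegrable _ _)
      (hac.stronglyMeasurableAtFilter _ _) hac.continuousAt
  let g : ℝ → ℂ := fun t => Complex.exp ((θ t : ℂ) * Complex.I) * f (x + t • h)
  let g' : ℝ → ℂ := fun t => Complex.exp ((θ t : ℂ) * Complex.I) *
    (Complex.I * ∑ k, ((h k : ℝ) : ℂ) * cov A k f (x + t • h))
  have hg : ∀ t, HasDerivAt g (g' t) t := by
    intro t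
    have d1 : HasDerivAt (fun t => Complex.exp ((θ t : ℂ) * Complex.I))
        (Complex.exp ((θ t : ℂ) * Complex.I) * ((a t : ℂ) * Complex.I)) t := by
      have : HasDerivAt (fun t => (θ t : ℂ) * Complex.I) ((a t : ℂ) * Complex.I) t :=
        (hθ t).ofReal_comp.mul_const _
      exact this.cexp
    have d2 : HasDerivAt (fun t : ℝ => x + t • h) h t := by
      simpa using ((hasDerivAt_id t).smul_const h).const_add x
    have d3 : HasDerivAt (fun t : ℝ => f (x + t • h)) (fderiv ℝ f (x + t • h) h) t :=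
      ((hf.differentiable (by simp)) (x + t • h)).hasFDerivAt.comp_hasDerivAt t d2
    have d4 := d1.mul d3
    refine d4.congr_deriv ?_
    rw [fderiv_dir A]
    simp only [g', a]
    ring
  have hθc : Continuous θ := continuous_iff_continuousAt.mpr fun t => (hθ t).continuousAt
  have hcovc : ∀ k, Continuous fun t : ℝ => cov A k f (x + t • h) := fun k =>
    (continuous_cov hA hf k).comp hline
  have hg'c : Continuous g' := by
    refine (Complex.continuous_exp.comp ((Complex.continuous_ofReal.comp hθc).mul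
      continuous_const)).mul (continuous_const.mul ?_)
    exact continuous_finsetSum _ fun k _ => continuous_const.mul (hcovc k)
  have hFTC : ∫ t in (0:ℝ)..1, g' t = g 1 - g 0 :=
    intervalIntegral.integral_eq_sub_of_hasDerivAt (fun t _ => hg t) (hg'c.intervalIntegrable _ _)
  have hg1 : g 1 = ph A x h * f (x + h) := by
    simp only [g, θ, a, ph, th, one_smul]
  have hg0 : g 0 = f x := by
    simp [g, θ]
  have hn : ‖f x - ph A x h * f (x + h)‖ ≤ ∫ t in (0:ℝ)..1, ‖g' t‖ := by
    rw [← hg1, ← hg0, ← norm_neg, neg_sub, ← hFTC]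
    exact intervalIntegral.norm_integral_le_integral_norm (by norm_num)
  have hsq : ∀ t, ‖g' t‖ ^ 2 ≤ ‖h‖ ^ 2 * dsq A f (x + t • h) := by
    intro t
    have : ‖g' t‖ = ‖∑ k, ((h k : ℝ) : ℂ) * cov A k f (x + t • h)‖ := by
      simp only [g', norm_mul, Complex.norm_exp_ofReal_mul_I, Complex.norm_I, one_mul]
    rw [this]
    exact sum_cov_le A f _ h
  have hdc : Continuous fun t : ℝ => dsq A f (x + t • h) := (continuous_dsq hA hf).comp hline
  calc ‖f x - ph A x h * f (x + h)‖ ^ 2 ≤ (∫ t in (0:ℝ)..1, ‖g' t‖) ^ 2 := by gcongr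
    _ ≤ ∫ t in (0:ℝ)..1, ‖g' t‖ ^ 2 := jensen01 hg'c.norm
    _ ≤ ∫ t in (0:ℝ)..1, ‖h‖ ^ 2 * dsq A f (x + t • h) := by
        refine intervalIntegral.integral_mono_on (by norm_num)
          ((hg'c.norm.pow 2).intervalIntegrable _ _)
          ((continuous_const.mul hdc).intervalIntegrable _ _) fun t _ => hsq t
    _ = _ := by rw [intervalIntegral.integral_const_mul]

end Pool.Agent.H7R3.Mag
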