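import Mathlib
import Pool.Agent.H7R3.Mag.MI
import Pool.Agent.H7R3.Mag.MF

set_option autoImplicit false

open MeasureTheory Filter Topology Set Metric
open scoped ENNReal NNReal ContDiff ComplexConjugate

namespace Pool.Agent.H7R3.Mag

/-- the tent of radius `r` -/
noncomputable def tn (r : ℝ) (h : E3) : ℝ := max 0 (1 - r⁻¹ * ‖h‖)

lemma tn_nonneg (r : ℝ) (h : E3) : 0 ≤ tn r h := le_max_left _ _

lemma tn_le_one {r : ℝ} (hr : 0 ≤ r) (h : E3) : tn r h ≤ 1 := by
  unfold tn
  refine max_le zero_le_one ?_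
  have : 0 ≤ r⁻¹ * ‖h‖ := by positivity
  linarith

lemma tn_zero {r : ℝ} (hr : 0 < r) {h : E3} (hh : r ≤ ‖h‖) : tn r h = 0 := by
  unfold tn
  refine max_eq_left ?_
  have : 1 ≤ r⁻¹ * ‖h‖ := by
    rw [inv_mul_eq_div, le_div_iff₀ hr, one_mul]
    exact hh
  linarith

lemma tn_mono {r r' : ℝ} (hr : 0 < r) (hrr : r ≤ r') (h : E3) : tn r h ≤ tn r' h := by
  unfold tn
  refine max_le_max le_rfl ?_
  have : r'⁻¹ ≤ r⁻¹ := inv_anti₀ hr hrr
  have := mul_le_mul_of_nonneg_right this (norm_nonneg h)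
  linarith

lemma tn_cont (r : ℝ) : Continuous (tn r) := by
  unfold tn
  fun_prop

lemma tn_supp {r : ℝ} (hr : 0 < r) : HasCompactSupport (tn r) := by
  refine HasCompactSupport.of_support_subset_isCompact (isCompact_closedBall (0:E3) r)
    fun h hh => ?_
  by_contra hcon
  rw [mem_closedBall, dist_zero_right, not_le] at hcon
  exact hh (tn_zero hr hcon.le)

/-- the mass of the unit tent -/
noncomputable def c0 : ℝ := ∫ h : E3, tn 1 h

lemma c0_pos : 0 < c0 := by
  refine (tn_cont 1).integral_pos_of_hasCompactSupport_nonneg_nonzero (tn_supp one_pos)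
    (tn_nonneg 1) (x := 0) ?_
  unfold tn
  simp

lemma int_tn {r : ℝ} (hr : 0 < r) : ∫ h : E3, tn r h = r ^ 3 * c0 := by
  have h1 : ∀ h : E3, tn r h = tn 1 (r⁻¹ • h) := by
    intro h
    unfold tn
    rw [norm_smul, Real.norm_of_nonneg (by positivity)]
    simp
  simp only [h1]
  have h4 := Measure.integral_comp_smul (volume : Measure E3) (tn 1) (r⁻¹)
  rw [h4, finrank_euclideanSpace_fin, abs_of_pos (by positivity), smul_eq_mul]
  unfold c0
  rw [inv_pow, inv_inv]

lemma int_tn_sq {r : ℝ} (hr : 0 < r) : ∫ h : E3, (tn r h) ^ 2 ≤ r ^ 3 * c0 := by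
  rw [← int_tn hr]
  refine integral_mono ?_ ((tn_cont r).integrable_of_hasCompactSupport (tn_supp hr)) fun h => ?_
  · have hc : Continuous fun h => (tn r h) ^ 2 := (tn_cont r).pow 2
    exact hc.integrable_of_hasCompactSupport
      ((tn_supp hr).comp_left (g := fun t : ℝ => t ^ 2) (by simp))
  · have h1 := tn_nonneg r h
    have h2 := tn_le_one hr.le h
    show (tn r h) ^ 2 ≤ tn r h
    nlinarith

/-- averaged derivative -/
noncomputable def ad (A : E3 → E3) (f : E3 → ℂ) (x h : E3) : ℝ :=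
  ∫ t in (0:ℝ)..1, dsq A f (x + t • h)

lemma continuous_ad {A : E3 → E3} (hA : Continuous A) {f : E3 → ℂ} (hf : ContDiff ℝ 1 f) :
    Continuous fun p : E3 × E3 => ad A f p.1 p.2 := by
  unfold ad
  refine intervalIntegral.continuous_parametric_intervalIntegral_of_continuous' ?_ 0 1
  have : Continuous fun q : (E3 × E3) × ℝ => dsq A f (q.1.1 + q.2 • q.1.2) := by
    apply (continuous_dsq hA hf).comp
    fun_prop
  exact this

lemma ad_nonneg (A : E3 → E3) (f : E3 → ℂ) (x h : E3) : 0 ≤ ad A f x h :=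
  intervalIntegral.integral_nonneg (by norm_num) fun t _ => dsq_nonneg _ _ _

/-- the gauge-covariant average -/
noncomputable def PP (A : E3 → E3) (f : E3 → ℂ) (r : ℝ) (x : E3) : ℂ :=
  ∫ h : E3, (tn r h : ℂ) * (ph A x h * f (x + h))

/-- the oscillation -/
noncomputable def GG (A : E3 → E3) (f : E3 → ℂ) (r : ℝ) (x : E3) : ℝ :=
  ∫ h : E3, tn r h * (‖h‖ ^ 2 * ad A f x h)

lemma pointwise_P {A : E3 → E3} (hA : Continuous A) {f : E3 → ℂ} (hf : ContDiff ℝ 1 f)
    {r : ℝ} (hr : 0 < r) (x : E3) :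
    r ^ 3 * c0 * ‖f x‖ ^ 2 ≤ 2 * GG A f r x + 4 / (r ^ 3 * c0) * ‖PP A f r x‖ ^ 2 := by
  have hfc := hf.continuous
  have hpair : Continuous fun h : E3 => (x, h) := Continuous.prodMk_right x
  have hphx : Continuous fun h => ph A x h := by
    have := (continuous_ph hA).comp hpair
    simpa only [Function.comp_def] using this
  have hadx : Continuous fun h => ad A f x h := by
    have := (continuous_ad hA hf).comp hpair
    simpa only [Function.comp_def] using this
  have hfx : Continuous fun h => f (x + h) := hfc.comp (continuous_const.add continuous_id)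
  have htc := tn_cont r
  have hts := tn_supp hr
  have htC : Continuous fun h => (tn r h : ℂ) := Complex.continuous_ofReal.comp htc
  have htsC : HasCompactSupport fun h => (tn r h : ℂ) :=
    hts.comp_left (g := fun t : ℝ => (t : ℂ)) (by simp)
  have i1 : Integrable fun h => tn r h * ‖f x‖ ^ 2 :=
    Continuous.integrable_of_hasCompactSupport (by fun_prop) hts.mul_right
  have i2 : Integrable fun h => tn r h * (‖h‖ ^ 2 * ad A f x h) :=
    Continuous.integrable_of_hasCompactSupport (by fun_prop) hts.mul_right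
  have i3 : Integrable fun h => (tn r h : ℂ) * (ph A x h * f (x + h)) := by
    refine Continuous.integrable_of_hasCompactSupport ?_ htsC.mul_right
    exact htC.mul (hphx.mul hfx)
  have i4 : Integrable fun h => conj (f x) * ((tn r h : ℂ) * (ph A x h * f (x + h))) :=
    i3.const_mul _
  have i5 : Integrable fun h => 2 * (conj (f x) * ((tn r h : ℂ) * (ph A x h * f (x + h)))).re :=
    i4.re.const_mul 2
  have key : ∫ h, tn r h * ‖f x‖ ^ 2 ≤ (∫ h, tn r h * (‖h‖ ^ 2 * ad A f x h))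
      + ∫ h, 2 * (conj (f x) * ((tn r h : ℂ) * (ph A x h * f (x + h)))).re := by
    rw [← integral_add i2 i5]
    refine integral_mono i1 (i2.add i5) fun h => ?_
    have hp := path_est hA hf x h
    have ht := tn_nonneg r h
    show tn r h * ‖f x‖ ^ 2 ≤ tn r h * (‖h‖ ^ 2 * ad A f x h)
      + 2 * (conj (f x) * ((tn r h : ℂ) * (ph A x h * f (x + h)))).re
    have e1 : (conj (f x) * ((tn r h : ℂ) * (ph A x h * f (x + h)))).re
        = tn r h * (conj (f x) * (ph A x h * f (x + h))).re := by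
      have : conj (f x) * ((tn r h : ℂ) * (ph A x h * f (x + h)))
        = (tn r h : ℂ) * (conj (f x) * (ph A x h * f (x + h))) := by ring
      rw [this, Complex.re_ofReal_mul]
    have e2 : ‖f x - ph A x h * f (x + h)‖ ^ 2 = ‖f x‖ ^ 2 + ‖ph A x h * f (x + h)‖ ^ 2
        - 2 * (conj (f x) * (ph A x h * f (x + h))).re := by
      simp only [Complex.sq_norm, Complex.normSq_apply]
      simp
      ring
    have e3 : ‖f x‖ ^ 2 - 2 * (conj (f x) * (ph A x h * f (x + h))).re
        ≤ ‖h‖ ^ 2 * ad A f x h := by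
      have : (0:ℝ) ≤ ‖ph A x h * f (x + h)‖ ^ 2 := sq_nonneg _
      unfold ad
      linarith
    rw [e1]
    nlinarith [mul_le_mul_of_nonneg_left e3 ht]
  have l1 : ∫ h, tn r h * ‖f x‖ ^ 2 = r ^ 3 * c0 * ‖f x‖ ^ 2 := by
    rw [integral_mul_const, int_tn hr]
  have l2 : ∫ h, 2 * (conj (f x) * ((tn r h : ℂ) * (ph A x h * f (x + h)))).re
      = 2 * (conj (f x) * PP A f r x).re := by
    rw [integral_const_mul]
    congr 1
    unfold PP
    rw [← integral_const_mul]
    exact integral_re i4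
  have l3 : (conj (f x) * PP A f r x).re ≤ ‖f x‖ * ‖PP A f r x‖ := by
    refine (Complex.re_le_norm _).trans ?_
    simp
  rw [l1, l2] at key
  have hc : 0 < r ^ 3 * c0 := mul_pos (by positivity) c0_pos
  have l4 : 2 * (‖f x‖ * ‖PP A f r x‖) ≤ 1 / 2 * (r ^ 3 * c0) * ‖f x‖ ^ 2
      + 2 / (r ^ 3 * c0) * ‖PP A f r x‖ ^ 2 := by
    have h1 : 0 ≤ (r ^ 3 * c0 * ‖f x‖ - 2 * ‖PP A f r x‖) ^ 2 / (2 * (r ^ 3 * c0)) := by positivity
    have h2 : (r ^ 3 * c0 * ‖f x‖ - 2 * ‖PP A f r x‖) ^ 2 / (2 * (r ^ 3 * c0))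
        = 1 / 2 * (r ^ 3 * c0) * ‖f x‖ ^ 2 + 2 / (r ^ 3 * c0) * ‖PP A f r x‖ ^ 2
          - 2 * (‖f x‖ * ‖PP A f r x‖) := by
      have := c0_pos.ne'
      field_simp
      ring
    linarith
  have l5 : 4 / (r ^ 3 * c0) * ‖PP A f r x‖ ^ 2 = 2 * (2 / (r ^ 3 * c0) * ‖PP A f r x‖ ^ 2) := by
    ring
  rw [l5]
  unfold GG
  linarith

end Pool.Agent.H7R3.Mag
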