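import Mathlib
import Pool.Agent.H7R3.Mag.MJ

set_option autoImplicit false

open MeasureTheory Filter Topology Set Metric
open scoped ENNReal NNReal ContDiff ComplexConjugate

namespace Pool.Agent.H7R3.Mag

/-- the kernel -/
noncomputable def qq (A : E3 → E3) (ρ : E3 → ℝ) (κ : ℝ) (x y : E3) : ℂ :=
  (((ρ x ^ 4)⁻¹ * tn (κ * ρ x) (y - x) : ℝ) : ℂ) * ph A x (y - x)

lemma qq_int (A : E3 → E3) (ρ : E3 → ℝ) (κ : ℝ) (f : E3 → ℂ) (x : E3) :
    ∫ y, qq A ρ κ x y * f y = (((ρ x ^ 4)⁻¹ : ℝ) : ℂ) * PP A f (κ * ρ x) x := by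
  have h1 := integral_add_left_eq_self (μ := (volume : Measure E3))
    (fun y => qq A ρ κ x y * f y) x
  rw [← h1]
  unfold PP
  rw [← integral_const_mul]
  refine integral_congr_ae (ae_of_all _ fun h => ?_)
  show qq A ρ κ x (x + h) * f (x + h)
    = (((ρ x ^ 4)⁻¹ : ℝ) : ℂ) * ((tn (κ * ρ x) h : ℂ) * (ph A x h * f (x + h)))
  unfold qq
  rw [add_sub_cancel_left]
  push_cast
  ring

lemma qq_norm {A : E3 → E3} {ρ : E3 → ℝ} (hρ : ∀ x, 0 < ρ x) {κ : ℝ} (hκ : 0 < κ) (x : E3) :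
    ∫ y, ‖qq A ρ κ x y‖ ^ 2 ≤ c0 * κ ^ 3 * ((ρ x ^ 5)⁻¹) := by
  have hx := hρ x
  have h1 := integral_add_left_eq_self (μ := (volume : Measure E3))
    (fun y => ‖qq A ρ κ x y‖ ^ 2) x
  rw [← h1]
  have h2 : ∀ h, ‖qq A ρ κ x (x + h)‖ ^ 2 = (ρ x ^ 8)⁻¹ * (tn (κ * ρ x) h) ^ 2 := by
    intro h
    unfold qq
    rw [add_sub_cancel_left, norm_mul, norm_ph, mul_one, Complex.norm_real, Real.norm_eq_abs,
      sq_abs, mul_pow, inv_pow, ← pow_mul]
  simp only [h2]
  rw [integral_const_mul]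
  have h3 := int_tn_sq (r := κ * ρ x) (by positivity)
  calc (ρ x ^ 8)⁻¹ * ∫ h, (tn (κ * ρ x) h) ^ 2 ≤ (ρ x ^ 8)⁻¹ * ((κ * ρ x) ^ 3 * c0) := by gcongr
    _ = c0 * κ ^ 3 * ((ρ x ^ 5)⁻¹) := by field_simp

section

variable {A : E3 → E3} {f : E3 → ℂ} {ρ : E3 → ℝ} {κ L : ℝ}

lemma tn_joint (hρc : Continuous ρ) (hρ : ∀ x, 0 < ρ x) (hκ : 0 < κ) :
    Continuous fun p : E3 × E3 => tn (κ * ρ p.1) p.2 := by
  unfold tn
  have h1 : Continuous fun p : E3 × E3 => (κ * ρ p.1)⁻¹ :=
    (continuous_const.mul (hρc.comp continuous_fst)).inv₀ fun p =>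
      (mul_pos hκ (hρ p.1)).ne'
  exact continuous_const.max (continuous_const.sub (h1.mul continuous_snd.norm))

lemma GG_cont (hA : Continuous A) (hf : ContDiff ℝ 1 f) (hρc : Continuous ρ)
    (hρ : ∀ x, 0 < ρ x) (hκ : 0 < κ) (hL : ∀ x, ρ x ≤ L) :
    Continuous fun x => GG A f (κ * ρ x) x := by
  have h1 : ∀ x, GG A f (κ * ρ x) x
      = ∫ h in closedBall (0:E3) (κ * L), tn (κ * ρ x) h * (‖h‖ ^ 2 * ad A f x h) := by
    intro x
    unfold GG
    symm
    apply setIntegral_eq_integral_of_forall_compl_eq_zero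
    intro h hh
    rw [mem_closedBall, dist_zero_right, not_le] at hh
    rw [tn_zero (mul_pos hκ (hρ x)) ?_, zero_mul]
    exact ((mul_le_mul_of_nonneg_left (hL x) hκ.le).trans hh.le)
  simp only [h1]
  refine continuous_parametric_integral_of_continuous
    (f := fun x h => tn (κ * ρ x) h * (‖h‖ ^ 2 * ad A f x h)) ?_
    (isCompact_closedBall (0:E3) (κ * L))
  have h2 := tn_joint hρc hρ hκ
  have h3 := continuous_ad hA hf
  exact h2.mul ((continuous_snd.norm.pow 2).mul h3)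

lemma PP_cont (hA : Continuous A) (hf : Continuous f) (hρc : Continuous ρ)
    (hρ : ∀ x, 0 < ρ x) (hκ : 0 < κ) (hL : ∀ x, ρ x ≤ L) :
    Continuous fun x => PP A f (κ * ρ x) x := by
  have h1 : ∀ x, PP A f (κ * ρ x) x
      = ∫ h in closedBall (0:E3) (κ * L), (tn (κ * ρ x) h : ℂ) * (ph A x h * f (x + h)) := by
    intro x
    unfold PP
    symm
    apply setIntegral_eq_integral_of_forall_compl_eq_zero
    intro h hh
    rw [mem_closedBall, dist_zero_right, not_le] at hh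
    rw [tn_zero (mul_pos hκ (hρ x)) ?_, Complex.ofReal_zero, zero_mul]
    exact ((mul_le_mul_of_nonneg_left (hL x) hκ.le).trans hh.le)
  simp only [h1]
  refine continuous_parametric_integral_of_continuous
    (f := fun x h => (tn (κ * ρ x) h : ℂ) * (ph A x h * f (x + h))) ?_
    (isCompact_closedBall (0:E3) (κ * L))
  have h2 := tn_joint hρc hρ hκ
  have h3 := continuous_ph hA
  have h4 : Continuous fun p : E3 × E3 => f (p.1 + p.2) :=
    hf.comp (continuous_fst.add continuous_snd)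
  exact (Complex.continuous_ofReal.comp h2).mul (h3.mul h4)

/-- pointwise kernel comparison -/
lemma kernel_le (hl : LipschitzWith 1 ρ) (hρ : ∀ x, 0 < ρ x) (hκ : 0 < κ) (hκ2 : κ ≤ 1 / 2)
    {t : ℝ} (ht0 : 0 ≤ t) (ht1 : t ≤ 1) (x h : E3) :
    (ρ x ^ 4)⁻¹ * (tn (κ * ρ x) h * ‖h‖ ^ 2)
      ≤ 9 / 4 * κ ^ 2 * (ρ (x + t • h) ^ 2)⁻¹ * tn (2 * κ * ρ (x + t • h)) h := by
  have hx := hρ x
  have hz := hρ (x + t • h)
  by_cases hh : κ * ρ x ≤ ‖h‖
  · rw [tn_zero (by positivity) hh]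
    have := tn_nonneg (2 * κ * ρ (x + t • h)) h
    rw [zero_mul, mul_zero]
    positivity
  · rw [not_le] at hh
    have hth : ‖t • h‖ ≤ κ * ρ x := by
      rw [norm_smul, Real.norm_of_nonneg ht0]
      nlinarith [norm_nonneg h]
    have l1 : ρ (x + t • h) ≤ ρ x + ‖t • h‖ := by
      have := lip_le hl (x + t • h) x
      simpa using this
    have l2 : ρ x ≤ ρ (x + t • h) + ‖t • h‖ := by
      have := lip_le hl x (x + t • h)
      simpa using this
    have l3 : κ * ρ x ≤ ρ x / 2 := by nlinarith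
    have l4 : ρ (x + t • h) ≤ 3 / 2 * ρ x := by linarith
    have l5 : ρ x ≤ 2 * ρ (x + t • h) := by linarith
    set z := ρ (x + t • h) with hzdef
    have m1 : tn (κ * ρ x) h ≤ tn (2 * κ * z) h := by
      refine tn_mono (by positivity) ?_ h
      nlinarith
    have m2 : ‖h‖ ^ 2 ≤ κ ^ 2 * ρ x ^ 2 := by
      rw [← mul_pow]
      gcongr
    have m3 : (ρ x ^ 2)⁻¹ ≤ 9 / 4 * (z ^ 2)⁻¹ := by
      rw [inv_le_iff_one_le_mul₀ (by positivity)]
      have : 9 / 4 * (z ^ 2)⁻¹ * ρ x ^ 2 = (3 / 2 * ρ x) ^ 2 / z ^ 2 := by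
        field_simp; norm_num
      rw [this, le_div_iff₀ (by positivity), one_mul]
      gcongr
    have m4 := tn_nonneg (κ * ρ x) h
    calc (ρ x ^ 4)⁻¹ * (tn (κ * ρ x) h * ‖h‖ ^ 2)
        ≤ (ρ x ^ 4)⁻¹ * (tn (2 * κ * z) h * (κ ^ 2 * ρ x ^ 2)) := by
          have := m4.trans m1
          gcongr
      _ = κ ^ 2 * ((ρ x ^ 2)⁻¹ * tn (2 * κ * z) h) := by field_simp
      _ ≤ κ ^ 2 * (9 / 4 * (z ^ 2)⁻¹ * tn (2 * κ * z) h) := by
          have := m4.trans m1
          gcongr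
      _ = _ := by ring

lemma int_G (hA : Continuous A) (hf : ContDiff ℝ 1 f) (hs : HasCompactSupport f)
    (hl : LipschitzWith 1 ρ) (hρ : ∀ x, 0 < ρ x) (hκ : 0 < κ) (hκ2 : κ ≤ 1 / 2)
    (hL : ∀ x, ρ x ≤ L) {s : E3 → ℝ} (hsc : Continuous s) (hss : HasCompactSupport s)
    (hs0 : ∀ x, 0 ≤ s x) (hs1 : ∀ x, s x ≤ 1) :
    ∫ x, s x * ((ρ x ^ 4)⁻¹ * GG A f (κ * ρ x) x) ≤ 18 * c0 * κ ^ 5 * ∫ x, ρ x * dsq A f x := by
  have hρc := hl.continuous
  have hdc := continuous_dsq hA hf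
  have hG := GG_cont hA hf hρc hρ hκ hL
  have hG0 : ∀ x, 0 ≤ GG A f (κ * ρ x) x := fun x =>
    integral_nonneg fun h => mul_nonneg (tn_nonneg _ _) (mul_nonneg (sq_nonneg _)
      (ad_nonneg _ _ _ _))
  have hinv4 : Continuous fun x => (ρ x ^ 4)⁻¹ :=
    (hρc.pow 4).inv₀ fun x => (pow_pos (hρ x) 4).ne'
  have hinv2 : Continuous fun x => (ρ x ^ 2)⁻¹ :=
    (hρc.pow 2).inv₀ fun x => (pow_pos (hρ x) 2).ne'
  have hc0 := c0_pos
  have iL : Integrable fun x => s x * ((ρ x ^ 4)⁻¹ * GG A f (κ * ρ x) x) :=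
    Continuous.integrable_of_hasCompactSupport (by fun_prop) hss.mul_right
  have iR : Integrable fun x => ρ x * dsq A f x :=
    Continuous.integrable_of_hasCompactSupport (by fun_prop) (compact_dsq hs).mul_left
  have iR' : Integrable fun x => 18 * c0 * κ ^ 5 * (ρ x * dsq A f x) := iR.const_mul _
  have hLnn : ∀ x, 0 ≤ s x * ((ρ x ^ 4)⁻¹ * GG A f (κ * ρ x) x) := fun x =>
    mul_nonneg (hs0 x) (mul_nonneg (inv_nonneg.mpr (pow_nonneg (hρ x).le 4)) (hG0 x))
  have hRnn : ∀ x, 0 ≤ 18 * c0 * κ ^ 5 * (ρ x * dsq A f x) := fun x =>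
    mul_nonneg (by positivity) (mul_nonneg (hρ x).le (dsq_nonneg _ _ _))
  rw [← integral_const_mul]
  refine (ENNReal.ofReal_le_ofReal_iff (integral_nonneg hRnn)).mp ?_
  rw [ofReal_integral_eq_lintegral_ofReal iL (ae_of_all _ hLnn),
    ofReal_integral_eq_lintegral_ofReal iR' (ae_of_all _ hRnn)]
  let a : E3 → E3 → ℝ := fun x h => (ρ x ^ 4)⁻¹ * (tn (κ * ρ x) h * (‖h‖ ^ 2 * ad A f x h))
  have htj := tn_joint hρc hρ hκ
  have hadj := continuous_ad hA hf
  have hac : Continuous fun p : E3 × E3 => a p.1 p.2 :=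
    (hinv4.comp continuous_fst).mul (htj.mul ((continuous_snd.norm.pow 2).mul hadj))
  let H : E3 → E3 → ℝ := fun z h =>
    9 / 4 * κ ^ 2 * (ρ z ^ 2)⁻¹ * dsq A f z * tn (2 * κ * ρ z) h
  have htj2 := tn_joint hρc hρ (mul_pos two_pos hκ)
  have hHc : Continuous fun p : E3 × E3 => H p.1 p.2 :=
    ((continuous_const.mul (hinv2.comp continuous_fst)).mul (hdc.comp continuous_fst)).mul htj2
  calc ∫⁻ x, ENNReal.ofReal (s x * ((ρ x ^ 4)⁻¹ * GG A f (κ * ρ x) x))
      ≤ ∫⁻ x, ∫⁻ h, ENNReal.ofReal (a x h) := by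
        refine lintegral_mono fun x => ?_
        have hx := hρ x
        have hr : 0 < κ * ρ x := by positivity
        have hpair : Continuous fun h : E3 => (x, h) := Continuous.prodMk_right x
        have hadx : Continuous fun h => ad A f x h := by
          have := hadj.comp hpair
          simpa only [Function.comp_def] using this
        have htc := tn_cont (κ * ρ x)
        have i1 : Integrable fun h => a x h := by
          refine Continuous.integrable_of_hasCompactSupport ?_ ?_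
          · simp only [a]; fun_prop
          · exact ((tn_supp hr).mul_right).mul_left
        rw [← ofReal_integral_eq_lintegral_ofReal i1 (ae_of_all _ fun h =>
          mul_nonneg (by positivity) (mul_nonneg (tn_nonneg _ _) (mul_nonneg (sq_nonneg _)
            (ad_nonneg _ _ _ _))))]
        refine ENNReal.ofReal_le_ofReal ?_
        simp only [a]
        rw [integral_const_mul]
        show s x * ((ρ x ^ 4)⁻¹ * GG A f (κ * ρ x) x) ≤ (ρ x ^ 4)⁻¹ * GG A f (κ * ρ x) x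
        have h1 : 0 ≤ (ρ x ^ 4)⁻¹ * GG A f (κ * ρ x) x :=
          mul_nonneg (by positivity) (hG0 x)
        nlinarith [hs1 x, hs0 x]
    _ = ∫⁻ h, ∫⁻ x, ENNReal.ofReal (a x h) :=
        lintegral_lintegral_swap (hac.measurable.ennreal_ofReal.aemeasurable)
    _ ≤ ∫⁻ h, ∫⁻ z, ENNReal.ofReal (H z h) := by
        refine lintegral_mono fun h => ?_
        have e1 : ∀ x, ENNReal.ofReal (a x h) = ∫⁻ t in Ioc (0:ℝ) 1,
            ENNReal.ofReal ((ρ x ^ 4)⁻¹ * (tn (κ * ρ x) h * ‖h‖ ^ 2) * dsq A f (x + t • h)) := by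
          intro x
          have hx := hρ x
          have hcl : Continuous fun t : ℝ => dsq A f (x + t • h) :=
            hdc.comp (by fun_prop)
          have hi : IntegrableOn (fun t : ℝ => (ρ x ^ 4)⁻¹ * (tn (κ * ρ x) h * ‖h‖ ^ 2)
              * dsq A f (x + t • h)) (Ioc 0 1) :=
            (continuous_const.mul hcl).integrableOn_Ioc
          rw [← ofReal_integral_eq_lintegral_ofReal hi (ae_of_all _ fun t =>
            mul_nonneg (mul_nonneg (by positivity) (mul_nonneg (tn_nonneg _ _) (sq_nonneg _)))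
              (dsq_nonneg _ _ _))]
          congr 1
          simp only [a, ad]
          rw [intervalIntegral.integral_of_le (by norm_num), integral_const_mul]
          ring
        simp only [e1]
        have hFc : Continuous fun p : E3 × ℝ =>
            (ρ p.1 ^ 4)⁻¹ * (tn (κ * ρ p.1) h * ‖h‖ ^ 2) * dsq A f (p.1 + p.2 • h) := by
          have k1 : Continuous fun p : E3 × ℝ => (ρ p.1 ^ 4)⁻¹ := hinv4.comp continuous_fst
          have k2 : Continuous fun p : E3 × ℝ => tn (κ * ρ p.1) h :=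
            htj.comp (f := fun p : E3 × ℝ => (p.1, h)) (by fun_prop)
          have k3 : Continuous fun p : E3 × ℝ => dsq A f (p.1 + p.2 • h) :=
            hdc.comp (by fun_prop)
          exact (k1.mul (k2.mul continuous_const)).mul k3
        rw [lintegral_lintegral_swap (hFc.measurable.ennreal_ofReal.aemeasurable)]
        calc ∫⁻ t in Ioc (0:ℝ) 1, ∫⁻ x, ENNReal.ofReal
              ((ρ x ^ 4)⁻¹ * (tn (κ * ρ x) h * ‖h‖ ^ 2) * dsq A f (x + t • h))
            ≤ ∫⁻ t in Ioc (0:ℝ) 1, ∫⁻ z, ENNReal.ofReal (H z h) := by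
              refine setLIntegral_mono' measurableSet_Ioc fun t ht => ?_
              rw [← lintegral_add_right_eq_self (fun z => ENNReal.ofReal (H z h)) (t • h)]
              refine lintegral_mono fun x => ENNReal.ofReal_le_ofReal ?_
              have := kernel_le hl hρ hκ hκ2 ht.1.le ht.2 x h
              have hd := dsq_nonneg A f (x + t • h)
              calc (ρ x ^ 4)⁻¹ * (tn (κ * ρ x) h * ‖h‖ ^ 2) * dsq A f (x + t • h)
                  ≤ (9 / 4 * κ ^ 2 * (ρ (x + t • h) ^ 2)⁻¹ * tn (2 * κ * ρ (x + t • h)) h)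
                    * dsq A f (x + t • h) := by gcongr
                _ = H (x + t • h) h := by simp only [H]; ring
          _ = ∫⁻ z, ENNReal.ofReal (H z h) := by
              rw [lintegral_const]
              simp
    _ = ∫⁻ z, ∫⁻ h, ENNReal.ofReal (H z h) :=
        (lintegral_lintegral_swap (hHc.measurable.ennreal_ofReal.aemeasurable)).symm
    _ = ∫⁻ z, ENNReal.ofReal (18 * c0 * κ ^ 5 * (ρ z * dsq A f z)) := by
        refine lintegral_congr fun z => ?_
        have hz := hρ z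
        have hr : 0 < 2 * κ * ρ z := by positivity
        have hd := dsq_nonneg A f z
        have i1 : Integrable fun h => H z h :=
          ((tn_cont (2 * κ * ρ z)).integrable_of_hasCompactSupport (tn_supp hr)).const_mul _
        rw [← ofReal_integral_eq_lintegral_ofReal i1 (ae_of_all _ fun h =>
          mul_nonneg (by positivity) (tn_nonneg _ _))]
        congr 1
        simp only [H]
        rw [integral_const_mul, int_tn hr]
        field_simp
        ring

end

end Pool.Agent.H7R3.Mag
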