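import Mathlib
import Pool.Agent.H7R3.Mag.MC
import Pool.Agent.H7R3.Mag.MH
import Pool.Agent.H7R3.Mag.MK

set_option autoImplicit false

open MeasureTheory Filter Topology Set Metric
open scoped ENNReal NNReal ContDiff ComplexConjugate

namespace Pool.Agent.H7R3.Mag

/-- the Poincaré inequality with an exclusion kernel -/
theorem poincare {A : E3 → E3} {f : E3 → ℂ} {ρ s : E3 → ℝ} {κ L : ℝ}
    (hA : Continuous A) (hf : ContDiff ℝ 1 f) (hs : HasCompactSupport f)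
    (hl : LipschitzWith 1 ρ) (hρ : ∀ x, 0 < ρ x) (hκ : 0 < κ) (hκ2 : κ ≤ 1 / 2)
    (hL : ∀ x, ρ x ≤ L) (hsc : Continuous s) (hss : HasCompactSupport s)
    (hs0 : ∀ x, 0 ≤ s x) (hs1 : ∀ x, s x ≤ 1) :
    ∫ x, s x * ((ρ x)⁻¹ * ‖f x‖ ^ 2) ≤ 36 * κ ^ 2 * (∫ x, ρ x * dsq A f x)
      + 4 / (c0 ^ 2 * κ ^ 6) * ∫ x, s x * ρ x * ‖∫ y, qq A ρ κ x y * f y‖ ^ 2 := by
  have hρc := hl.continuous
  have hfc := hf.continuous
  have hinv : Continuous fun x => (ρ x)⁻¹ := hρc.inv₀ fun x => (hρ x).ne'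
  have hinv4 : Continuous fun x => (ρ x ^ 4)⁻¹ :=
    (hρc.pow 4).inv₀ fun x => (pow_pos (hρ x) 4).ne'
  have hG := GG_cont hA hf hρc hρ hκ hL
  have hP := PP_cont hA hfc hρc hρ hκ hL
  have hc0 := c0_pos
  have hQ : ∀ x, ‖∫ y, qq A ρ κ x y * f y‖ ^ 2 = (ρ x ^ 8)⁻¹ * ‖PP A f (κ * ρ x) x‖ ^ 2 := by
    intro x
    rw [qq_int, norm_mul, Complex.norm_real, Real.norm_eq_abs, mul_pow, sq_abs, inv_pow, ← pow_mul]
  have hQc : Continuous fun x => ‖∫ y, qq A ρ κ x y * f y‖ ^ 2 := by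
    simp only [hQ]
    exact ((hρc.pow 8).inv₀ fun x => (pow_pos (hρ x) 8).ne').mul (hP.norm.pow 2)
  have i0 : Integrable fun x => s x * ((ρ x)⁻¹ * ‖f x‖ ^ 2) :=
    Continuous.integrable_of_hasCompactSupport (by fun_prop) hss.mul_right
  have i1 : Integrable fun x => s x * ((ρ x ^ 4)⁻¹ * GG A f (κ * ρ x) x) :=
    Continuous.integrable_of_hasCompactSupport (by fun_prop) hss.mul_right
  have i2 : Integrable fun x => s x * ρ x * ‖∫ y, qq A ρ κ x y * f y‖ ^ 2 :=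
    Continuous.integrable_of_hasCompactSupport ((hsc.mul hρc).mul hQc)
      (hss.mul_right).mul_right
  have h1 : ∫ x, s x * ((ρ x)⁻¹ * ‖f x‖ ^ 2)
      ≤ 2 / (c0 * κ ^ 3) * (∫ x, s x * ((ρ x ^ 4)⁻¹ * GG A f (κ * ρ x) x))
        + 4 / (c0 ^ 2 * κ ^ 6) * ∫ x, s x * ρ x * ‖∫ y, qq A ρ κ x y * f y‖ ^ 2 := by
    rw [← integral_const_mul, ← integral_const_mul, ← integral_add (i1.const_mul _)
      (i2.const_mul _)]
    refine integral_mono i0 ((i1.const_mul _).add (i2.const_mul _)) fun x => ?_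
    have hx := hρ x
    have hr : 0 < κ * ρ x := by positivity
    have hp := pointwise_P hA hf hr x
    show s x * ((ρ x)⁻¹ * ‖f x‖ ^ 2) ≤ 2 / (c0 * κ ^ 3) * (s x * ((ρ x ^ 4)⁻¹ * GG A f (κ * ρ x) x))
      + 4 / (c0 ^ 2 * κ ^ 6) * (s x * ρ x * ‖∫ y, qq A ρ κ x y * f y‖ ^ 2)
    rw [hQ]
    have hm : 0 ≤ s x * ((ρ x ^ 4)⁻¹ / (c0 * κ ^ 3)) :=
      mul_nonneg (hs0 x) (by positivity)
    have h2 := mul_le_mul_of_nonneg_left hp hm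
    have e1 : s x * ((ρ x ^ 4)⁻¹ / (c0 * κ ^ 3)) * ((κ * ρ x) ^ 3 * c0 * ‖f x‖ ^ 2)
        = s x * ((ρ x)⁻¹ * ‖f x‖ ^ 2) := by
      field_simp
    have e2 : s x * ((ρ x ^ 4)⁻¹ / (c0 * κ ^ 3)) * (2 * GG A f (κ * ρ x) x
        + 4 / ((κ * ρ x) ^ 3 * c0) * ‖PP A f (κ * ρ x) x‖ ^ 2)
        = 2 / (c0 * κ ^ 3) * (s x * ((ρ x ^ 4)⁻¹ * GG A f (κ * ρ x) x))
          + 4 / (c0 ^ 2 * κ ^ 6) * (s x * ρ x * ((ρ x ^ 8)⁻¹ * ‖PP A f (κ * ρ x) x‖ ^ 2)) := by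
      field_simp
      try ring
    rw [e1, e2] at h2
    exact h2
  have h3 := int_G hA hf hs hl hρ hκ hκ2 hL hsc hss hs0 hs1
  have h4 : 2 / (c0 * κ ^ 3) * (∫ x, s x * ((ρ x ^ 4)⁻¹ * GG A f (κ * ρ x) x))
      ≤ 36 * κ ^ 2 * ∫ x, ρ x * dsq A f x := by
    calc 2 / (c0 * κ ^ 3) * (∫ x, s x * ((ρ x ^ 4)⁻¹ * GG A f (κ * ρ x) x))
        ≤ 2 / (c0 * κ ^ 3) * (18 * c0 * κ ^ 5 * ∫ x, ρ x * dsq A f x) := by gcongr
      _ = _ := by field_simp; ring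
  linarith

/-- the Coulomb bound by the weighted energies -/
lemma coul_le {A : E3 → E3} (hA : Continuous A) {f : E3 → ℂ} (hf : ContDiff ℝ 1 f)
    (hs : HasCompactSupport f) {ρ : E3 → ℝ} (hρc : Continuous ρ) (hρ : ∀ x, 0 < ρ x) :
    ∫ x, ‖f x‖ ^ 2 / ‖x‖ ≤ 1 / 2 * ((∫ x, ρ x * dsq A f x) + ∫ x, (ρ x)⁻¹ * ‖f x‖ ^ 2) := by
  have hfc := hf.continuous
  have hdc := continuous_dsq hA hf
  have hinv : Continuous fun x => (ρ x)⁻¹ := hρc.inv₀ fun x => (hρ x).ne'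
  have n2 : HasCompactSupport fun x => ‖f x‖ ^ 2 :=
    hs.comp_left (g := fun z : ℂ => ‖z‖ ^ 2) (by simp)
  have i1 : Integrable fun x => ρ x * dsq A f x :=
    Continuous.integrable_of_hasCompactSupport (by fun_prop) (compact_dsq hs).mul_left
  have i2 : Integrable fun x => (ρ x)⁻¹ * ‖f x‖ ^ 2 :=
    Continuous.integrable_of_hasCompactSupport (by fun_prop) n2.mul_left
  have i3 : Integrable fun x => ‖f x‖ * √(dsq A f x) :=
    (hfc.norm.mul hdc.sqrt).integrable_of_hasCompactSupport hs.norm.mul_right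
  refine (hardy hA hf hs).2.trans ?_
  rw [← integral_add i1 i2, ← integral_const_mul]
  refine integral_mono i3 ((i1.add i2).const_mul _) fun x => ?_
  have hx := hρ x
  show ‖f x‖ * √(dsq A f x) ≤ 1 / 2 * (ρ x * dsq A f x + (ρ x)⁻¹ * ‖f x‖ ^ 2)
  have h1 := Real.sq_sqrt (dsq_nonneg A f x)
  set d := √(dsq A f x)
  rw [← h1]
  have h2 : 0 ≤ (ρ x * d - ‖f x‖) ^ 2 / (2 * ρ x) := by positivity
  have h3 : (ρ x * d - ‖f x‖) ^ 2 / (2 * ρ x)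
      = 1 / 2 * (ρ x * d ^ 2 + (ρ x)⁻¹ * ‖f x‖ ^ 2) - ‖f x‖ * d := by
    field_simp
    ring
  linarith

/-- **The one-body inequality.** -/
theorem one_body : ∃ C : ℝ, 0 < C ∧ ∀ (A : E3 → E3) (L : ℝ), ContDiff ℝ ∞ A →
    HasCompactSupport A → 0 < L →
    ∃ (w : E3 → ℝ) (q : E3 → E3 → ℂ), Continuous w ∧ HasCompactSupport w ∧ (∀ x, 0 ≤ w x) ∧
      Continuous (fun p : E3 × E3 => q p.1 p.2) ∧
      (∃ R : ℝ, ∀ x y, R < ‖y - x‖ → q x y = 0) ∧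
      (∫ x, w x * (∫ y, ‖q x y‖ ^ 2) ≤ C * ∫ x, Bn A x ^ 2) ∧
      ∀ f0 f1 : E3 → ℂ, ContDiff ℝ ∞ f0 → ContDiff ℝ ∞ f1 → HasCompactSupport f0 →
        HasCompactSupport f1 →
        ∫ x, (‖f0 x‖ ^ 2 + ‖f1 x‖ ^ 2) / ‖x‖ ≤
          C * (L * (∫ x, (‖DU A f0 f1 x‖ ^ 2 + ‖DL A f0 f1 x‖ ^ 2))
            + L⁻¹ * (∫ x, (‖f0 x‖ ^ 2 + ‖f1 x‖ ^ 2))
            + ∫ x, w x * (‖∫ y, q x y * f0 y‖ ^ 2 + ‖∫ y, q x y * f1 y‖ ^ 2)) := by
  obtain ⟨δ0, hδ0, hTKM⟩ := TKM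
  have hc0 := c0_pos
  have hCc := Ccost_nonneg hδ0
  let κ : ℝ := 1 / 16
  have hκ : 0 < κ := by norm_num [κ]
  have hκ2 : κ ≤ 1 / 2 := by norm_num [κ]
  have hκ36 : 36 * κ ^ 2 = 9 / 64 := by norm_num [κ]
  let D : ℝ := 4 / (c0 ^ 2 * κ ^ 6)
  have hD : 0 < D := by positivity
  refine ⟨16 + 4 * D + c0 * κ ^ 3 * Ccost δ0, by positivity, ?_⟩
  intro A L hA hAs hL
  have one : ((1:ℕ∞) : WithTop ℕ∞) ≤ ((⊤ : ℕ∞) : WithTop ℕ∞) := by exact_mod_cast le_top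
  have hAc := hA.continuous
  obtain ⟨ρ, s, hρs, hl, hρ, hρL, hsc, hss, hs0, hs1, hs4, hm, hcost⟩ :=
    exists_scale (continuous_Bn (hA.of_le one)) (compact_Bn hAs) (Bn_nonneg A) hδ0 hL
  have hρc := hρs.continuous
  have hinv : Continuous fun x => (ρ x)⁻¹ := hρc.inv₀ fun x => (hρ x).ne'
  have hinv4 : Continuous fun x => (ρ x ^ 4)⁻¹ :=
    (hρc.pow 4).inv₀ fun x => (pow_pos (hρ x) 4).ne'
  refine ⟨fun x => s x * ρ x, qq A ρ κ, hsc.mul hρc, hss.mul_right,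
    fun x => mul_nonneg (hs0 x) (hρ x).le, ?_, ⟨κ * (2 * L), ?_⟩, ?_, ?_⟩
  · unfold qq
    have h1 : Continuous fun p : E3 × E3 => tn (κ * ρ p.1) (p.2 - p.1) :=
      (tn_joint hρc hρ hκ).comp (f := fun p : E3 × E3 => (p.1, p.2 - p.1)) (by fun_prop)
    have h2 : Continuous fun p : E3 × E3 => ph A p.1 (p.2 - p.1) :=
      (continuous_ph hAc).comp (f := fun p : E3 × E3 => (p.1, p.2 - p.1)) (by fun_prop)
    exact (Complex.continuous_ofReal.comp ((hinv4.comp continuous_fst).mul h1)).mul h2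
  · intro x y hxy
    unfold qq
    rw [tn_zero (mul_pos hκ (hρ x)) ?_]
    · simp
    · exact (mul_le_mul_of_nonneg_left (hρL x) hκ.le).trans hxy.le
  · have hI : 0 ≤ ∫ x, Bn A x ^ 2 := integral_nonneg fun x => sq_nonneg _
    have i1 : Integrable fun x => c0 * κ ^ 3 * (s x * (ρ x ^ 4)⁻¹) := by
      refine Continuous.integrable_of_hasCompactSupport (by fun_prop) ?_
      exact hss.mul_right.mul_left
    calc ∫ x, s x * ρ x * (∫ y, ‖qq A ρ κ x y‖ ^ 2)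
        ≤ ∫ x, c0 * κ ^ 3 * (s x * (ρ x ^ 4)⁻¹) := by
          refine integral_mono_of_nonneg (ae_of_all _ fun x => ?_) i1 (ae_of_all _ fun x => ?_)
          · exact mul_nonneg (mul_nonneg (hs0 x) (hρ x).le) (integral_nonneg fun y => sq_nonneg _)
          · show s x * ρ x * (∫ y, ‖qq A ρ κ x y‖ ^ 2) ≤ c0 * κ ^ 3 * (s x * (ρ x ^ 4)⁻¹)
            have h1 := qq_norm (A := A) hρ hκ x
            have hx := hρ x
            calc s x * ρ x * (∫ y, ‖qq A ρ κ x y‖ ^ 2)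
                ≤ s x * ρ x * (c0 * κ ^ 3 * ((ρ x ^ 5)⁻¹)) := by
                  have := hs0 x
                  gcongr
              _ = _ := by field_simp
      _ = c0 * κ ^ 3 * ∫ x, s x * (ρ x ^ 4)⁻¹ := integral_const_mul _ _
      _ ≤ c0 * κ ^ 3 * (Ccost δ0 * ∫ x, Bn A x ^ 2) := by gcongr
      _ = (c0 * κ ^ 3 * Ccost δ0) * ∫ x, Bn A x ^ 2 := by ring
      _ ≤ _ := by
          refine mul_le_mul_of_nonneg_right ?_ hI
          linarith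
  · intro f0 f1 h0 h1 t0 t1
    have hT := hTKM A f0 f1 ρ hA hAs h0 h1 t0 t1 hρs hl hρ hm
    have p0 := poincare hAc (h0.of_le one) t0 hl hρ hκ hκ2 hρL hsc hss hs0 hs1
    have p1 := poincare hAc (h1.of_le one) t1 hl hρ hκ hκ2 hρL hsc hss hs0 hs1
    have k0 := coul_le hAc (h0.of_le one) t0 hρc hρ
    have k1 := coul_le hAc (h1.of_le one) t1 hρc hρ
    have c0' := continuous_dsq hAc (h0.of_le one)
    have c1' := continuous_dsq hAc (h1.of_le one)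
    have cU := continuous_DU hAc (h0.of_le one) (h1.of_le one)
    have cL := continuous_DL hAc (h0.of_le one) (h1.of_le one)
    have hf0 := h0.continuous
    have hf1 := h1.continuous
    have n2 : ∀ f : E3 → ℂ, HasCompactSupport f → HasCompactSupport fun x => ‖f x‖ ^ 2 :=
      fun f hs => hs.comp_left (g := fun z : ℂ => ‖z‖ ^ 2) (by simp)
    have iT : ∀ f : E3 → ℂ, Continuous (dsq A f) → HasCompactSupport f →
        Integrable fun x => ρ x * dsq A f x := fun f hf hs =>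
      Continuous.integrable_of_hasCompactSupport (by fun_prop) (compact_dsq hs).mul_left
    have iM : ∀ f : E3 → ℂ, Continuous f → HasCompactSupport f →
        Integrable fun x => (ρ x)⁻¹ * ‖f x‖ ^ 2 := fun f hf hs =>
      Continuous.integrable_of_hasCompactSupport (by fun_prop) (n2 f hs).mul_left
    have iS : ∀ f : E3 → ℂ, Continuous f → HasCompactSupport f →
        Integrable fun x => s x * ((ρ x)⁻¹ * ‖f x‖ ^ 2) := fun f hf hs =>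
      Continuous.integrable_of_hasCompactSupport (by fun_prop) ((n2 f hs).mul_left).mul_left
    have iN : ∀ f : E3 → ℂ, Continuous f → HasCompactSupport f →
        Integrable fun x => ‖f x‖ ^ 2 := fun f hf hs =>
      Continuous.integrable_of_hasCompactSupport (by fun_prop) (n2 f hs)
    have iQ : ∀ f : E3 → ℂ, Continuous f →
        Integrable fun x => s x * ρ x * ‖∫ y, qq A ρ κ x y * f y‖ ^ 2 := by
      intro f hf
      have hP := PP_cont hAc hf hρc hρ hκ hρL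
      have hQ : ∀ x, ‖∫ y, qq A ρ κ x y * f y‖ ^ 2 = (ρ x ^ 8)⁻¹ * ‖PP A f (κ * ρ x) x‖ ^ 2 := by
        intro x
        rw [qq_int, norm_mul, Complex.norm_real, Real.norm_eq_abs, mul_pow, sq_abs, inv_pow,
          ← pow_mul]
      have hQc : Continuous fun x => ‖∫ y, qq A ρ κ x y * f y‖ ^ 2 := by
        simp only [hQ]
        exact ((hρc.pow 8).inv₀ fun x => (pow_pos (hρ x) 8).ne').mul (hP.norm.pow 2)
      exact ((hsc.mul hρc).mul hQc).integrable_of_hasCompactSupport (hss.mul_right).mul_right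
    have eT : ∫ x, ρ x * (dsq A f0 x + dsq A f1 x)
        = (∫ x, ρ x * dsq A f0 x) + ∫ x, ρ x * dsq A f1 x := by
      rw [← integral_add (iT f0 c0' t0) (iT f1 c1' t1)]
      exact integral_congr_ae (ae_of_all _ fun x => by ring)
    have eM : ∫ x, (ρ x)⁻¹ * (‖f0 x‖ ^ 2 + ‖f1 x‖ ^ 2)
        = (∫ x, (ρ x)⁻¹ * ‖f0 x‖ ^ 2) + ∫ x, (ρ x)⁻¹ * ‖f1 x‖ ^ 2 := by
      rw [← integral_add (iM f0 hf0 t0) (iM f1 hf1 t1)]
      exact integral_congr_ae (ae_of_all _ fun x => by ring)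
    have eN : ∫ x, (‖f0 x‖ ^ 2 + ‖f1 x‖ ^ 2) = (∫ x, ‖f0 x‖ ^ 2) + ∫ x, ‖f1 x‖ ^ 2 :=
      integral_add (iN f0 hf0 t0) (iN f1 hf1 t1)
    have eE : ∫ x, s x * ρ x * (‖∫ y, qq A ρ κ x y * f0 y‖ ^ 2 + ‖∫ y, qq A ρ κ x y * f1 y‖ ^ 2)
        = (∫ x, s x * ρ x * ‖∫ y, qq A ρ κ x y * f0 y‖ ^ 2)
          + ∫ x, s x * ρ x * ‖∫ y, qq A ρ κ x y * f1 y‖ ^ 2 := by
      rw [← integral_add (iQ f0 hf0) (iQ f1 hf1)]
      exact integral_congr_ae (ae_of_all _ fun x => by ring)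
    have eC : ∫ x, (‖f0 x‖ ^ 2 + ‖f1 x‖ ^ 2) / ‖x‖
        = (∫ x, ‖f0 x‖ ^ 2 / ‖x‖) + ∫ x, ‖f1 x‖ ^ 2 / ‖x‖ := by
      rw [← integral_add (hardy hAc (h0.of_le one) t0).1 (hardy hAc (h1.of_le one) t1).1]
      exact integral_congr_ae (ae_of_all _ fun x => by ring)
    -- mass splitting
    have hMs : ∀ f : E3 → ℂ, Continuous f → HasCompactSupport f →
        ∫ x, (ρ x)⁻¹ * ‖f x‖ ^ 2 ≤ 4 / L * (∫ x, ‖f x‖ ^ 2)
          + ∫ x, s x * ((ρ x)⁻¹ * ‖f x‖ ^ 2) := by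
      intro f hf hs
      rw [← integral_const_mul, ← integral_add ((iN f hf hs).const_mul _) (iS f hf hs)]
      refine integral_mono (iM f hf hs) (((iN f hf hs).const_mul _).add (iS f hf hs)) fun x => ?_
      show (ρ x)⁻¹ * ‖f x‖ ^ 2 ≤ 4 / L * ‖f x‖ ^ 2 + s x * ((ρ x)⁻¹ * ‖f x‖ ^ 2)
      have h2 := mul_le_mul_of_nonneg_right (hs4 x) (sq_nonneg ‖f x‖)
      nlinarith [h2]
    have m0 := hMs f0 hf0 t0
    have m1 := hMs f1 hf1 t1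
    -- kinetic term
    have iD : Integrable fun x => ‖DU A f0 f1 x‖ ^ 2 + ‖DL A f0 f1 x‖ ^ 2 :=
      Continuous.integrable_of_hasCompactSupport (by fun_prop)
        (hsup2 t0 t1 _ fun x a b => by
          unfold DU DL
          simp [cov_support _ a, cov_support _ b])
    have iK : Integrable fun x => ρ x * (‖DU A f0 f1 x‖ ^ 2 + ‖DL A f0 f1 x‖ ^ 2) :=
      Continuous.integrable_of_hasCompactSupport (by fun_prop)
        (hsup2 t0 t1 _ fun x a b => by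
          unfold DU DL
          simp [cov_support _ a, cov_support _ b])
    have hK : ∫ x, ρ x * (‖DU A f0 f1 x‖ ^ 2 + ‖DL A f0 f1 x‖ ^ 2)
        ≤ 2 * L * ∫ x, (‖DU A f0 f1 x‖ ^ 2 + ‖DL A f0 f1 x‖ ^ 2) := by
      rw [← integral_const_mul]
      refine integral_mono iK (iD.const_mul _) fun x => ?_
      exact mul_le_mul_of_nonneg_right (hρL x) (by positivity)
    have q0 : 0 ≤ ∫ x, s x * ρ x * ‖∫ y, qq A ρ κ x y * f0 y‖ ^ 2 := integral_nonneg fun x =>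
      mul_nonneg (mul_nonneg (hs0 x) (hρ x).le) (sq_nonneg _)
    have q1 : 0 ≤ ∫ x, s x * ρ x * ‖∫ y, qq A ρ κ x y * f1 y‖ ^ 2 := integral_nonneg fun x =>
      mul_nonneg (mul_nonneg (hs0 x) (hρ x).le) (sq_nonneg _)
    have q2 : 0 ≤ ∫ x, (‖DU A f0 f1 x‖ ^ 2 + ‖DL A f0 f1 x‖ ^ 2) :=
      integral_nonneg fun x => by positivity
    have q3 : 0 ≤ ∫ x, ‖f0 x‖ ^ 2 := integral_nonneg fun x => sq_nonneg _
    have q4 : 0 ≤ ∫ x, ‖f1 x‖ ^ 2 := integral_nonneg fun x => sq_nonneg _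
    show ∫ x, (‖f0 x‖ ^ 2 + ‖f1 x‖ ^ 2) / ‖x‖ ≤ (16 + 4 * D + c0 * κ ^ 3 * Ccost δ0) *
          (L * (∫ x, (‖DU A f0 f1 x‖ ^ 2 + ‖DL A f0 f1 x‖ ^ 2))
            + L⁻¹ * (∫ x, (‖f0 x‖ ^ 2 + ‖f1 x‖ ^ 2))
            + ∫ x, s x * ρ x * (‖∫ y, qq A ρ κ x y * f0 y‖ ^ 2
              + ‖∫ y, qq A ρ κ x y * f1 y‖ ^ 2))
    rw [hκ36] at p0 p1
    rw [eT, eM] at hT
    rw [eN, eE, eC]
    set T0 := ∫ x, ρ x * dsq A f0 x
    set T1 := ∫ x, ρ x * dsq A f1 x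
    set M0 := ∫ x, (ρ x)⁻¹ * ‖f0 x‖ ^ 2
    set M1 := ∫ x, (ρ x)⁻¹ * ‖f1 x‖ ^ 2
    set K := ∫ x, ρ x * (‖DU A f0 f1 x‖ ^ 2 + ‖DL A f0 f1 x‖ ^ 2)
    set K' := ∫ x, (‖DU A f0 f1 x‖ ^ 2 + ‖DL A f0 f1 x‖ ^ 2)
    set Q0 := ∫ x, s x * ρ x * ‖∫ y, qq A ρ κ x y * f0 y‖ ^ 2
    set Q1 := ∫ x, s x * ρ x * ‖∫ y, qq A ρ κ x y * f1 y‖ ^ 2
    set N0 := ∫ x, ‖f0 x‖ ^ 2
    set N1 := ∫ x, ‖f1 x‖ ^ 2
    have hLinv : 0 < L⁻¹ := inv_pos.mpr hL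
    have e4 : 4 / L = 4 * L⁻¹ := by rw [div_eq_mul_inv]
    rw [e4] at m0 m1
    have u1 : M0 + M1 ≤ 4 * (L⁻¹ * (N0 + N1)) + 9 / 64 * (T0 + T1) + D * (Q0 + Q1) := by
      simp only [D]
      linarith
    have hK' : K ≤ 2 * (L * K') := by linarith
    have g1 : 0 ≤ L⁻¹ * (N0 + N1) := mul_nonneg hLinv.le (add_nonneg q3 q4)
    have g2 : 0 ≤ D * (Q0 + Q1) := mul_nonneg hD.le (add_nonneg q0 q1)
    have g3 : 0 ≤ L * K' := mul_nonneg hL.le q2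
    have g4 : 0 ≤ Q0 + Q1 := add_nonneg q0 q1
    have u2 : T0 + T1 + (M0 + M1) ≤ 32 * (L * K') + 32 * (L⁻¹ * (N0 + N1)) + 8 * (D * (Q0 + Q1)) := by
      linarith
    have hX : 0 ≤ c0 * κ ^ 3 * Ccost δ0 := by positivity
    have v1' : 16 * (L * K') ≤ (16 + 4 * D + c0 * κ ^ 3 * Ccost δ0) * (L * K') :=
      mul_le_mul_of_nonneg_right (by linarith) g3
    have v2 : 16 * (L⁻¹ * (N0 + N1)) ≤ (16 + 4 * D + c0 * κ ^ 3 * Ccost δ0) * (L⁻¹ * (N0 + N1)) :=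
      mul_le_mul_of_nonneg_right (by linarith) g1
    have v3 : 4 * D * (Q0 + Q1) ≤ (16 + 4 * D + c0 * κ ^ 3 * Ccost δ0) * (Q0 + Q1) :=
      mul_le_mul_of_nonneg_right (by linarith) g4
    have u3 : (∫ x, ‖f0 x‖ ^ 2 / ‖x‖) + (∫ x, ‖f1 x‖ ^ 2 / ‖x‖)
        ≤ 16 * (L * K') + 16 * (L⁻¹ * (N0 + N1)) + 4 * D * (Q0 + Q1) := by
      linarith [k0, k1, u2]
    refine u3.trans ((add_le_add (add_le_add v1' v2) v3).trans (le_of_eq ?_))
    ring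

end Pool.Agent.H7R3.Mag
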