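import Mathlib
import Pool.Agent.H7R3.Mag.MA

set_option autoImplicit false
set_option linter.unusedVariables false

open MeasureTheory Filter Topology Set Metric
open scoped ENNReal NNReal ContDiff ComplexConjugate

namespace Pool.Agent.H7R3.Mag

/-- insertion of a coordinate -/
def ins {n : ℕ} (i : Fin (n + 1)) (y : E3) (X' : Fin n → E3) : Fin (n + 1) → E3 :=
  i.insertNth (α := fun _ => E3) y X'

/-- removal of a coordinate -/
def rem {n : ℕ} (i : Fin (n + 1)) (X : Fin (n + 1) → E3) : Fin n → E3 :=
  i.removeNth (α := fun _ => E3) X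

lemma rem_ins {n : ℕ} (i : Fin (n + 1)) (y : E3) (X' : Fin n → E3) : rem i (ins i y X') = X' := by
  unfold rem ins
  simp

lemma ins_same {n : ℕ} (i : Fin (n + 1)) (y : E3) (X' : Fin n → E3) : ins i y X' i = y := by
  unfold ins
  simp

lemma ins_rem {n : ℕ} (i : Fin (n + 1)) (y : E3) (X : Fin (n + 1) → E3) :
    ins i y (rem i X) = Function.update X i y := by
  unfold ins rem
  exact Fin.insertNth_removeNth i y X

lemma ins_eq_update {n : ℕ} (i : Fin (n + 1)) (y : E3) (X' : Fin n → E3) :
    ins i y X' = Function.update (ins i 0 X') i y := by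
  rw [← ins_rem, rem_ins]

lemma continuous_ins {n : ℕ} (i : Fin (n + 1)) :
    Continuous fun p : E3 × (Fin n → E3) => ins i p.1 p.2 := by
  unfold ins
  exact Continuous.finInsertNth (A := fun _ => E3) i continuous_fst continuous_snd

lemma continuous_rem {n : ℕ} (i : Fin (n + 1)) : Continuous (rem i) := by
  unfold rem
  exact continuous_pi fun j => continuous_apply _

lemma slice_mp {n : ℕ} (i : Fin (n + 1)) :
    MeasurePreserving (fun p : E3 × (Fin n → E3) => ins i p.1 p.2)
      ((volume : Measure E3).prod (volume : Measure (Fin n → E3))) volume := by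
  have h := (volume_preserving_piFinSuccAbove (fun _ : Fin (n + 1) => E3) i).symm
  exact h

lemma slice_emb {n : ℕ} (i : Fin (n + 1)) :
    MeasurableEmbedding (fun p : E3 × (Fin n → E3) => ins i p.1 p.2) :=
  (MeasurableEquiv.piFinSuccAbove (fun _ : Fin (n + 1) => E3) i).symm.measurableEmbedding

lemma slice_integrable {n : ℕ} (i : Fin (n + 1)) {E : Type*} [NormedAddCommGroup E]
    {F : (Fin (n + 1) → E3) → E} (hF : Integrable F) :
    Integrable (fun p : E3 × (Fin n → E3) => F (ins i p.1 p.2))
      ((volume : Measure E3).prod (volume : Measure (Fin n → E3))) := by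
  have := ((slice_mp i).integrable_comp_emb (slice_emb i) (g := F)).mpr hF
  exact this

lemma slice_int {n : ℕ} (i : Fin (n + 1)) {E : Type*} [NormedAddCommGroup E] [NormedSpace ℝ E]
    {F : (Fin (n + 1) → E3) → E} (hF : Integrable F) :
    ∫ X, F X = ∫ X' : Fin n → E3, ∫ y : E3, F (ins i y X') := by
  rw [← (slice_mp i).integral_comp (slice_emb i) F]
  exact integral_prod_symm _ (slice_integrable i hF)

lemma compact_of_slices {n : ℕ} (i : Fin (n + 1)) {E : Type*} [NormedAddCommGroup E]
    {F : (Fin (n + 1) → E3) → E} {K1 : Set E3} {K2 : Set (Fin n → E3)} (h1 : IsCompact K1)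
    (h2 : IsCompact K2) (hF : ∀ X, F X ≠ 0 → X i ∈ K1 ∧ rem i X ∈ K2) : HasCompactSupport F := by
  have hK : IsCompact ((fun p : E3 × (Fin n → E3) => ins i p.1 p.2) '' (K1 ×ˢ K2)) :=
    (h1.prod h2).image (continuous_ins i)
  refine HasCompactSupport.of_support_subset_isCompact hK fun X hX => ?_
  obtain ⟨a, b⟩ := hF X hX
  refine ⟨(X i, rem i X), ⟨a, b⟩, ?_⟩
  show ins i (X i) (rem i X) = X
  rw [ins_rem, Function.update_eq_self]

section

variable {n : ℕ} {ψ : (Fin (n + 1) → E3) → (Fin (n + 1) → Fin 2) → ℂ} {q : E3 → ℂ}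

/-- the annihilation functional -/
noncomputable def aa (q : E3 → ℂ) (G : (Fin (n + 1) → E3) → (Fin (n + 1) → Fin 2) → ℂ)
    (i : Fin (n + 1)) (X' : Fin n → E3) (s : Fin (n + 1) → Fin 2) : ℂ :=
  ∫ y, q y * G (ins i y X') s

lemma aa_cont (hq : Continuous q) (hqs : HasCompactSupport q)
    (hc : ∀ s, Continuous fun X => ψ X s) (i : Fin (n + 1)) (s : Fin (n + 1) → Fin 2) :
    Continuous fun X' => aa q ψ i X' s := by
  have h1 : ∀ X', aa q ψ i X' s = ∫ y in tsupport q, q y * ψ (ins i y X') s := by
    intro X'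
    unfold aa
    symm
    apply setIntegral_eq_integral_of_forall_compl_eq_zero
    intro y hy
    rw [image_eq_zero_of_notMem_tsupport hy, zero_mul]
  simp only [h1]
  refine continuous_parametric_integral_of_continuous
    (f := fun X' y => q y * ψ (ins i y X') s) ?_ hqs.isCompact
  have h2 : Continuous fun p : (Fin n → E3) × E3 => ψ (ins i p.2 p.1) s :=
    (hc s).comp ((continuous_ins i).comp (continuous_snd.prodMk continuous_fst))
  exact (hq.comp continuous_snd).mul h2

lemma aa_supp (hs : ∀ s, HasCompactSupport fun X => ψ X s) (i : Fin (n + 1))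
    (s : Fin (n + 1) → Fin 2) :
    ∀ X', aa q ψ i X' s ≠ 0 → X' ∈ rem i '' (tsupport fun X => ψ X s) := by
  intro X' hX'
  by_contra hcon
  apply hX'
  unfold aa
  have : ∀ y, q y * ψ (ins i y X') s = 0 := by
    intro y
    have h1 : ins i y X' ∉ tsupport fun X => ψ X s := by
      intro h
      exact hcon ⟨_, h, rem_ins i y X'⟩
    have h2 : (fun X => ψ X s) (ins i y X') = 0 :=
      image_eq_zero_of_notMem_tsupport (f := fun X => ψ X s) h1
    have h3 : ψ (ins i y X') s = 0 := h2
    rw [h3, mul_zero]
  simp [this]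

/-- the one-particle component -/
noncomputable def pp (q : E3 → ℂ) (τ : Fin 2)
    (ψ : (Fin (n + 1) → E3) → (Fin (n + 1) → Fin 2) → ℂ)
    (i : Fin (n + 1)) (X : Fin (n + 1) → E3) (s : Fin (n + 1) → Fin 2) : ℂ :=
  if s i = τ then conj (q (X i)) * aa q ψ i (rem i X) s else 0

lemma pp_cont (hq : Continuous q) (hqs : HasCompactSupport q) (τ : Fin 2)
    (hc : ∀ s, Continuous fun X => ψ X s) (i : Fin (n + 1)) (s : Fin (n + 1) → Fin 2) :
    Continuous fun X => pp q τ ψ i X s := by
  unfold pp
  by_cases h : s i = τ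
  · simp only [h, if_true]
    exact (Complex.continuous_conj.comp (hq.comp (continuous_apply i))).mul
      ((aa_cont hq hqs hc i s).comp (continuous_rem i))
  · simp only [h, if_false]
    exact continuous_const

lemma pp_supp (hqs : HasCompactSupport q) (τ : Fin 2)
    (hs : ∀ s, HasCompactSupport fun X => ψ X s) (i : Fin (n + 1)) (s : Fin (n + 1) → Fin 2) :
    HasCompactSupport fun X => pp q τ ψ i X s := by
  refine compact_of_slices i hqs.isCompact ((hs s).isCompact.image (continuous_rem i))
    fun X hX => ?_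
  unfold pp at hX
  by_cases h : s i = τ
  · simp only [h, if_true] at hX
    refine ⟨?_, aa_supp hs i s _ (right_ne_zero_of_mul hX)⟩
    by_contra hcon
    apply left_ne_zero_of_mul hX
    rw [image_eq_zero_of_notMem_tsupport hcon, map_zero]
  · simp [h] at hX

/-- pairing with a one-particle component -/
lemma pair_pp (hq : Continuous q) (hqs : HasCompactSupport q) (τ : Fin 2)
    (hc : ∀ s, Continuous fun X => ψ X s) (hs : ∀ s, HasCompactSupport fun X => ψ X s)
    {G : (Fin (n + 1) → E3) → (Fin (n + 1) → Fin 2) → ℂ}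
    (hG : ∀ s, Continuous fun X => G X s) (i : Fin (n + 1)) :
    ∫ X, ∑ s, conj (pp q τ ψ i X s) * G X s
      = ∫ X' : Fin n → E3, ∑ s, if s i = τ then conj (aa q ψ i X' s) * aa q G i X' s else 0 := by
  have hint : Integrable fun X => ∑ s, conj (pp q τ ψ i X s) * G X s := by
    refine integrable_finsetSum _ fun s _ => ?_
    refine Continuous.integrable_of_hasCompactSupport
      ((Complex.continuous_conj.comp (pp_cont hq hqs τ hc i s)).mul (hG s)) ?_
    refine HasCompactSupport.mul_right ?_
    exact (pp_supp hqs τ hs i s).comp_left (g := fun z : ℂ => conj z) (by simp)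
  rw [slice_int i hint]
  refine integral_congr_ae (ae_of_all _ fun X' => ?_)
  show ∫ y, ∑ s, conj (pp q τ ψ i (ins i y X') s) * G (ins i y X') s
    = ∑ s, if s i = τ then conj (aa q ψ i X' s) * aa q G i X' s else 0
  have e1 : ∀ (y : E3) (s : Fin (n + 1) → Fin 2),
      conj (pp q τ ψ i (ins i y X') s) * G (ins i y X') s
      = if s i = τ then conj (aa q ψ i X' s) * (q y * G (ins i y X') s) else 0 := by
    intro y s
    unfold pp
    rw [rem_ins, ins_same]
    by_cases h : s i = τ
    · simp only [h, if_true, map_mul, Complex.conj_conj]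
      ring
    · simp [h]
  simp only [e1]
  have hyc : ∀ s, Continuous fun y => q y * G (ins i y X') s := fun s =>
    hq.mul ((hG s).comp ((continuous_ins i).comp (Continuous.prodMk_left X')))
  rw [integral_finsetSum]
  · refine Finset.sum_congr rfl fun s _ => ?_
    by_cases h : s i = τ
    · simp only [h, if_true]
      rw [integral_const_mul]
      rfl
    · simp [h]
  · intro s _
    by_cases h : s i = τ
    · simp only [h, if_true]
      exact ((hyc s).integrable_of_hasCompactSupport hqs.mul_right).const_mul _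
    · simp [h]

lemma swap_update {i j : Fin (n + 1)} (hij : i ≠ j) (X : Fin (n + 1) → E3) (y y' : E3) :
    (Function.update (Function.update X i y) j y') ∘ (Equiv.swap i j)
      = Function.update (Function.update X i y') j y := by
  funext k
  simp only [Function.comp_apply]
  by_cases hki : k = i
  · subst hki
    rw [Equiv.swap_apply_left, Function.update_self, Function.update_of_ne hij,
      Function.update_self]
  · by_cases hkj : k = j
    · subst hkj
      rw [Equiv.swap_apply_right, Function.update_of_ne hij, Function.update_self,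
        Function.update_self]
    · rw [Equiv.swap_apply_of_ne_of_ne hki hkj, Function.update_of_ne hkj,
        Function.update_of_ne hki, Function.update_of_ne hkj, Function.update_of_ne hki]

/-- the exclusion principle -/
lemma aa_pp_ne (hq : Continuous q) (hqs : HasCompactSupport q) (τ : Fin 2)
    (hc : ∀ s, Continuous fun X => ψ X s)
    (ha : ∀ (σ : Equiv.Perm (Fin (n + 1))) (x : Fin (n + 1) → E3) (s : Fin (n + 1) → Fin 2),
      ψ (x ∘ σ) (s ∘ σ) = ((Equiv.Perm.sign σ : ℤ) : ℂ) * ψ x s)
    {i j : Fin (n + 1)} (hij : i ≠ j) (X' : Fin n → E3) {s : Fin (n + 1) → Fin 2}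
    (hsi : s i = τ) : aa q (pp q τ ψ j) i X' s = 0 := by
  unfold aa pp
  by_cases hsj : s j = τ
  swap
  · simp [hsj]
  simp only [hsj, if_true]
  set X0 := ins i 0 X' with hX0
  have e1 : ∀ y, ins i y X' = Function.update X0 i y := fun y => ins_eq_update i y X'
  have e2 : ∀ y, (ins i y X') j = X0 j := fun y => by
    rw [e1, Function.update_of_ne hij.symm]
  have e3 : ∀ y, aa q ψ j (rem j (ins i y X')) s
      = ∫ y', q y' * ψ (Function.update (Function.update X0 i y) j y') s := by
    intro y
    unfold aa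
    simp only [ins_rem, e1]
  have e4 : ∀ y, q y * (conj (q ((ins i y X') j)) * aa q ψ j (rem j (ins i y X')) s)
      = conj (q (X0 j)) * ∫ y', q y * (q y' *
        ψ (Function.update (Function.update X0 i y) j y') s) := by
    intro y
    rw [e2, e3, integral_const_mul]
    ring
  simp only [e4]
  rw [integral_const_mul]
  refine mul_eq_zero_of_right _ ?_
  have hs' : s ∘ (Equiv.swap i j) = s := by
    funext k
    simp only [Function.comp_apply]
    by_cases hki : k = i
    · rw [hki, Equiv.swap_apply_left, hsi, hsj]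
    · by_cases hkj : k = j
      · rw [hkj, Equiv.swap_apply_right, hsi, hsj]
      · rw [Equiv.swap_apply_of_ne_of_ne hki hkj]
  have hanti : ∀ y y', ψ (Function.update (Function.update X0 i y') j y) s
      = - ψ (Function.update (Function.update X0 i y) j y') s := by
    intro y y'
    have h := ha (Equiv.swap i j) (Function.update (Function.update X0 i y) j y') s
    rw [swap_update hij, hs', Equiv.Perm.sign_swap hij] at h
    rw [h]
    simp
  have hcont : Continuous fun p : E3 × E3 =>
      q p.1 * (q p.2 * ψ (Function.update (Function.update X0 i p.1) j p.2) s) := by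
    refine (hq.comp continuous_fst).mul ((hq.comp continuous_snd).mul ((hc s).comp ?_))
    have k1 : Continuous fun p : E3 × E3 => Function.update X0 i p.1 :=
      Continuous.update (A := fun _ => E3) continuous_const i continuous_fst
    exact Continuous.update (A := fun _ => E3) k1 j continuous_snd
  have hsupp : HasCompactSupport fun p : E3 × E3 =>
      q p.1 * (q p.2 * ψ (Function.update (Function.update X0 i p.1) j p.2) s) := by
    refine HasCompactSupport.of_support_subset_isCompact (hqs.isCompact.prod hqs.isCompact)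
      fun p hp => ?_
    refine ⟨?_, ?_⟩
    · by_contra hcon
      exact left_ne_zero_of_mul hp (image_eq_zero_of_notMem_tsupport hcon)
    · by_contra hcon
      exact left_ne_zero_of_mul (right_ne_zero_of_mul hp) (image_eq_zero_of_notMem_tsupport hcon)
  have hI := hcont.integrable_of_hasCompactSupport (μ := (volume : Measure (E3 × E3))) hsupp
  have hswap := integral_integral_swap (μ := (volume : Measure E3)) (ν := (volume : Measure E3))
    (f := fun y y' => q y * (q y' * ψ (Function.update (Function.update X0 i y) j y') s)) hI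
  have hneg : ∫ y', ∫ y, q y * (q y' * ψ (Function.update (Function.update X0 i y) j y') s)
      = - ∫ y, ∫ y', q y * (q y' * ψ (Function.update (Function.update X0 i y) j y') s) := by
    rw [← integral_neg]
    refine integral_congr_ae (ae_of_all _ fun y' => ?_)
    show ∫ y, q y * (q y' * ψ (Function.update (Function.update X0 i y) j y') s)
      = - ∫ y, q y' * (q y * ψ (Function.update (Function.update X0 i y') j y) s)
    rw [← integral_neg]
    refine integral_congr_ae (ae_of_all _ fun y => ?_)
    show q y * (q y' * ψ (Function.update (Function.update X0 i y) j y') s)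
      = - (q y' * (q y * ψ (Function.update (Function.update X0 i y') j y) s))
    rw [hanti y y']
    ring
  rw [hneg] at hswap
  have h2 : (2:ℂ) * ∫ y, ∫ y', q y * (q y' *
      ψ (Function.update (Function.update X0 i y) j y') s) = 0 := by
    linear_combination hswap
  exact (mul_eq_zero.mp h2).resolve_left two_ne_zero

lemma aa_pp_self (τ : Fin 2) (i : Fin (n + 1)) (X' : Fin n → E3) {s : Fin (n + 1) → Fin 2}
    (hsi : s i = τ) :
    aa q (pp q τ ψ i) i X' s = ((∫ y, ‖q y‖ ^ 2 : ℝ) : ℂ) * aa q ψ i X' s := by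
  have e1 : ∀ y, q y * pp q τ ψ i (ins i y X') s
      = ((‖q y‖ ^ 2 : ℝ) : ℂ) * aa q ψ i X' s := by
    intro y
    unfold pp
    rw [rem_ins, ins_same]
    simp only [hsi, if_true]
    have : q y * conj (q y) = ((‖q y‖ ^ 2 : ℝ) : ℂ) := by
      rw [Complex.mul_conj, Complex.normSq_eq_norm_sq]
    rw [← mul_assoc, this]
  have e2 : aa q (pp q τ ψ i) i X' s = ∫ y, q y * pp q τ ψ i (ins i y X') s := rfl
  rw [e2]
  simp only [e1]
  rw [integral_mul_const]
  congr 1
  exact integral_ofReal

/-- **The exclusion inequality.** -/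
theorem exclusion (hq : Continuous q) (hqs : HasCompactSupport q) (τ : Fin 2)
    (hc : ∀ s, Continuous fun X => ψ X s) (hs : ∀ s, HasCompactSupport fun X => ψ X s)
    (ha : ∀ (σ : Equiv.Perm (Fin (n + 1))) (x : Fin (n + 1) → E3) (s : Fin (n + 1) → Fin 2),
      ψ (x ∘ σ) (s ∘ σ) = ((Equiv.Perm.sign σ : ℤ) : ℂ) * ψ x s)
    (h1 : (∫ X, ∑ s, ‖ψ X s‖ ^ 2) = 1) :
    ∑ i, ∫ X' : Fin n → E3, ∑ s, (if s i = τ then ‖aa q ψ i X' s‖ ^ 2 else 0)
      ≤ ∫ y, ‖q y‖ ^ 2 := by
  set QQ : ℝ := ∫ y, ‖q y‖ ^ 2 with hQQ
  have hQ0 : 0 ≤ QQ := integral_nonneg fun y => sq_nonneg _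
  let α : Fin (n + 1) → ℝ := fun i =>
    ∫ X' : Fin n → E3, ∑ s, (if s i = τ then ‖aa q ψ i X' s‖ ^ 2 else 0)
  set a : ℝ := ∑ i, α i with hadef
  have ha0 : 0 ≤ a := Finset.sum_nonneg fun i _ => integral_nonneg fun X' =>
    Finset.sum_nonneg fun s _ => by split_ifs <;> positivity
  let Φ : (Fin (n + 1) → E3) → (Fin (n + 1) → Fin 2) → ℂ := fun X s => ∑ j, pp q τ ψ j X s
  have hpc := fun i s => pp_cont (ψ := ψ) hq hqs τ hc i s
  have hps := fun i s => pp_supp (ψ := ψ) hqs τ hs i s
  have hΦc : ∀ s, Continuous fun X => Φ X s := fun s => continuous_finsetSum _ fun j _ => hpc j s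
  have hΦs : ∀ s, HasCompactSupport fun X => Φ X s := by
    intro s
    refine HasCompactSupport.of_support_subset_isCompact
      (isCompact_iUnion fun j => (hps j s).isCompact) fun X hX => ?_
    by_contra hcon
    apply hX
    refine Finset.sum_eq_zero fun j _ => ?_
    have : X ∉ tsupport fun X => pp q τ ψ j X s := fun h => hcon (mem_iUnion.mpr ⟨j, h⟩)
    exact image_eq_zero_of_notMem_tsupport (f := fun X => pp q τ ψ j X s) this
  -- the action on Φ
  have hact : ∀ i X' s, s i = τ → aa q Φ i X' s = (QQ : ℂ) * aa q ψ i X' s := by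
    intro i X' s hsi
    have e1 : aa q Φ i X' s = ∑ j, aa q (pp q τ ψ j) i X' s := by
      unfold aa
      rw [← integral_finsetSum]
      · refine integral_congr_ae (ae_of_all _ fun y => ?_)
        show q y * ∑ j, pp q τ ψ j (ins i y X') s = ∑ j, q y * pp q τ ψ j (ins i y X') s
        rw [Finset.mul_sum]
      · intro j _
        have : Continuous fun y => q y * pp q τ ψ j (ins i y X') s :=
          hq.mul ((hpc j s).comp ((continuous_ins i).comp (Continuous.prodMk_left X')))
        exact this.integrable_of_hasCompactSupport hqs.mul_right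
    rw [e1, Finset.sum_eq_single i]
    · exact aa_pp_self τ i X' hsi
    · intro j _ hji
      exact aa_pp_ne hq hqs τ hc ha (Ne.symm hji) X' hsi
    · intro h; exact absurd (Finset.mem_univ i) h
  -- the pairing
  have hpair : ∀ (G : (Fin (n + 1) → E3) → (Fin (n + 1) → Fin 2) → ℂ) (c : ℝ),
      (∀ s, Continuous fun X => G X s) →
      (∀ i X' s, s i = τ → aa q G i X' s = (c : ℂ) * aa q ψ i X' s) →
      ∫ X, ∑ s, conj (Φ X s) * G X s = ((c * a : ℝ) : ℂ) := by
    intro G c hG hGa
    have e1 : ∀ X, ∑ s, conj (Φ X s) * G X s = ∑ i, ∑ s, conj (pp q τ ψ i X s) * G X s := by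
      intro X
      rw [Finset.sum_comm]
      refine Finset.sum_congr rfl fun s _ => ?_
      show conj (∑ j, pp q τ ψ j X s) * G X s = _
      rw [map_sum, Finset.sum_mul]
    simp only [e1]
    rw [integral_finsetSum]
    · have e2 : ∀ i, ∫ X, ∑ s, conj (pp q τ ψ i X s) * G X s = ((c * α i : ℝ) : ℂ) := by
        intro i
        rw [pair_pp hq hqs τ hc hs hG i, Complex.ofReal_mul]
        have e3 : ∀ X' : Fin n → E3, (∑ s, if s i = τ then
            conj (aa q ψ i X' s) * aa q G i X' s else 0)
            = (c : ℂ) * ((∑ s, (if s i = τ then ‖aa q ψ i X' s‖ ^ 2 else 0) : ℝ) : ℂ) := by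
          intro X'
          push_cast
          rw [Finset.mul_sum]
          refine Finset.sum_congr rfl fun s _ => ?_
          by_cases h : s i = τ
          · simp only [h, if_true]
            rw [hGa i X' s h]
            have : conj (aa q ψ i X' s) * aa q ψ i X' s = ((‖aa q ψ i X' s‖ ^ 2 : ℝ) : ℂ) := by
              rw [mul_comm, Complex.mul_conj, Complex.normSq_eq_norm_sq]
            calc conj (aa q ψ i X' s) * ((c : ℂ) * aa q ψ i X' s)
                = (c : ℂ) * (conj (aa q ψ i X' s) * aa q ψ i X' s) := by ring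
              _ = _ := by rw [this]
          · simp [h]
        simp only [e3]
        rw [integral_const_mul]
        congr 1
        exact integral_ofReal
      simp only [e2]
      rw [← Complex.ofReal_sum, ← Finset.mul_sum]
    · intro i _
      refine integrable_finsetSum _ fun s _ => ?_
      refine Continuous.integrable_of_hasCompactSupport
        ((Complex.continuous_conj.comp (hpc i s)).mul (hG s)) ?_
      refine HasCompactSupport.mul_right ?_
      exact (hps i s).comp_left (g := fun z : ℂ => conj z) (by simp)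
  have hP1 := hpair ψ 1 hc (fun i X' s _ => by simp)
  have hP2 := hpair Φ QQ hΦc hact
  rw [one_mul] at hP1
  have iΦG : ∀ (G : (Fin (n + 1) → E3) → (Fin (n + 1) → Fin 2) → ℂ),
      (∀ s, Continuous fun X => G X s) → Integrable fun X => ∑ s, conj (Φ X s) * G X s := by
    intro G hG
    refine integrable_finsetSum _ fun s _ => ?_
    refine Continuous.integrable_of_hasCompactSupport
      ((Complex.continuous_conj.comp (hΦc s)).mul (hG s)) ?_
    refine HasCompactSupport.mul_right ?_
    exact (hΦs s).comp_left (g := fun z : ℂ => conj z) (by simp)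
  have r1 : ∫ X, (∑ s, conj (Φ X s) * ψ X s).re = a := by
    have : ∫ X, (∑ s, conj (Φ X s) * ψ X s).re = (∫ X, ∑ s, conj (Φ X s) * ψ X s).re :=
      integral_re (iΦG ψ hc)
    rw [this, hP1, Complex.ofReal_re]
  have r2 : ∫ X, (∑ s, conj (Φ X s) * Φ X s).re = QQ * a := by
    have : ∫ X, (∑ s, conj (Φ X s) * Φ X s).re = (∫ X, ∑ s, conj (Φ X s) * Φ X s).re :=
      integral_re (iΦG Φ hΦc)
    rw [this, hP2, Complex.ofReal_re]
  have iψ : Integrable fun X => ∑ s, ‖ψ X s‖ ^ 2 := by
    refine integrable_finsetSum _ fun s _ => ?_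
    have hcc : Continuous fun X => ‖ψ X s‖ ^ 2 := (hc s).norm.pow 2
    exact hcc.integrable_of_hasCompactSupport
      ((hs s).comp_left (g := fun z : ℂ => ‖z‖ ^ 2) (by simp))
  have i1 : Integrable fun X => a ^ 2 * ∑ s, ‖ψ X s‖ ^ 2 := iψ.const_mul _
  have i2 : Integrable fun X => 2 * a * (∑ s, conj (Φ X s) * ψ X s).re :=
    (iΦG ψ hc).re.const_mul _
  have i3 : Integrable fun X => (∑ s, conj (Φ X s) * Φ X s).re := (iΦG Φ hΦc).re
  have key : 0 ≤ ∫ X, (a ^ 2 * (∑ s, ‖ψ X s‖ ^ 2) - 2 * a * (∑ s, conj (Φ X s) * ψ X s).re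
      + (∑ s, conj (Φ X s) * Φ X s).re) := by
    refine integral_nonneg fun X => ?_
    show 0 ≤ a ^ 2 * (∑ s, ‖ψ X s‖ ^ 2) - 2 * a * (∑ s, conj (Φ X s) * ψ X s).re
      + (∑ s, conj (Φ X s) * Φ X s).re
    rw [Complex.re_sum, Complex.re_sum, Finset.mul_sum, Finset.mul_sum, ← Finset.sum_sub_distrib,
      ← Finset.sum_add_distrib]
    refine Finset.sum_nonneg fun s _ => ?_
    have e : a ^ 2 * ‖ψ X s‖ ^ 2 - 2 * a * (conj (Φ X s) * ψ X s).re + (conj (Φ X s) * Φ X s).re
        = ‖(a : ℂ) * ψ X s - Φ X s‖ ^ 2 := by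
      simp only [Complex.sq_norm, Complex.normSq_apply]
      simp
      ring
    rw [e]
    positivity
  have i12 : Integrable fun X => a ^ 2 * (∑ s, ‖ψ X s‖ ^ 2)
      - 2 * a * (∑ s, conj (Φ X s) * ψ X s).re := i1.sub i2
  rw [integral_add i12 i3, integral_sub i1 i2, integral_const_mul, integral_const_mul, h1, r1,
    r2] at key
  by_contra hcon
  rw [not_le] at hcon
  have : QQ < a := hcon
  nlinarith

end

end Pool.Agent.H7R3.Mag
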