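import Mathlib
import Pool.Agent.H7R3.Mag.ML
import Pool.Agent.H7R3.Mag.MN

set_option autoImplicit false
set_option linter.unusedVariables false

open MeasureTheory Filter Topology Set Metric
open scoped ENNReal NNReal ContDiff ComplexConjugate

namespace Pool.Agent.H7R3.Mag

section

variable {n : ℕ}

/-- sum over flipped spins -/
lemma sum_flip (i : Fin (n + 1)) (g : (Fin (n + 1) → Fin 2) → ℝ) :
    ∑ s, (g (Function.update s i 0) + g (Function.update s i 1)) = 2 * ∑ s, g s := by
  let fl : (Fin (n + 1) → Fin 2) → (Fin (n + 1) → Fin 2) := fun s => Function.update s i (1 - s i)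
  have hinv : Function.Involutive fl := by
    intro s
    simp only [fl, Function.update_self, Function.update_idem]
    have : (1 : Fin 2) - (1 - s i) = s i := by
      have h : ∀ a : Fin 2, (1 : Fin 2) - (1 - a) = a := by decide
      exact h _
    rw [this, Function.update_eq_self]
  have h1 : ∑ s, g (fl s) = ∑ s, g s := Equiv.sum_comp hinv.toPerm g
  have h2 : ∀ s, g (Function.update s i 0) + g (Function.update s i 1) = g s + g (fl s) := by
    intro s
    have h3 : s i = 0 ∨ s i = 1 := by
      have h : ∀ a : Fin 2, a = 0 ∨ a = 1 := by decide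
      exact h _
    rcases h3 with h | h
    · have e1 : Function.update s i 0 = s := by rw [← h, Function.update_eq_self]
      have e2 : fl s = Function.update s i 1 := by simp only [fl, h]; rfl
      rw [e1, e2]
    · have e1 : Function.update s i 1 = s := by rw [← h, Function.update_eq_self]
      have e2 : fl s = Function.update s i 0 := by simp only [fl, h]; rfl
      rw [e1, e2]
      ring
  simp only [h2]
  rw [Finset.sum_add_distrib, h1]
  ring

lemma ins_hasFDerivAt (i : Fin (n + 1)) (X' : Fin n → E3) (y : E3) :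
    HasFDerivAt (fun y => ins i y X')
      (ContinuousLinearMap.pi (Pi.single i (ContinuousLinearMap.id ℝ E3)) :
        E3 →L[ℝ] (Fin (n + 1) → E3)) y := by
  have h : (fun y => ins i y X') = Function.update (ins i 0 X') i := by
    funext y; exact ins_eq_update i y X'
  rw [h]
  exact hasFDerivAt_update (ins i 0 X') y

lemma fderiv_ins {F : (Fin (n + 1) → E3) → ℂ} (hF : Differentiable ℝ F) (i : Fin (n + 1))
    (X' : Fin n → E3) (y v : E3) :
    fderiv ℝ (fun y => F (ins i y X')) y v = fderiv ℝ F (ins i y X') (Pi.single i v) := by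
  have h := (hF (ins i y X')).hasFDerivAt.comp y (ins_hasFDerivAt i X' y)
  have h2 : fderiv ℝ (fun y => F (ins i y X')) y = _ := h.fderiv
  rw [h2]
  simp only [ContinuousLinearMap.comp_apply]
  congr 1
  funext j
  by_cases hj : j = i
  · subst hj; simp
  · simp [Pi.single_eq_of_ne hj]

lemma ins_contDiff {F : (Fin (n + 1) → E3) → ℂ} (hF : ContDiff ℝ ∞ F) (i : Fin (n + 1))
    (X' : Fin n → E3) : ContDiff ℝ ∞ (fun y => F (ins i y X')) := by
  have h : (fun y => ins i y X') = Function.update (ins i 0 X') i := by
    funext y; exact ins_eq_update i y X'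
  have h2 : ContDiff ℝ ∞ (fun y => ins i y X') := by
    rw [h]
    exact contDiff_update ∞ (ins i 0 X') i
  exact hF.comp h2

lemma ins_supp {F : (Fin (n + 1) → E3) → ℂ} (hF : HasCompactSupport F) (i : Fin (n + 1))
    (X' : Fin n → E3) : HasCompactSupport (fun y => F (ins i y X')) := by
  refine HasCompactSupport.of_support_subset_isCompact
    (hF.isCompact.image (continuous_apply i)) fun y hy => ?_
  refine ⟨ins i y X', subset_tsupport _ hy, ins_same i y X'⟩

/-- the Pauli kinetic density of particle `i` -/
noncomputable def KT (A : E3 → E3) (ψ : (Fin (n + 1) → E3) → (Fin (n + 1) → Fin 2) → ℂ)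
    (i : Fin (n + 1)) (x : Fin (n + 1) → E3) (s : Fin (n + 1) → Fin 2) : ℝ :=
  ‖∑ k : Fin 3, ∑ t : Fin 2,
    ((![!![0, 1; 1, 0], !![0, -Complex.I; Complex.I, 0], !![1, 0; 0, -1]] :
        Fin 3 → Matrix (Fin 2) (Fin 2) ℂ) k (s i) t) *
      ((-Complex.I) * fderiv ℝ (fun y => ψ y (Function.update s i t)) x
          (Pi.single i (EuclideanSpace.single k (1 : ℝ)) :
            Fin (n + 1) → EuclideanSpace ℝ (Fin 3))
        + ((A (x i) k : ℝ) : ℂ) * ψ x (Function.update s i t))‖ ^ 2

variable {ψ : (Fin (n + 1) → E3) → (Fin (n + 1) → Fin 2) → ℂ} {A : E3 → E3}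

lemma KT_zero (hψ : ∀ s, ContDiff ℝ ∞ (fun x => ψ x s)) (i : Fin (n + 1)) (X' : Fin n → E3)
    (y : E3) (s : Fin (n + 1) → Fin 2) :
    KT A ψ i (ins i y X') (Function.update s i 0)
      = ‖DU A (fun y => ψ (ins i y X') (Function.update s i 0))
          (fun y => ψ (ins i y X') (Function.update s i 1)) y‖ ^ 2 := by
  unfold KT DU cov
  have hd : ∀ t, Differentiable ℝ (fun x => ψ x (Function.update s i t)) := fun t =>
    (hψ _).differentiable (by simp)
  have hf : ∀ t k, fderiv ℝ (fun y => ψ (ins i y X') (Function.update s i t)) y (ee k)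
      = fderiv ℝ (fun x => ψ x (Function.update s i t)) (ins i y X') (Pi.single i (ee k)) :=
    fun t k => fderiv_ins (hd t) i X' y (ee k)
  rw [hf, hf, hf]
  simp only [Function.update_self, Function.update_idem, ins_same, Fin.sum_univ_three,
    Fin.sum_univ_two]
  congr 2
  simp
  ring

lemma KT_one (hψ : ∀ s, ContDiff ℝ ∞ (fun x => ψ x s)) (i : Fin (n + 1)) (X' : Fin n → E3)
    (y : E3) (s : Fin (n + 1) → Fin 2) :
    KT A ψ i (ins i y X') (Function.update s i 1)
      = ‖DL A (fun y => ψ (ins i y X') (Function.update s i 0))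
          (fun y => ψ (ins i y X') (Function.update s i 1)) y‖ ^ 2 := by
  unfold KT DL cov
  have hd : ∀ t, Differentiable ℝ (fun x => ψ x (Function.update s i t)) := fun t =>
    (hψ _).differentiable (by simp)
  have hf : ∀ t k, fderiv ℝ (fun y => ψ (ins i y X') (Function.update s i t)) y (ee k)
      = fderiv ℝ (fun x => ψ x (Function.update s i t)) (ins i y X') (Pi.single i (ee k)) :=
    fun t k => fderiv_ins (hd t) i X' y (ee k)
  rw [hf, hf, hf]
  simp only [Function.update_self, Function.update_idem, ins_same, Fin.sum_univ_three,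
    Fin.sum_univ_two]
  congr 2
  simp
  ring

lemma KT_cont (hA : Continuous A) (hψ : ∀ s, ContDiff ℝ ∞ (fun x => ψ x s)) (i : Fin (n + 1))
    (s : Fin (n + 1) → Fin 2) : Continuous fun x => KT A ψ i x s := by
  unfold KT
  refine Continuous.pow (Continuous.norm ?_) 2
  refine continuous_finsetSum _ fun k _ => continuous_finsetSum _ fun t _ => ?_
  have one : ((1:ℕ∞) : WithTop ℕ∞) ≤ ((⊤ : ℕ∞) : WithTop ℕ∞) := by exact_mod_cast le_top
  refine continuous_const.mul ((continuous_const.mul ?_).add (Continuous.mul ?_ (hψ _).continuous))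
  · exact ((hψ _).continuous_fderiv (by simp)).clm_apply continuous_const
  · exact Complex.continuous_ofReal.comp ((EuclideanSpace.proj (𝕜 := ℝ) k).continuous.comp
      (hA.comp (continuous_apply i)))

lemma KT_supp (hs : ∀ s, HasCompactSupport fun X => ψ X s) (i : Fin (n + 1))
    (s : Fin (n + 1) → Fin 2) : HasCompactSupport fun x => KT A ψ i x s := by
  refine HasCompactSupport.of_support_subset_isCompact
    (isCompact_iUnion fun t : Fin 2 => (hs (Function.update s i t)).isCompact) fun X hX => ?_
  by_contra hcon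
  apply hX
  have h0 : ∀ t, X ∉ tsupport fun X => ψ X (Function.update s i t) := fun t h =>
    hcon (mem_iUnion.mpr ⟨t, h⟩)
  have h1 : ∀ t, ψ X (Function.update s i t) = 0 := fun t =>
    image_eq_zero_of_notMem_tsupport (f := fun X => ψ X (Function.update s i t)) (h0 t)
  have h2 : ∀ t, fderiv ℝ (fun y => ψ y (Function.update s i t)) X = 0 := fun t =>
    image_eq_zero_of_notMem_tsupport (f := fderiv ℝ (fun y => ψ y (Function.update s i t)))
      fun h => h0 t (tsupport_fderiv_subset ℝ h)
  show KT A ψ i X s = 0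
  unfold KT
  simp [h1, h2]

end

end Pool.Agent.H7R3.Mag
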