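import Mathlib
import Pool.Agent.H7R3.Mag.MO

set_option autoImplicit false
set_option linter.unusedVariables false

open MeasureTheory Filter Topology Set Metric
open scoped ENNReal NNReal ContDiff ComplexConjugate

namespace Pool.Agent.H7R3.Mag

section

variable {n : ℕ} {ψ : (Fin (n + 1) → E3) → (Fin (n + 1) → Fin 2) → ℂ} {A : E3 → E3}
  {q : E3 → E3 → ℂ} {w : E3 → ℝ}

lemma aa_joint (hq : Continuous fun p : E3 × E3 => q p.1 p.2)
    (hc : ∀ s, Continuous fun X => ψ X s) (hs : ∀ s, HasCompactSupport fun X => ψ X s)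
    (i : Fin (n + 1)) (s : Fin (n + 1) → Fin 2) :
    Continuous fun p : E3 × (Fin n → E3) => aa (q p.1) ψ i p.2 s := by
  let K : Set E3 := (fun X : Fin (n + 1) → E3 => X i) '' (tsupport fun X => ψ X s)
  have hK : IsCompact K := (hs s).isCompact.image (continuous_apply i)
  have h1 : ∀ p : E3 × (Fin n → E3), aa (q p.1) ψ i p.2 s
      = ∫ y in K, q p.1 y * ψ (ins i y p.2) s := by
    intro p
    unfold aa
    symm
    apply setIntegral_eq_integral_of_forall_compl_eq_zero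
    intro y hy
    have : ins i y p.2 ∉ tsupport fun X => ψ X s := fun h => hy ⟨_, h, ins_same i y p.2⟩
    have h2 : ψ (ins i y p.2) s = 0 := image_eq_zero_of_notMem_tsupport (f := fun X => ψ X s) this
    rw [h2, mul_zero]
  simp only [h1]
  refine continuous_parametric_integral_of_continuous
    (f := fun (p : E3 × (Fin n → E3)) y => q p.1 y * ψ (ins i y p.2) s) ?_ hK
  have h2 : Continuous fun r : (E3 × (Fin n → E3)) × E3 => ψ (ins i r.2 r.1.2) s :=
    (hc s).comp ((continuous_ins i).comp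
      (continuous_snd.prodMk (continuous_snd.comp continuous_fst)))
  have h3 : Continuous fun r : (E3 × (Fin n → E3)) × E3 => q r.1.1 r.2 :=
    hq.comp ((continuous_fst.comp continuous_fst).prodMk continuous_snd)
  exact h3.mul h2

/-- the exclusion density -/
noncomputable def ex (w : E3 → ℝ) (q : E3 → E3 → ℂ)
    (ψ : (Fin (n + 1) → E3) → (Fin (n + 1) → Fin 2) → ℂ) (i : Fin (n + 1))
    (p : E3 × (Fin n → E3)) : ℝ :=
  w p.1 * ∑ s, ‖aa (q p.1) ψ i p.2 s‖ ^ 2

lemma ex_cont (hw : Continuous w) (hq : Continuous fun p : E3 × E3 => q p.1 p.2)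
    (hc : ∀ s, Continuous fun X => ψ X s) (hs : ∀ s, HasCompactSupport fun X => ψ X s)
    (i : Fin (n + 1)) : Continuous fun p : E3 × (Fin n → E3) => ex w q ψ i p := by
  unfold ex
  refine (hw.comp continuous_fst).mul (continuous_finsetSum _ fun s _ => ?_)
  exact (aa_joint hq hc hs i s).norm.pow 2

lemma ex_supp (hws : HasCompactSupport w) (hs : ∀ s, HasCompactSupport fun X => ψ X s)
    (i : Fin (n + 1)) : HasCompactSupport fun p : E3 × (Fin n → E3) => ex w q ψ i p := by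
  have hK : IsCompact (⋃ s : Fin (n + 1) → Fin 2, rem i '' (tsupport fun X => ψ X s)) :=
    isCompact_iUnion fun s => (hs s).isCompact.image (continuous_rem i)
  refine HasCompactSupport.of_support_subset_isCompact (hws.isCompact.prod hK) fun p hp => ?_
  have hp' : w p.1 * ∑ s, ‖aa (q p.1) ψ i p.2 s‖ ^ 2 ≠ 0 := hp
  refine ⟨?_, ?_⟩
  · by_contra hcon
    exact left_ne_zero_of_mul hp' (image_eq_zero_of_notMem_tsupport hcon)
  · by_contra hcon
    apply right_ne_zero_of_mul hp'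
    refine Finset.sum_eq_zero fun s _ => ?_
    have : aa (q p.1) ψ i p.2 s = 0 := by
      by_contra h
      exact hcon (mem_iUnion.mpr ⟨s, aa_supp hs i s _ h⟩)
    rw [this]
    simp

lemma ex_int (hw : Continuous w) (hws : HasCompactSupport w)
    (hq : Continuous fun p : E3 × E3 => q p.1 p.2)
    (hc : ∀ s, Continuous fun X => ψ X s) (hs : ∀ s, HasCompactSupport fun X => ψ X s)
    (i : Fin (n + 1)) : Integrable (fun p : E3 × (Fin n → E3) => ex w q ψ i p)
      ((volume : Measure E3).prod (volume : Measure (Fin n → E3))) :=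
  (ex_cont hw hq hc hs i).integrable_of_hasCompactSupport (ex_supp hws hs i)

/-- the one-body inequality, hypothesis form -/
def OB (C L : ℝ) (A : E3 → E3) (w : E3 → ℝ) (q : E3 → E3 → ℂ) : Prop :=
  ∀ f0 f1 : E3 → ℂ, ContDiff ℝ ∞ f0 → ContDiff ℝ ∞ f1 → HasCompactSupport f0 →
        HasCompactSupport f1 →
        ∫ x, (‖f0 x‖ ^ 2 + ‖f1 x‖ ^ 2) / ‖x‖ ≤
          C * (L * (∫ x, (‖DU A f0 f1 x‖ ^ 2 + ‖DL A f0 f1 x‖ ^ 2))
            + L⁻¹ * (∫ x, (‖f0 x‖ ^ 2 + ‖f1 x‖ ^ 2))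
            + ∫ x, w x * (‖∫ y, q x y * f0 y‖ ^ 2 + ‖∫ y, q x y * f1 y‖ ^ 2))

/-- slice inequality -/
lemma slice_ineq {C L : ℝ} (hA : Continuous A) (hOB : OB C L A w q)
    (hw : Continuous w) (hws : HasCompactSupport w)
    (hq : Continuous fun p : E3 × E3 => q p.1 p.2)
    (hψ : ∀ s, ContDiff ℝ ∞ (fun x => ψ x s)) (hs : ∀ s, HasCompactSupport fun X => ψ X s)
    (i : Fin (n + 1)) (X' : Fin n → E3) :
    ∫ y, ∑ s, ‖ψ (ins i y X') s‖ ^ 2 / ‖y‖ ≤ C * (L * (∫ y, ∑ s, KT A ψ i (ins i y X') s)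
      + L⁻¹ * (∫ y, ∑ s, ‖ψ (ins i y X') s‖ ^ 2) + ∫ y, ex w q ψ i (y, X')) := by
  have hc : ∀ s, Continuous fun X => ψ X s := fun s => (hψ s).continuous
  have hf : ∀ s, ContDiff ℝ ∞ (fun y => ψ (ins i y X') s) := fun s => ins_contDiff (hψ s) i X'
  have hfs : ∀ s, HasCompactSupport (fun y => ψ (ins i y X') s) := fun s => ins_supp (hs s) i X'
  have one : ((1:ℕ∞) : WithTop ℕ∞) ≤ ((⊤ : ℕ∞) : WithTop ℕ∞) := by exact_mod_cast le_top
  -- integrability
  have iC : ∀ s, Integrable fun y => ‖ψ (ins i y X') s‖ ^ 2 / ‖y‖ := fun s =>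
    (hardy hA ((hf s).of_le one) (hfs s)).1
  have iN : ∀ s, Integrable fun y => ‖ψ (ins i y X') s‖ ^ 2 := fun s => by
    have hcc : Continuous fun y => ‖ψ (ins i y X') s‖ ^ 2 := (hf s).continuous.norm.pow 2
    exact hcc.integrable_of_hasCompactSupport
      ((hfs s).comp_left (g := fun z : ℂ => ‖z‖ ^ 2) (by simp))
  have iK : ∀ s, Integrable fun y => KT A ψ i (ins i y X') s := fun s => by
    have h1 : Continuous fun y => KT A ψ i (ins i y X') s :=
      (KT_cont hA hψ i s).comp ((continuous_ins i).comp (Continuous.prodMk_left X'))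
    refine h1.integrable_of_hasCompactSupport ?_
    refine HasCompactSupport.of_support_subset_isCompact
      ((KT_supp (A := A) hs i s).isCompact.image (continuous_apply i)) fun y hy => ?_
    exact ⟨ins i y X', subset_tsupport (fun x => KT A ψ i x s) hy, ins_same i y X'⟩
  have iE : ∀ s, Integrable fun y => w y * ‖aa (q y) ψ i X' s‖ ^ 2 := fun s => by
    have h1 : Continuous fun y => aa (q y) ψ i X' s :=
      (aa_joint hq hc hs i s).comp (Continuous.prodMk_left X')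
    exact (hw.mul (h1.norm.pow 2)).integrable_of_hasCompactSupport hws.mul_right
  -- sum of one-body inequalities
  have hsum := Finset.sum_le_sum (s := (Finset.univ : Finset (Fin (n + 1) → Fin 2)))
    fun s _ => hOB (fun y => ψ (ins i y X') (Function.update s i 0))
      (fun y => ψ (ins i y X') (Function.update s i 1)) (hf _) (hf _) (hfs _) (hfs _)
  have e1 : ∑ s : Fin (n + 1) → Fin 2, ∫ y, (‖ψ (ins i y X') (Function.update s i 0)‖ ^ 2
      + ‖ψ (ins i y X') (Function.update s i 1)‖ ^ 2) / ‖y‖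
      = 2 * ∫ y, ∑ s, ‖ψ (ins i y X') s‖ ^ 2 / ‖y‖ := by
    rw [integral_finsetSum _ fun s _ => iC s,
      ← sum_flip i fun s => ∫ y, ‖ψ (ins i y X') s‖ ^ 2 / ‖y‖]
    refine Finset.sum_congr rfl fun s _ => ?_
    rw [← integral_add (iC _) (iC _)]
    exact integral_congr_ae (ae_of_all _ fun y => by ring)
  have e2 : ∀ s : Fin (n + 1) → Fin 2,
      ∫ y, (‖DU A (fun y => ψ (ins i y X') (Function.update s i 0))
          (fun y => ψ (ins i y X') (Function.update s i 1)) y‖ ^ 2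
        + ‖DL A (fun y => ψ (ins i y X') (Function.update s i 0))
          (fun y => ψ (ins i y X') (Function.update s i 1)) y‖ ^ 2)
      = (∫ y, KT A ψ i (ins i y X') (Function.update s i 0))
        + ∫ y, KT A ψ i (ins i y X') (Function.update s i 1) := by
    intro s
    rw [← integral_add (iK _) (iK _)]
    refine integral_congr_ae (ae_of_all _ fun y => ?_)
    show _ = KT A ψ i (ins i y X') (Function.update s i 0)
      + KT A ψ i (ins i y X') (Function.update s i 1)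
    rw [KT_zero hψ, KT_one hψ]
  have e3 : ∀ s : Fin (n + 1) → Fin 2,
      ∫ y, (‖ψ (ins i y X') (Function.update s i 0)‖ ^ 2
        + ‖ψ (ins i y X') (Function.update s i 1)‖ ^ 2)
      = (∫ y, ‖ψ (ins i y X') (Function.update s i 0)‖ ^ 2)
        + ∫ y, ‖ψ (ins i y X') (Function.update s i 1)‖ ^ 2 := fun s => integral_add (iN _) (iN _)
  have e4 : ∀ s : Fin (n + 1) → Fin 2,
      ∫ x, w x * (‖∫ y, q x y * ψ (ins i y X') (Function.update s i 0)‖ ^ 2
        + ‖∫ y, q x y * ψ (ins i y X') (Function.update s i 1)‖ ^ 2)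
      = (∫ x, w x * ‖aa (q x) ψ i X' (Function.update s i 0)‖ ^ 2)
        + ∫ x, w x * ‖aa (q x) ψ i X' (Function.update s i 1)‖ ^ 2 := by
    intro s
    rw [← integral_add (iE _) (iE _)]
    refine integral_congr_ae (ae_of_all _ fun x => ?_)
    show w x * (‖∫ y, q x y * ψ (ins i y X') (Function.update s i 0)‖ ^ 2
        + ‖∫ y, q x y * ψ (ins i y X') (Function.update s i 1)‖ ^ 2)
      = w x * ‖aa (q x) ψ i X' (Function.update s i 0)‖ ^ 2
        + w x * ‖aa (q x) ψ i X' (Function.update s i 1)‖ ^ 2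
    unfold aa
    ring
  simp only [e2, e3, e4] at hsum
  rw [e1] at hsum
  have f2 := sum_flip i fun s => ∫ y, KT A ψ i (ins i y X') s
  have f3 := sum_flip i fun s => ∫ y, ‖ψ (ins i y X') s‖ ^ 2
  have f4 := sum_flip i fun s => ∫ x, w x * ‖aa (q x) ψ i X' s‖ ^ 2
  have g2 : ∫ y, ∑ s, KT A ψ i (ins i y X') s = ∑ s, ∫ y, KT A ψ i (ins i y X') s :=
    integral_finsetSum _ fun s _ => iK s
  have g3 : ∫ y, ∑ s, ‖ψ (ins i y X') s‖ ^ 2 = ∑ s, ∫ y, ‖ψ (ins i y X') s‖ ^ 2 :=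
    integral_finsetSum _ fun s _ => iN s
  have g4 : ∫ y, ex w q ψ i (y, X') = ∑ s, ∫ y, w y * ‖aa (q y) ψ i X' s‖ ^ 2 := by
    rw [← integral_finsetSum _ fun s _ => iE s]
    refine integral_congr_ae (ae_of_all _ fun y => ?_)
    show w y * ∑ s, ‖aa (q y) ψ i X' s‖ ^ 2 = ∑ s, w y * ‖aa (q y) ψ i X' s‖ ^ 2
    rw [Finset.mul_sum]
  rw [g2, g3, g4]
  rw [← Finset.mul_sum, Finset.sum_add_distrib, Finset.sum_add_distrib, ← Finset.mul_sum,
    ← Finset.mul_sum] at hsum
  rw [f2, f3, f4] at hsum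
  linarith

/-- one-particle inequality -/
lemma part_ineq {C L : ℝ} (hC : 0 ≤ C) (hL : 0 < L) (hA : Continuous A) (hOB : OB C L A w q)
    (hw : Continuous w) (hws : HasCompactSupport w) (hw0 : ∀ x, 0 ≤ w x)
    (hq : Continuous fun p : E3 × E3 => q p.1 p.2)
    (hψ : ∀ s, ContDiff ℝ ∞ (fun x => ψ x s)) (hs : ∀ s, HasCompactSupport fun X => ψ X s)
    (h1 : (∫ X, ∑ s, ‖ψ X s‖ ^ 2) = 1) (i : Fin (n + 1)) :
    ∫ X, ∑ s, ‖ψ X s‖ ^ 2 / ‖X i‖ ≤ C * (L * (∫ X, ∑ s, KT A ψ i X s) + L⁻¹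
      + ∫ y, ∫ X' : Fin n → E3, ex w q ψ i (y, X')) := by
  have hc : ∀ s, Continuous fun X => ψ X s := fun s => (hψ s).continuous
  have iN : Integrable fun X => ∑ s, ‖ψ X s‖ ^ 2 := by
    refine integrable_finsetSum _ fun s _ => ?_
    have hcc : Continuous fun X => ‖ψ X s‖ ^ 2 := (hc s).norm.pow 2
    exact hcc.integrable_of_hasCompactSupport
      ((hs s).comp_left (g := fun z : ℂ => ‖z‖ ^ 2) (by simp))
  have iK : Integrable fun X => ∑ s, KT A ψ i X s :=
    integrable_finsetSum _ fun s _ =>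
      (KT_cont hA hψ i s).integrable_of_hasCompactSupport (KT_supp hs i s)
  have iE := ex_int hw hws hq hc hs i
  have hex0 : ∀ p, 0 ≤ ex w q ψ i p := fun p =>
    mul_nonneg (hw0 _) (Finset.sum_nonneg fun s _ => sq_nonneg _)
  have hK0 : ∀ X, 0 ≤ ∑ s, KT A ψ i X s := fun X =>
    Finset.sum_nonneg fun s _ => by unfold KT; positivity
  have hLi : 0 < L⁻¹ := inv_pos.mpr hL
  by_cases hI : Integrable fun X : Fin (n + 1) → E3 => ∑ s, ‖ψ X s‖ ^ 2 / ‖X i‖
  swap
  · rw [integral_undef hI]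
    refine mul_nonneg hC (add_nonneg (add_nonneg (mul_nonneg hL.le (integral_nonneg hK0)) hLi.le)
      (integral_nonneg fun y => integral_nonneg fun X' => hex0 _))
  have hswap : ∫ y, ∫ X' : Fin n → E3, ex w q ψ i (y, X')
      = ∫ X' : Fin n → E3, ∫ y, ex w q ψ i (y, X') :=
    integral_integral_swap (f := fun y X' => ex w q ψ i (y, X')) iE
  have jC := (slice_integrable i hI).integral_prod_right
  have jK := (slice_integrable i iK).integral_prod_right
  have jN := (slice_integrable i iN).integral_prod_right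
  have jE := iE.integral_prod_right
  have hN : ∫ X' : Fin n → E3, ∫ y, ∑ s, ‖ψ (ins i y X') s‖ ^ 2 = 1 := by
    rw [← h1, slice_int i iN]
  rw [hswap, slice_int i hI, slice_int i iK]
  simp only [ins_same]
  have e1 : C * (L * (∫ X' : Fin n → E3, ∫ y, ∑ s, KT A ψ i (ins i y X') s)
      + L⁻¹ * (∫ X' : Fin n → E3, ∫ y, ∑ s, ‖ψ (ins i y X') s‖ ^ 2)
      + ∫ X' : Fin n → E3, ∫ y, ex w q ψ i (y, X'))
      = ∫ X' : Fin n → E3, C * (L * (∫ y, ∑ s, KT A ψ i (ins i y X') s)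
      + L⁻¹ * (∫ y, ∑ s, ‖ψ (ins i y X') s‖ ^ 2) + ∫ y, ex w q ψ i (y, X')) := by
    have k1 : Integrable fun X' : Fin n → E3 => L * (∫ y, ∑ s, KT A ψ i (ins i y X') s) :=
      jK.const_mul _
    have k2 : Integrable fun X' : Fin n → E3 => L⁻¹ * (∫ y, ∑ s, ‖ψ (ins i y X') s‖ ^ 2) :=
      jN.const_mul _
    have k3 : Integrable fun X' : Fin n → E3 => L * (∫ y, ∑ s, KT A ψ i (ins i y X') s)
      + L⁻¹ * (∫ y, ∑ s, ‖ψ (ins i y X') s‖ ^ 2) := k1.add k2
    rw [integral_const_mul, integral_add k3 jE, integral_add k1 k2, integral_const_mul,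
      integral_const_mul]
  have e2 : ∫ X' : Fin n → E3, ∫ y, ∑ s, ‖ψ (ins i y X') s‖ ^ 2 / ‖y‖
      ≤ ∫ X' : Fin n → E3, C * (L * (∫ y, ∑ s, KT A ψ i (ins i y X') s)
      + L⁻¹ * (∫ y, ∑ s, ‖ψ (ins i y X') s‖ ^ 2) + ∫ y, ex w q ψ i (y, X')) := by
    refine integral_mono ?_ ?_ fun X' => slice_ineq hA hOB hw hws hq hψ hs i X'
    · simpa only [ins_same] using jC
    · exact (((jK.const_mul L).add (jN.const_mul L⁻¹)).add jE).const_mul C
  rw [← e1, hN, mul_one] at e2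
  exact e2

/-- integrability of the kernel norm -/
lemma kernel_norm_int (hw : Continuous w) (hws : HasCompactSupport w)
    (hq : Continuous fun p : E3 × E3 => q p.1 p.2) {R : ℝ}
    (hR : ∀ x y, R < ‖y - x‖ → q x y = 0) :
    Integrable fun x => w x * ∫ y, ‖q x y‖ ^ 2 := by
  have h1 : ∀ x, ∫ y, ‖q x y‖ ^ 2 = ∫ h in closedBall (0:E3) R, ‖q x (x + h)‖ ^ 2 := by
    intro x
    rw [← integral_add_left_eq_self (μ := (volume : Measure E3)) (fun y => ‖q x y‖ ^ 2) x]
    symm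
    apply setIntegral_eq_integral_of_forall_compl_eq_zero
    intro h hh
    rw [mem_closedBall, dist_zero_right, not_le] at hh
    rw [hR x (x + h) (by simpa using hh)]
    simp
  simp only [h1]
  have h2 : Continuous fun x => ∫ h in closedBall (0:E3) R, ‖q x (x + h)‖ ^ 2 := by
    refine continuous_parametric_integral_of_continuous
      (f := fun x h => ‖q x (x + h)‖ ^ 2) ?_ (isCompact_closedBall (0:E3) R)
    have h3 : Continuous fun p : E3 × E3 => q p.1 (p.1 + p.2) :=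
      hq.comp (continuous_fst.prodMk (continuous_fst.add continuous_snd))
    exact h3.norm.pow 2
  exact (hw.mul h2).integrable_of_hasCompactSupport hws.mul_right

/-- the summed exclusion estimate -/
lemma sum_ex (hw : Continuous w) (hws : HasCompactSupport w) (hw0 : ∀ x, 0 ≤ w x)
    (hq : Continuous fun p : E3 × E3 => q p.1 p.2) {R : ℝ}
    (hR : ∀ x y, R < ‖y - x‖ → q x y = 0)
    (hψ : ∀ s, ContDiff ℝ ∞ (fun x => ψ x s)) (hs : ∀ s, HasCompactSupport fun X => ψ X s)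
    (ha : ∀ (σ : Equiv.Perm (Fin (n + 1))) (x : Fin (n + 1) → E3) (s : Fin (n + 1) → Fin 2),
      ψ (x ∘ σ) (s ∘ σ) = ((Equiv.Perm.sign σ : ℤ) : ℂ) * ψ x s)
    (h1 : (∫ X, ∑ s, ‖ψ X s‖ ^ 2) = 1) :
    ∑ i, ∫ y, ∫ X' : Fin n → E3, ex w q ψ i (y, X') ≤ 2 * ∫ x, w x * ∫ y, ‖q x y‖ ^ 2 := by
  have hc : ∀ s, Continuous fun X => ψ X s := fun s => (hψ s).continuous
  have iE := fun i => ex_int hw hws hq hc hs i
  rw [← integral_finsetSum _ fun i _ => (iE i).integral_prod_left, ← integral_const_mul]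
  refine integral_mono (integrable_finsetSum _ fun i _ => (iE i).integral_prod_left)
    ((kernel_norm_int hw hws hq hR).const_mul 2) fun x => ?_
  show ∑ i, ∫ X' : Fin n → E3, ex w q ψ i (x, X') ≤ 2 * (w x * ∫ y, ‖q x y‖ ^ 2)
  have hqx : Continuous (q x) := hq.comp (Continuous.prodMk_right x)
  have hqxs : HasCompactSupport (q x) := by
    refine HasCompactSupport.of_support_subset_isCompact (isCompact_closedBall x R)
      fun y hy => ?_
    by_contra hcon
    rw [mem_closedBall, dist_eq_norm, not_le] at hcon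
    exact hy (hR x y hcon)
  have hex := fun τ : Fin 2 => exclusion hqx hqxs τ hc hs ha h1
  have iA : ∀ i s, Integrable fun X' : Fin n → E3 => ‖aa (q x) ψ i X' s‖ ^ 2 := by
    intro i s
    have hcc : Continuous fun X' : Fin n → E3 => ‖aa (q x) ψ i X' s‖ ^ 2 :=
      (aa_cont hqx hqxs hc i s).norm.pow 2
    refine hcc.integrable_of_hasCompactSupport ?_
    refine HasCompactSupport.of_support_subset_isCompact
      ((hs s).isCompact.image (continuous_rem i)) fun X' hX' => ?_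
    refine aa_supp (q := q x) hs i s X' fun h => hX' ?_
    show ‖aa (q x) ψ i X' s‖ ^ 2 = 0
    rw [h]; simp
  have e1 : ∀ i, ∫ X' : Fin n → E3, ex w q ψ i (x, X')
      = w x * ((∫ X' : Fin n → E3, ∑ s, (if s i = 0 then ‖aa (q x) ψ i X' s‖ ^ 2 else 0))
        + ∫ X' : Fin n → E3, ∑ s, (if s i = 1 then ‖aa (q x) ψ i X' s‖ ^ 2 else 0)) := by
    intro i
    have iT : ∀ τ : Fin 2, Integrable fun X' : Fin n → E3 =>
        ∑ s : Fin (n + 1) → Fin 2, (if s i = τ then ‖aa (q x) ψ i X' s‖ ^ 2 else 0) := by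
      intro τ
      refine integrable_finsetSum _ fun s _ => ?_
      by_cases h : s i = τ
      · simpa only [h, if_true] using iA i s
      · simp [h]
    rw [← integral_add (iT 0) (iT 1), ← integral_const_mul]
    refine integral_congr_ae (ae_of_all _ fun X' => ?_)
    show w x * ∑ s, ‖aa (q x) ψ i X' s‖ ^ 2
      = w x * ((∑ s, (if s i = 0 then ‖aa (q x) ψ i X' s‖ ^ 2 else 0))
        + ∑ s, (if s i = 1 then ‖aa (q x) ψ i X' s‖ ^ 2 else 0))
    rw [← Finset.sum_add_distrib]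
    congr 1
    refine Finset.sum_congr rfl fun s _ => ?_
    have h3 : s i = 0 ∨ s i = 1 := by
      have h : ∀ a : Fin 2, a = 0 ∨ a = 1 := by decide
      exact h _
    rcases h3 with h | h
    · simp [h]
    · simp [h]
  simp only [e1]
  rw [← Finset.mul_sum, Finset.sum_add_distrib]
  have := add_le_add (hex 0) (hex 1)
  nlinarith [mul_le_mul_of_nonneg_left this (hw0 x)]

end

/-- **Many-body inequality.** -/
theorem many_body : ∃ C : ℝ, 0 < C ∧ ∀ (n : ℕ)
    (ψ : (Fin (n + 1) → E3) → (Fin (n + 1) → Fin 2) → ℂ) (A : E3 → E3) (L : ℝ), 0 < L →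
    (∀ s, ContDiff ℝ ∞ (fun x => ψ x s)) → (∀ s, HasCompactSupport (fun x => ψ x s)) →
    (∀ (σ : Equiv.Perm (Fin (n + 1))) (x : Fin (n + 1) → E3) (s : Fin (n + 1) → Fin 2),
      ψ (x ∘ σ) (s ∘ σ) = ((Equiv.Perm.sign σ : ℤ) : ℂ) * ψ x s) →
    (∫ X, ∑ s, ‖ψ X s‖ ^ 2) = 1 → ContDiff ℝ ∞ A → HasCompactSupport A →
    ∑ i, ∫ X, ∑ s, ‖ψ X s‖ ^ 2 / ‖X i‖ ≤ C * (L * (∑ i, ∫ X, ∑ s, KT A ψ i X s)
      + ((n:ℝ) + 1) * L⁻¹ + 2 * C * ∫ x, Bn A x ^ 2) := by
  obtain ⟨C, hC, hob⟩ := one_body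
  refine ⟨C, hC, ?_⟩
  intro n ψ A L hL hψ hs ha h1 hA hAs
  obtain ⟨w, q, hw, hws, hw0, hq, ⟨R, hR⟩, hcost, hOB⟩ := hob A L hA hAs hL
  have hi := fun i => part_ineq hC.le hL hA.continuous hOB hw hws hw0 hq hψ hs h1 i
  have hsum := Finset.sum_le_sum (s := Finset.univ) fun i _ => hi i
  have hex := sum_ex hw hws hw0 hq hR hψ hs ha h1
  refine hsum.trans ?_
  rw [← Finset.mul_sum, Finset.sum_add_distrib, Finset.sum_add_distrib, ← Finset.mul_sum]
  simp only [Finset.sum_const, Finset.card_univ, Fintype.card_fin, nsmul_eq_mul]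
  push_cast
  refine mul_le_mul_of_nonneg_left ?_ hC.le
  linarith

end Pool.Agent.H7R3.Mag
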